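import Pool.Agent.MP_5d9b3c_ag.H10N.Spec

/-!
In countable dimension a vector that is divisible by almost all `S - z` is torsion.
-/

namespace Pool.Agent.MP_5d9b3c_ag.H10N

open Finset Polynomial

namespace AmiAux

variable {V : Type} [AddCommGroup V] [Module ℂ V]

theorem core (hV : Module.rank ℂ V ≤ Cardinal.aleph0) (S : Module.End ℂ V) (v : V) (Z : Set ℂ)
    (hZ : Z.Countable) (h : ∀ z ∉ Z, ∃ w, v = S w - z • w) :
    ∃ p : ℂ[X], p ≠ 0 ∧ aeval S p v = 0 := by
  classical
  by_contra hn
  have hn' : ∀ p : ℂ[X], aeval S p v = 0 → p = 0 := fun p hp => by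
    by_contra h0
    exact hn ⟨p, h0, hp⟩
  choose w hw using fun z : (Zᶜ : Set ℂ) => h z.1 z.2
  have li : LinearIndependent ℂ w := by
    rw [linearIndependent_iff']
    intro s g hs z hz
    have e1 : ∀ y ∈ s, aeval S (∏ x ∈ s, (X - C x.1)) (w y) =
        aeval S (∏ x ∈ s.erase y, (X - C x.1)) v := by
      intro y hy
      rw [← prod_erase_mul s _ hy, map_mul, Module.End.mul_apply]
      congr 1
      rw [hw y]
      simp [Algebra.algebraMap_eq_smul_one]
    have e2 : aeval S (∑ y ∈ s, C (g y) * ∏ x ∈ s.erase y, (X - C x.1)) v = 0 := by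
      have := congrArg (aeval S (∏ x ∈ s, (X - C x.1))) hs
      rw [map_zero, map_sum] at this
      rw [← this, map_sum, LinearMap.sum_apply]
      refine sum_congr rfl fun y hy => ?_
      rw [map_smul, e1 y hy, map_mul, aeval_C, Module.End.mul_apply, Module.algebraMap_end_apply]
    have e3 := congrArg (eval z.1) (hn' _ e2)
    rw [eval_finsetSum, eval_zero, sum_eq_single z] at e3
    · rw [eval_mul, eval_C, eval_prod] at e3
      refine (mul_eq_zero.1 e3).resolve_right (prod_ne_zero_iff.2 fun x hx => ?_)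
      rw [eval_sub, eval_X, eval_C, sub_ne_zero]
      exact fun e => (mem_erase.1 hx).1 (Subtype.ext e.symm)
    · intro y _ hy
      rw [eval_mul, eval_prod, prod_eq_zero (mem_erase.2 ⟨hy.symm, hz⟩) (by simp), mul_zero]
    · exact fun h => absurd hz h
  have c1 : (Zᶜ : Set ℂ).Countable :=
    Cardinal.le_aleph0_iff_set_countable.1 (li.cardinal_le_rank.trans hV)
  have c2 : (Set.univ : Set ℂ).Countable := Set.union_compl_self Z ▸ hZ.union c1
  exact not_countable_complex c2

theorem aeval_mk (S : Module.End ℂ V) (N : Submodule ℂ V) (h : N ≤ N.comap S) (p : ℂ[X]) (v : V) :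
    aeval (N.mapQ N S h) p (N.mkQ v) = N.mkQ (aeval S p v) := by
  induction p using Polynomial.induction_on generalizing v with
  | C a => simp [Module.algebraMap_end_apply]
  | add p q hp hq => simp only [map_add, LinearMap.add_apply, hp, hq]
  | monomial n a ih =>
    rw [pow_succ, ← mul_assoc, map_mul _ _ X, map_mul _ _ X, Module.End.mul_apply,
      Module.End.mul_apply, aeval_X, aeval_X, ← ih]
    rfl

end AmiAux

theorem ami : AmiStmt := by
  intro V _ _ hV S N v Z hS hZ h
  obtain ⟨p, h0, h1⟩ := AmiAux.core ((rank_quotient_le N).trans hV) (N.mapQ N S hS) (N.mkQ v) Z hZ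
    fun z hz => by
      obtain ⟨w, hw⟩ := h z hz
      refine ⟨N.mkQ w, ?_⟩
      have := (Submodule.Quotient.eq N).2 hw
      rw [Submodule.Quotient.mk_sub, Submodule.Quotient.mk_smul] at this
      exact this
  rw [AmiAux.aeval_mk] at h1
  exact ⟨p, h0, (Submodule.Quotient.mk_eq_zero N).1 h1⟩

end Pool.Agent.MP_5d9b3c_ag.H10N
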