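import Pool.Agent.MP_5d9b3c_ag.H10N.Spec

/-!
Elementary lemmas on slices, on the large parameter and on fans with a lineality space.
-/

namespace Pool.Agent.MP_5d9b3c_ag.H10N

open Finset Pool.Agent.MP_5d9b3c_ag.H22 Pool.Agent.MP_5d9b3c_ag.H48N

section Sl

variable {ι κ : Type} [LinearOrder ι] {S K : Finset ι} {u u' : Pt ι} {k : ι} {B : κ → Pt ι}
  {L T : Finset κ} {q y : Vq ι}

@[simp] lemma sl_none : sl S u none = u none := rfl

lemma sl_some : sl S u (some k) = if k ∈ S then 0 else u (some k) := rfl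

lemma sl_mem (h : k ∈ S) : sl S u (some k) = 0 := if_pos h

lemma sl_not (h : k ∉ S) : sl S u (some k) = u (some k) := if_neg h

lemma sl_add : sl S (u + u') = sl S u + sl S u' := by
  ext (_ | k)
  · rfl
  · simp only [sl_some, Pi.add_apply]
    split_ifs <;> simp

@[simp] lemma sl_empty : sl ∅ u = u := by
  ext (_ | k)
  · rfl
  · exact sl_not (notMem_empty k)

lemma sl_sl {S' : Finset ι} : sl S (sl S' u) = sl (S ∪ S') u := by
  ext (_ | k)
  · rfl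
  · simp only [sl_some, mem_union]
    by_cases h : k ∈ S <;> simp [h]

lemma sl_of_zero (h : ∀ k ∈ S, u (some k) = 0) : sl S u = u := by
  ext (_ | k)
  · rfl
  · rw [sl_some]
    split_ifs with h1
    · exact (h k h1).symm
    · rfl

lemma Lin0.none (h : Lin0 B K L) {b : κ} (hb : b ∈ L) : B b none = 0 :=
  congrFun (h.supp b hb) Option.none

lemma Lin0.off (h : Lin0 B K L) {b : κ} (hb : b ∈ L) (hk : k ∉ K) : B b (some k) = 0 := by
  rw [← sl_not (u := B b) hk, h.supp b hb, Pi.zero_apply]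

lemma Lin0.lev (h : Lin0 B K L) {b : κ} (hb : b ∈ L) : lev B b = 0 := by
  rw [H48N.lev, h.none hb, Int.cast_zero]

variable [Fintype ι]

/-- A functional that vanishes on `K` kills the lineality vectors. -/
lemma Lin0.dot (h : Lin0 B K L) {n : Vq ι} (hn : ∀ k ∈ K, n (some k) = 0) {b : κ} (hb : b ∈ L) :
    n ⬝ᵥ Bq B b = 0 := by
  refine sum_eq_zero ?_
  rintro (_ | k) _
  · simp [Bq, h.none hb]
  · by_cases hk : k ∈ K
    · rw [hn k hk, zero_mul]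
    · simp [Bq, h.off hb hk]

lemma Lin0.dotx (h : Lin0 B K L) {n : ι → ℚ} (hn : ∀ k ∈ K, n k = 0) {b : κ} (hb : b ∈ L) :
    n ⬝ᵥ bx B b = 0 := by
  refine sum_eq_zero (fun k _ => ?_)
  by_cases hk : k ∈ K
  · rw [hn k hk, zero_mul]
  · simp [bx, h.off hb hk]

/-- A functional that is nonnegative on the lineality vectors vanishes on `K`. -/
lemma Lin0.zero (h : Lin0 B K L) {n : Vq ι} (hn : ∀ b ∈ L, 0 ≤ n ⬝ᵥ Bq B b) (hk : k ∈ K) :
    n (some k) = 0 := by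
  obtain ⟨b, h1, h2⟩ := h.pos k hk
  obtain ⟨b', h3, h4⟩ := h.neg k hk
  have h5 := hn b h1
  have h6 := hn b' h3
  have e : ∀ (b : κ) (r : ℤ), B b = Pi.single (some k) r → n ⬝ᵥ Bq B b = n (some k) * r := by
    intro b r hb
    rw [dotProduct, sum_eq_single (some k) (fun o _ ho => by simp [Bq, hb, ho]) (by simp)]
    simp [Bq, hb]
  rw [e b 1 h2] at h5
  rw [e b' (-1) h4] at h6
  push_cast at h5 h6
  linarith

lemma Lin0.zerox (h : Lin0 B K L) {n : ι → ℚ} (hn : ∀ b ∈ L, 0 ≤ n ⬝ᵥ bx B b) (hk : k ∈ K) :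
    n k = 0 :=
  h.zero (n := qq 0 n) (fun b hb => by
    rw [qq_dot, zero_mul, zero_add]
    exact hn b hb) hk

/-- Slicing does not change the pairing with a functional that vanishes on `S`. -/
lemma dot_slB {n : Vq ι} (hn : ∀ k ∈ S, n (some k) = 0) (b : κ) :
    n ⬝ᵥ Bq (slB S B) b = n ⬝ᵥ Bq B b := by
  refine sum_congr rfl ?_
  rintro (_ | k) _
  · rfl
  · by_cases hk : k ∈ S
    · rw [hn k hk, zero_mul, zero_mul]
    · simp [Bq, slB, sl_not hk]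

/-- The pairing with a sliced vector. -/
lemma dot_slB' (n : Vq ι) (b : κ) : n ⬝ᵥ Bq (slB S B) b =
    (fun o : Option ι => o.elim (n none) (fun k => if k ∈ S then 0 else n (some k))) ⬝ᵥ Bq B b := by
  refine sum_congr rfl ?_
  rintro (_ | k) _
  · rfl
  · by_cases hk : k ∈ S
    · simp [Bq, slB, sl_mem hk, hk]
    · simp [Bq, slB, sl_not hk, hk]

/-- The monomial of a sliced vector. -/
lemma prod_sl (ζ : ι → ℂ) (x : Option ι → ℂ) (u : Pt ι) :
    (∏ k ∈ S, ζ k ^ u (some k)) * ∏ o, x o ^ sl S u o =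
      ∏ o, (fun o : Option ι => o.elim (x none) (fun k => if k ∈ S then ζ k else x (some k))) o ^
        u o := by
  rw [Fintype.prod_option, Fintype.prod_option, mul_left_comm, ← univ_inter S, ← prod_ite_mem,
    ← prod_mul_distrib]
  congr 1
  refine prod_congr rfl (fun k _ => ?_)
  by_cases hk : k ∈ S
  · simp [sl_mem hk, hk]
  · simp [sl_not hk, hk]

omit [Fintype ι] in
/-- The cone contains the coordinate subspace of `K`. -/
lemma Lin0.cone [Fintype κ] (h : Lin0 B K L) (hL : L ⊆ T) {z : Vq ι} (h0 : z Option.none = 0)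
    (h1 : ∀ k ∉ K, z (some k) = 0) : Cone (Bq B) T z := by
  have e : z = ∑ k ∈ K, Pi.single (some k) (z (some k)) := by
    ext (_ | k)
    · simp [h0, Finset.sum_apply]
    · by_cases hk : k ∈ K
      · simp [Finset.sum_apply, Pi.single_apply, hk]
      · simp [Finset.sum_apply, Pi.single_apply, hk, h1 k hk]
  rw [e]
  refine Finset.sum_induction _ (Cone (Bq B) T) (fun _ _ => Cone.add) Cone.zero (fun k hk => ?_)
  have key : ∀ (b : κ) (r : ℤ) (t : ℚ), b ∈ L → B b = Pi.single (some k) r → 0 ≤ t →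
      Cone (Bq B) T (Pi.single (some k) (t * r)) := by
    intro b r t hb h2 ht
    have h3 := (Cone.single (v := Bq B) (hL hb)).smul ht
    have e2 : t • Bq B b = Pi.single (some k) (t * r) := by
      ext o
      by_cases ho : o = some k
      · simp [Bq, h2, ho]
      · simp [Bq, h2, ho]
    rwa [e2] at h3
  rcases le_total 0 (z (some k)) with h2 | h2
  · obtain ⟨b, h3, h4⟩ := h.pos k hk
    simpa using key b 1 _ h3 h4 h2
  · obtain ⟨b, h3, h4⟩ := h.neg k hk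
    simpa using key b (-1) _ h3 h4 (neg_nonneg.2 h2)

omit [Fintype ι] in
/-- The lattice points of the cone are stable under shifts in the directions of `K`. -/
lemma Lin0.CY_add [Fintype κ] (h : Lin0 B K L) (hL : L ⊆ T) (hu : u ∈ CY B q T y)
    (h0 : sl K u' = 0) : u + u' ∈ CY B q T y := by
  have e : hat q (u + u') - y = (hat q u - y) + fun o => (u' o : ℚ) := by
    ext o
    simp only [hat, Pi.add_apply, Pi.sub_apply, Int.cast_add]
    ring
  change Cone _ _ _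
  rw [e]
  refine Cone.add hu (h.cone hL ?_ (fun k hk => ?_))
  · have := congrFun h0 Option.none
    rw [sl_none] at this
    simp [this]
  · have := congrFun h0 (some k)
    rw [sl_not hk] at this
    simp [this]

end Sl

section FR

variable {ι κ : Type} [Fintype κ] [DecidableEq κ] {B : κ → Pt ι} {ρ : ι → κ → ℂ} {c : κ → ℂ}
  {T : Finset κ}

lemma FR_single (i : ι) (u : Pt ι) : FR B ρ T i (Finsupp.single u 1) =
    ∑ b ∈ T, ρ i b • Finsupp.single (u + B b) 1 := by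
  simp only [FR, op_single, Pi.zero_apply, zero_smul, zero_add, ite_smul, sum_ite_mem,
    univ_inter]

lemma FR_mem {Y : Set (Pt ι)} {u : Pt ι} (i : ι) (h : ∀ b ∈ T, u + B b ∈ Y) :
    FR B ρ T i (Finsupp.single u 1) ∈ Su Y :=
  op_mem (fun h => absurd rfl h) (fun b hb => h b (by
    by_contra h1
    exact hb (if_neg h1)))

lemma comm_FR : Comm (FR B ρ T) := fun _ _ =>
  op_commute (fun _ _ => by simp) (fun _ _ _ => mul_comm _ _)

lemma FT_eq_FR : FT B c T = FR B (cB B c) T := rfl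

end FR

section Up

variable {ι κ : Type} {σ σ' : ℤ} {u u' : Pt ι} {U U' : Pt (Option ι)}

@[simp] lemma dn_up : dn (up σ u) = u := rfl

@[simp] lemma up_none : up σ u none = σ := rfl

lemma up_dn : up (U none) (dn U) = U := by
  ext (_ | o) <;> rfl

lemma dn_add : dn (U + U') = dn U + dn U' := rfl

lemma up_add : up σ u + up σ' u' = up (σ + σ') (u + u') := by
  ext (_ | o) <;> rfl

variable [Fintype κ] {B : κ → Pt ι} {c : κ → ℂ} {s : κ → ℕ} {q : Vq ι}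

lemma DT_single (i : ι) (U : Pt (Option ι)) : DT B c s q i (Finsupp.single U 1) =
    ((hat q (dn U) (some i) : ℚ) : ℂ) • Finsupp.single U 1 +
      ∑ b, (c b * (B b (some i) : ℂ)) • Finsupp.single (U + up (s b) (B b)) 1 := op_single _ _ _

lemma comm_DT [Fintype ι] [LinearOrder ι] : Comm (DT B c s q) := fun _ _ =>
  op_commute (fun U b => by
    simp only [dn_add, dn_up, hat, Pi.add_apply]
    push_cast
    ring) (fun _ _ _ => mul_comm _ _)

end Up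

section Fan

variable {ι κ : Type} [Fintype ι] [LinearOrder ι] [Fintype κ] [DecidableEq κ] {B : κ → Pt ι}
  {c : κ → ℂ} {K : Finset ι} {L : Finset κ} {v : κ → ℚ} {Ξ : Set ℂ}
  {W : Finset (ι → ℚ)} {wc : (ι → ℚ) → ι → ℚ} {q y : Vq ι} {p ψ : ι → ℚ} {u : Pt ι} {b : κ}

lemma Fan2.bx_nonneg (h : Fan2 B c K L v Ξ W wc) (b : κ) {k : ι} (hk : k ∉ K) : 0 ≤ bx B b k := by
  unfold bx
  exact_mod_cast h.nonneg b k hk

lemma Fan2.zeroK (h : Fan2 B c K L v Ξ W wc) (hf : Feas (bx B) v ψ) {k : ι} (hk : k ∈ K) :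
    ψ k = 0 := h.lin.zerox (fun b hb => (h.vL b hb).ge.trans (hf b)) hk

lemma Fan2.L_sub (h : Fan2 B c K L v Ξ W wc) (hf : Feas (bx B) v ψ) : L ⊆ Tt (bx B) v ψ :=
  fun b hb => mem_Tt.2 (by rw [h.lin.dotx (fun k hk => h.zeroK hf hk) hb, h.vL b hb])

lemma Fan2.RG_add (h : Fan2 B c K L v Ξ W wc) (hu : u ∈ RG K q y) (b : κ) :
    u + B b ∈ RG K q y := fun k hk => by
  rw [pp_add]
  exact add_nonneg (hu k hk) (h.bx_nonneg b hk)

lemma Fan2.nonempty (h : Fan2 B c K L v Ξ W wc) : W.Nonempty :=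
  let ⟨ψ, h1, _⟩ := h.cover 0 (fun _ _ => le_rfl); ⟨ψ, h1⟩

lemma Fan2.Ynn_add (h : Fan2 B c K L v Ξ W wc) (hu : u ∈ Ynn K W wc q y) (b : κ) :
    u + B b ∈ Ynn K W wc q y :=
  ⟨fun k hk => by
    rw [pp_add]
    exact add_nonneg (hu.1 k hk) (h.bx_nonneg b hk), fun ψ hψ => by
    rw [hat_add_sub, dotProduct_add, hw_Bq]
    linarith [hu.2 ψ hψ, h.cfeas ψ hψ b]⟩

/-- A minimiser over the vertices exists and is a minimiser over all feasible points. -/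
lemma Fan2.exists_min (h : Fan2 B c K L v Ξ W wc) (hp : ∀ k ∉ K, 0 ≤ p k) :
    ∃ ψ ∈ W, ∀ ψ', Feas (bx B) v ψ' → ψ ⬝ᵥ p ≤ ψ' ⬝ᵥ p := by
  obtain ⟨ψ, h1, h2⟩ := h.cover p hp
  exact ⟨ψ, h1, fun _ h3 => h2.le_of_feas h3⟩

/-- The point lies in the cone of every feasible minimiser. -/
lemma Fan2.cone_of_min (h : Fan2 B c K L v Ξ W wc) (hp : ∀ k ∉ K, 0 ≤ p k)
    (hf : Feas (bx B) v ψ) (hm : ∀ ψ' ∈ W, ψ ⬝ᵥ p ≤ ψ' ⬝ᵥ p) :
    Cone (bx B) (Tt (bx B) v ψ) p := by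
  classical
  obtain ⟨ψ0, h1, h2⟩ := h.cover p hp
  exact (h2.tight hf (hm ψ0 h1)).mono inter_subset_right

lemma Fan2.wc_min (h : Fan2 B c K L v Ξ W wc) (hψ : ψ ∈ W)
    (hc : Cone (bx B) (Tt (bx B) v ψ) p) {w : ι → ℚ} (hw1 : Feas (bx B) (lev B) w) :
    wc ψ ⬝ᵥ p ≤ w ⬝ᵥ p := (hc.mono (h.csub ψ hψ)).le_of_feas hw1

lemma Fan2.mem_GG (h : Fan2 B c K L v Ξ W wc) (hψ : ψ ∈ W)
    (hc : Cone (Bq B) (Tt (bx B) v ψ) (hat q u - y)) : u ∈ GG K W wc q y := by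
  refine ⟨⟨fun k hk => ?_, fun ψ' hψ' => hc.dot_nonneg (fun b _ => ?_)⟩, fun h1 => ?_⟩
  · obtain ⟨s, hs, h1⟩ := hc.proj
    rw [← pp_eq, h1, Finset.sum_apply]
    exact sum_nonneg (fun b _ => mul_nonneg (hs b) (h.bx_nonneg b hk))
  · rw [hw_Bq]
    linarith [h.cfeas ψ' hψ' b]
  · refine (h1 ψ hψ).ne' (hc.dot_zero (fun b hb => ?_))
    rw [hw_Bq, mem_Tt.1 (h.csub ψ hψ hb), sub_self]

/-- On the boundary layer the wall of every minimiser vanishes. -/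
lemma Fan2.hw_zero (h : Fan2 B c K L v Ξ W wc) (hu : u ∈ GG K W wc q y) (hψ : ψ ∈ W)
    (hm : ∀ ψ' ∈ W, ψ ⬝ᵥ pp q y u ≤ ψ' ⬝ᵥ pp q y u) : hw (wc ψ) ⬝ᵥ (hat q u - y) = 0 := by
  refine le_antisymm ?_ (hu.1.2 ψ hψ)
  by_contra h1
  refine hu.2 (fun ψ' hψ' => ?_)
  have := h.wc_min hψ (h.cone_of_min hu.1.1 (h.feas ψ hψ) hm) (h.cfeas ψ' hψ')
  rw [hw_hat] at h1 ⊢
  linarith

lemma Fan2.cone_GG (h : Fan2 B c K L v Ξ W wc) (hu : u ∈ GG K W wc q y) (hψ : ψ ∈ W)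
    (hm : ∀ ψ' ∈ W, ψ ⬝ᵥ pp q y u ≤ ψ' ⬝ᵥ pp q y u) :
    Cone (Bq B) (Tt (bx B) v ψ) (hat q u - y) :=
  Cone.lift (h.cone_of_min hu.1.1 (h.feas ψ hψ) hm) (fun _ hb => mem_Tt.1 (h.csub ψ hψ hb))
    (h.hw_zero hu hψ hm)

/-- The cone of any feasible minimiser contains the lifted point. -/
lemma Fan2.cone_GG' (h : Fan2 B c K L v Ξ W wc) (hu : u ∈ GG K W wc q y)
    (hf : Feas (bx B) v ψ) (hm : ∀ ψ' ∈ W, ψ ⬝ᵥ pp q y u ≤ ψ' ⬝ᵥ pp q y u) :
    Cone (Bq B) (Tt (bx B) v ψ) (hat q u - y) := by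
  classical
  obtain ⟨ψ0, h1, h2⟩ := h.cover _ hu.1.1
  exact (Cone.lift (h2.tight hf (hm ψ0 h1))
    (fun _ hb => mem_Tt.1 (h.csub ψ0 h1 (mem_inter.1 hb).1))
    (h.hw_zero hu h1 (fun ψ' h3 => h2.le_of_feas (h.feas ψ' h3)))).mono inter_subset_right

lemma Fan2.sim_add (h : Fan2 B c K L v Ξ W wc) (hu : u ∈ GG K W wc q y)
    (hs : Sim2 B v W (pp q y u) b) : u + B b ∈ GG K W wc q y := by
  obtain ⟨ψ, h1, h2, h3⟩ := hs
  refine h.mem_GG h1 ?_
  rw [hat_add_sub]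
  exact (h.cone_GG hu h1 h2).add (Cone.single (mem_Tt.2 h3))

omit [Fintype κ] [LinearOrder ι] [DecidableEq κ] in
/-- The minimisers after a shift inside a cone. -/
lemma Sim2.min_iff (hf : ∀ ψ ∈ W, Feas (bx B) v ψ) (hs : Sim2 B v W p b) (hψ : ψ ∈ W) :
    (∀ ψ' ∈ W, ψ ⬝ᵥ (p + bx B b) ≤ ψ' ⬝ᵥ (p + bx B b)) ↔
      (∀ ψ' ∈ W, ψ ⬝ᵥ p ≤ ψ' ⬝ᵥ p) ∧ ψ ⬝ᵥ bx B b = v b := by
  obtain ⟨ψ0, h1, h2, h3⟩ := hs
  simp only [dotProduct_add]
  constructor
  · intro h4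
    have h5 := h4 ψ0 h1
    have h6 := h2 ψ hψ
    have h7 := hf ψ hψ b
    exact ⟨fun ψ' h8 => by linarith [h2 ψ' h8], by linarith⟩
  · rintro ⟨h4, h5⟩ ψ' h6
    linarith [h4 ψ' h6, hf ψ' h6 b]

omit [Fintype κ] [LinearOrder ι] [DecidableEq κ] in
lemma sim2_sim2 (hf : ∀ ψ ∈ W, Feas (bx B) v ψ) {b' : κ} (h1 : Sim2 B v W p b)
    (h2 : Sim2 B v W (p + bx B b) b') : Sim2 B v W p b' ∧ Sim2 B v W (p + bx B b') b := by
  obtain ⟨ψ, h3, h4, h5⟩ := h2
  obtain ⟨h6, h7⟩ := (h1.min_iff hf h3).1 h4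
  have h8 : Sim2 B v W p b' := ⟨ψ, h3, h6, h5⟩
  exact ⟨h8, ψ, h3, (h8.min_iff hf h3).2 ⟨h6, h5⟩, h7⟩

omit [LinearOrder ι] [DecidableEq κ] in
open Classical in
lemma Ftr2_single (i : ι) (u : Pt ι) : Ftr2 B c v W q y i (Finsupp.single u 1) =
    ∑ b, (if Sim2 B v W (pp q y u) b then c b * (B b (some i) : ℂ) else 0) •
      Finsupp.single (u + B b) 1 := by
  rw [Ftr2, op_single, Pi.zero_apply, zero_smul, zero_add]

omit [LinearOrder ι] [DecidableEq κ] in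
lemma Ftr2_mem {Y : Set (Pt ι)} (i : ι)
    (h : ∀ b, Sim2 B v W (pp q y u) b → B b (some i) ≠ 0 → u + B b ∈ Y) :
    Ftr2 B c v W q y i (Finsupp.single u 1) ∈ Su Y :=
  op_mem (fun h => absurd rfl h) (fun b hb => h b (by
    by_contra h1
    exact hb (if_neg h1)) (fun h1 => hb (by simp [h1])))

omit [LinearOrder ι] [DecidableEq κ] in
lemma comm_Ftr2 (hf : ∀ ψ ∈ W, Feas (bx B) v ψ) : Comm (Ftr2 B c v W q y) := fun _ _ =>
  op_commute (fun _ _ => by simp) (fun u b b' => by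
    rw [pp_add, pp_add]
    by_cases h : Sim2 B v W (pp q y u) b ∧ Sim2 B v W (pp q y u + bx B b) b'
    · have h' := sim2_sim2 hf h.1 h.2
      rw [if_pos h.1, if_pos h.2, if_pos h'.1, if_pos h'.2, mul_comm]
    · have h' : ¬ (Sim2 B v W (pp q y u) b' ∧ Sim2 B v W (pp q y u + bx B b') b) :=
        fun h' => h (sim2_sim2 hf h'.1 h'.2)
      rw [not_and_or] at h h'
      rcases h with h | h <;> rcases h' with h' | h' <;>
        rw [if_neg h, if_neg h'] <;> simp only [zero_mul, mul_zero])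

end Fan

end Pool.Agent.MP_5d9b3c_ag.H10N
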