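import Pool.Agent.MP_5d9b3c_ag.H10N.CMR

/-!
Shifted cones with a lineality space are Cohen-Macaulay.
-/

namespace Pool.Agent.MP_5d9b3c_ag.H10N

open Finset Pool.Agent.MP_5d9b3c_ag.H22 Pool.Agent.MP_5d9b3c_ag.H48N

namespace CMLAux

variable {ι κ : Type} [LinearOrder ι] {B : κ → Pt ι} {K S : Finset ι} {T L : Finset κ}
  {q y : Vq ι} {u : Pt ι}

/-- The coordinates in `S` of a rational vector are set to zero. -/
def slq (S : Finset ι) (v : Vq ι) : Vq ι :=
  fun o => o.elim (v none) (fun k => if k ∈ S then 0 else v (some k))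

lemma sq_add (v v' : Vq ι) : slq S (v + v') = slq S v + slq S v' := by
  ext (_ | k)
  · rfl
  · by_cases h : k ∈ S <;> simp [slq, h]

lemma sq_Bq (b : κ) : slq S (Bq B b) = Bq (slB S B) b := by
  ext (_ | k)
  · rfl
  · by_cases h : k ∈ S <;> simp [slq, h, slB, sl, bx]

lemma sq_sum (s : κ → ℚ) : slq S (∑ b ∈ T, s b • Bq B b) = ∑ b ∈ T, s b • Bq (slB S B) b := by
  ext (_ | k)
  · simp [slq, Finset.sum_apply, lev, slB, sl]
  · by_cases h : k ∈ S <;> simp [slq, h, Finset.sum_apply, slB, sl, bx]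

lemma Bq_L (hL : Lin0 B K L) {b : κ} (hb : b ∈ L) : Bq (slB K B) b = 0 := by
  ext o
  simp [Bq, slB, hL.supp b hb]

variable [DecidableEq κ]

lemma cone_iff (hL : Lin0 B K L) (hT : L ⊆ T) (v : Vq ι) :
    Cone (Bq B) T v ↔ Cone (Bq (slB K B)) (T \ L) (slq K v) := by
  constructor
  · rintro ⟨s, hs, rfl⟩
    refine ⟨s, hs, ?_⟩
    rw [sq_sum, ← sum_sdiff hT, sum_eq_zero (s := L) (fun b hb => by rw [Bq_L hL hb, smul_zero]),
      add_zero]
  · rintro ⟨s, hs, h⟩
    rw [← sq_sum] at h
    obtain ⟨v', hv'⟩ : ∃ v', v' = ∑ b ∈ T \ L, s b • Bq B b := ⟨_, rfl⟩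
    have h1 : Cone (Bq B) T v' := Cone.mono ⟨s, hs, hv'⟩ sdiff_subset
    rw [← hv'] at h
    have h2 : v = v' + ∑ k ∈ K, Pi.single (some k) (v (some k) - v' (some k)) := by
      ext (_ | k)
      · simpa [slq, Finset.sum_apply] using congrFun h none
      · have := congrFun h (some k)
        by_cases hk : k ∈ K
        · simp [Finset.sum_apply, Pi.single_apply, hk]
        · simpa [slq, hk, Finset.sum_apply, Pi.single_apply] using this
    rw [h2]
    refine h1.add (Finset.sum_induction _ (Cone (Bq B) T) (fun _ _ => Cone.add) Cone.zero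
      (fun k hk => ?_))
    generalize v (some k) - v' (some k) = r
    rcases le_total 0 r with hr | hr
    · obtain ⟨b, hb, e⟩ := hL.pos k hk
      have := (Cone.single (v := Bq B) (hT hb)).smul hr
      convert this using 1
      ext o
      simp only [Bq, e, Pi.single_apply, Pi.smul_apply, smul_eq_mul]
      split_ifs <;> simp
    · obtain ⟨b, hb, e⟩ := hL.neg k hk
      have := (Cone.single (v := Bq B) (hT hb)).smul (neg_nonneg.2 hr)
      convert this using 1
      ext o
      simp only [Bq, e, Pi.single_apply, Pi.smul_apply, smul_eq_mul]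
      split_ifs <;> simp

lemma CY_congr (hL : Lin0 B K L) (hT : L ⊆ T) {u' : Pt ι} (h : sl K u = sl K u')
    (hu : u ∈ CY B q T y) : u' ∈ CY B q T y := by
  have e : slq K (hat q u' - y) = slq K (hat q u - y) := by
    ext (_ | k)
    · have : u none = u' none := congrFun h none
      simp [slq, hat, this]
    · have := congrFun h (some k)
      by_cases hk : k ∈ K
      · simp [slq, hk]
      · simp only [sl, Option.elim_some, if_neg hk] at this
        simp [slq, hk, hat, this]
  change Cone _ _ _ at hu ⊢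
  rw [cone_iff hL hT] at hu ⊢
  rwa [e]

lemma slY_eq (hL : Lin0 B K L) (hT : L ⊆ T) :
    slY K (CY B q T y) = CY (slB K B) q (T \ L) (q - slq K (q - y)) := by
  ext u
  have e : (∀ k ∈ K, u (some k) = 0) → hat q u - (q - slq K (q - y)) = slq K (hat q u - y) := by
    intro h
    ext (_ | k)
    · simp only [slq, hat, Pi.sub_apply, Option.elim_none]
      ring
    · by_cases hk : k ∈ K
      · simp [slq, hat, hk, h k hk]
      · simp only [slq, hat, Pi.sub_apply, Option.elim_some, if_neg hk]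
        ring
  constructor
  · rintro ⟨h1, h2⟩
    change Cone _ _ _
    rw [e h2]
    exact (cone_iff hL hT _).1 h1
  · intro h
    have h2 : ∀ k ∈ K, u (some k) = 0 := fun k hk => by
      obtain ⟨s, _, h3⟩ := h
      have := congrFun h3 (some k)
      simpa [slq, hat, hk, Finset.sum_apply, slB, sl, bx] using this
    refine ⟨(cone_iff hL hT _).2 ?_, h2⟩
    rw [← e h2]
    exact h

omit [DecidableEq κ] in
lemma sl_sl (h : S ⊆ K) (u : Pt ι) : sl K (sl S u) = sl K u := by
  ext (_ | k)
  · rfl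
  · by_cases hk : k ∈ K
    · simp [sl, hk]
    · have : k ∉ S := fun h1 => hk (h h1)
      simp [sl, hk, this]

omit [DecidableEq κ] in
lemma sl_add (u u' : Pt ι) : sl K (u + u') = sl K u + sl K u' := by
  ext (_ | k)
  · rfl
  · by_cases hk : k ∈ K <;> simp [sl, hk]

lemma slY_add (hL : Lin0 B K L) (hT : L ⊆ T) (hS : S ⊆ K) (hu : u ∈ slY S (CY B q T y)) {b : κ}
    (hb : b ∈ T) : u + slB S B b ∈ slY S (CY B q T y) :=
  ⟨CY_congr hL hT (by rw [slB, sl_add, sl_add, sl_sl hS]) (CY_add hu.1 hb),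
    fun k hk => by simp [slB, sl, hk, hu.2 k hk]⟩

variable [Fintype ι]

omit [DecidableEq κ] in
lemma sq_dot (n : Vq ι) (b : κ) : slq S n ⬝ᵥ Bq B b = n ⬝ᵥ Bq (slB S B) b := by
  refine sum_congr rfl ?_
  rintro (_ | k) _
  · rfl
  · by_cases h : k ∈ S <;> simp [slq, h, slB, sl, bx]

omit [DecidableEq κ] in
/-- The point of the total space over a point of the slice. -/
lemma lift_pt (S : Finset ι) (ζ : ι → ℂ) (hζ : ∀ i, ζ i ≠ 0) (x : Option ι → ℂ)
    (hx : ∀ o, x o ≠ 0) : ∃ x' : Option ι → ℂ, (∀ o, x' o ≠ 0) ∧ (∀ k ∈ S, x' (some k) = ζ k) ∧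
      ∀ u : Pt ι, ∏ o, x' o ^ u o = (∏ k ∈ S, ζ k ^ u (some k)) * ∏ o, x o ^ sl S u o := by
  refine ⟨fun o => o.elim (x none) (fun k => if k ∈ S then ζ k else x (some k)), ?_,
    fun k hk => by simp [hk], fun u => ?_⟩
  · rintro (_ | k)
    · exact hx none
    · by_cases h : k ∈ S <;> simp [h, hζ, hx]
  · rw [Fintype.prod_option, Fintype.prod_option, mul_left_comm, ← prod_ite_mem_eq S,
      ← prod_mul_distrib]
    congr 1
    refine prod_congr rfl (fun k _ => ?_)
    by_cases h : k ∈ S <;> simp [h, sl]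

end CMLAux

open CMLAux in
theorem base (hC : CMRStmt) (hR : RedZStmt) : BaseStmt := by
  intro ι κ _ _ _ _ B c A K T L hL hT hM hd q y k hk ζ hζ
  obtain ⟨n, hn1, hn2⟩ := hd
  have hF : FaceR (slB K B) (slR K ζ B (cB B c)) A (T \ L) := by
    intro g h1 h2 x hx
    have e : T.filter (fun b => slq K g ⬝ᵥ Bq B b = 0) \ L =
        (T \ L).filter (fun b => g ⬝ᵥ Bq (slB K B) b = 0) := by
      ext b
      simp only [mem_sdiff, mem_filter, sq_dot]
      tauto
    obtain ⟨x', h3, _, h4⟩ := lift_pt K ζ hζ x hx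
    obtain ⟨i, hi, h5⟩ := hM (slq K g) (fun b hb => by
      rw [sq_dot]
      by_cases h : b ∈ L
      · rw [Bq_L hL h, dotProduct_zero]
      · exact h1 b (mem_sdiff.2 ⟨hb, h⟩)) (e ▸ h2) x' h3
    refine ⟨i, hi, ?_⟩
    rw [e] at h5
    simpa only [h4, slR, cB, slB, mul_assoc] using h5
  have h1 := hC ι κ _ _ A _ hF q (q - slq K (q - y)) k hk
  rw [slY_eq hL hT]
  generalize q - slq K (q - y) = y' at h1 ⊢
  have hn3 : ∀ b ∈ T \ L, n ⬝ᵥ Bq (slB K B) b = 1 := fun b hb => by
    rw [← sq_dot, ← hn2 b hb]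
    congr 1
    ext (_ | k)
    · rfl
    · by_cases h : k ∈ K <;> simp [slq, h, hn1]
  obtain ⟨m, hm, hd⟩ := disc_hat (fun _ : Unit => n) q y'
  have hm' : (0 : ℚ) < m := by exact_mod_cast hm
  choose N hN using hd ()
  have h2 := (hR (Pt ι) ι (FR (slB K B) (slR K ζ B (cB B c)) T)
    (FR (slB K B) (slR K ζ B (cB B c)) (T \ L)) (res A (CY (slB K B) q (T \ L) y')) N m k
    CMRAux.comm_FR (fun J i _ u hu => ⟨CMRAux.FR_mem i (fun b hb =>
      ⟨⟨(subset_insert _ _).trans hu.1, CY_add hu.2 hb⟩, ?_⟩),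
      op_sub_mem (fun h => absurd rfl h) (fun b hb => ?_)⟩)).1 (Or.inr h1) 0
  · have e : Lo (res A (CY (slB K B) q (T \ L) y')) N m 0 = emp _ _ := by
      funext J
      refine Set.eq_empty_of_forall_notMem (fun u hu => ?_)
      have h3 := Cone.dot_nonneg hu.1.2 (fun b hb => (hn3 b hb).ge.trans' zero_le_one)
      have h4 : (0 : ℚ) ≤ N u := by
        rw [← hN]
        positivity
      have h5 : 0 ≤ N u := by exact_mod_cast h4
      have h6 := hu.2
      have h7 : (0 : ℤ) ≤ m * #J := by positivity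
      omega
    rwa [e] at h2
  · have : (N (u + slB K B b) : ℚ) = N u + m := by
      rw [← hN, ← hN, hat_add_sub, dotProduct_add, hn3 b hb]
      ring
    exact_mod_cast this
  · have hb' : b ∈ L := by
      by_contra h
      exact hb (if_congr (by simp [h]) rfl rfl)
    have e : slB K B b = 0 := hL.supp b hb'
    rw [e, add_zero]
    exact ⟨⟨(subset_insert _ _).trans hu.1, hu.2⟩, by omega⟩

open CMLAux in
theorem cml (hN : NSRStmt) (hS : SliceStmt) (hB : BaseStmt) : CMLStmt := by
  intro ι κ _ _ _ _ B c A K T L Ξ hL hT hΞ hM hC hd q y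
  have off : ∀ S ⊆ K, ∀ ζ : ι → ℂ, (∀ i, ζ i ≠ 0) → ∀ s ∈ S, ζ s ∉ Ξ → ∀ k,
      Ex (FR (slB S B) (slR S ζ B (cB B c)) T) k (res A (slY S (CY B q T y))) (emp _ _) := by
    intro S hSK ζ hζ s hs h0 k
    obtain ⟨v, hv, e⟩ := hL.pos s (hSK hs)
    have e1 : slB S B v = 0 := by
      ext (_ | i)
      · simp [slB, sl, e]
      · by_cases h : i ∈ S
        · simp [slB, sl, h]
        · have : i ≠ s := fun h1 => h (h1 ▸ hs)
          simp [slB, sl, e, this]
    obtain ⟨G, k1, k2, k3, k4⟩ := hN ι κ (slB S B) (slR S ζ B (cB B c)) A T (fun g h1 _ x hx => by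
      obtain ⟨x', h3, h4, h5⟩ := lift_pt S ζ hζ x hx
      by_contra h6
      push Not at h6
      refine h0 (h4 s hs ▸ hC (slq S g) (fun b hb => by rw [sq_dot]; exact h1 b hb) x' h3
        (fun i hi => ?_) s (hSK hs))
      simpa only [h5, slR, cB, slB, mul_assoc, sq_dot] using h6 i hi) v (hT hv)
    exact Ex.of_htpy G k1 k2 k3 (k4 _ (fun u hu b hb => slY_add hL hT hSK hu hb)
      (fun u hu => by rwa [e1, sub_zero]))
  have main : ∀ r : ℕ, ∀ S ⊆ K, #(K \ S) = r → ∀ ζ : ι → ℂ, (∀ i, ζ i ≠ 0) → ∀ k,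
      #A < k + rk (Bq (slB K B)) (T \ L) + r →
      Ex (FR (slB S B) (slR S ζ B (cB B c)) T) k (res A (slY S (CY B q T y))) (emp _ _) := by
    intro r
    induction r with
    | zero =>
      intro S hSK h0 ζ hζ k hk
      rw [card_eq_zero, sdiff_eq_empty_iff_subset] at h0
      rw [subset_antisymm hSK h0]
      exact hB ι κ B c A K T L hL hT hM hd q y k hk ζ hζ
    | succ r ih =>
      intro S hSK h0 ζ hζ k hk
      obtain ⟨s, hs⟩ : (K \ S).Nonempty := card_pos.1 (by omega)
      obtain ⟨hs1, hs2⟩ := mem_sdiff.1 hs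
      have e1 : slB {s} (slB S B) = slB (insert s S) B := by
        funext b
        ext (_ | i)
        · rfl
        · by_cases h : i = s <;> simp [slB, sl, h]
      have e2 : ∀ z, slR {s} (fun _ => z) (slB S B) (slR S ζ B (cB B c)) =
          slR (insert s S) (Function.update ζ s z) B (cB B c) := by
        intro z
        funext i b
        simp only [slR, prod_singleton, prod_insert hs2, Function.update_self, slB, sl,
          Option.elim_some, if_neg hs2]
        rw [prod_congr (s₁ := S) (f := fun k => Function.update ζ s z k ^ B b (some k))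
          (g := fun k => ζ k ^ B b (some k)) rfl (fun k hk => by
          rw [Function.update_of_ne (by rintro rfl; exact hs2 hk)])]
        ring
      have e3 : slY {s} (slY S (CY B q T y)) = slY (insert s S) (CY B q T y) := by
        ext u
        simp only [slY, Set.mem_ofPred_eq, mem_singleton, forall_eq, mem_insert, forall_eq_or_imp]
        tauto
      have h1 : ∀ z : ℂ, z ≠ 0 → ∀ i, Function.update ζ s z i ≠ 0 := fun z hz i => by
        by_cases h : i = s
        · rwa [h, Function.update_self]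
        · rw [Function.update_of_ne h]
          exact hζ i
      refine hS ι κ _ _ A T _ s Ξ k hΞ (fun u hu b hb => slY_add hL hT hSK hu hb)
        (fun u hu r => ⟨CY_congr hL hT ?_ hu.1, fun i hi => ?_⟩) (fun z hz => ?_)
        (fun z hz hz' => ?_)
      · ext (_ | i)
        · simp [sl]
        · by_cases h : i ∈ K
          · simp [sl, h]
          · have : i ≠ s := fun h1 => h (h1 ▸ hs1)
            simp [sl, h, this]
      · have : i ≠ s := fun h1 => hs2 (h1 ▸ hi)
        simp [hu.2 i hi, this]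
      · rw [e1, e2, e3]
        refine ih _ (insert_subset hs1 hSK) ?_ _ (h1 z hz) _ (by omega)
        rw [sdiff_insert, card_erase_of_mem hs, h0]
        rfl
      · rw [e1, e2, e3]
        exact off _ (insert_subset hs1 hSK) _ (h1 z hz) s (mem_insert_self _ _)
          (by rwa [Function.update_self]) k
  intro k hk
  have h := main #K ∅ (empty_subset _) (by rw [sdiff_empty]) 1 (fun _ => one_ne_zero) k hk
  have e1 : slB ∅ B = B := by
    funext b
    ext (_ | i) <;> simp [slB, sl]
  have e2 : slR ∅ 1 B (cB B c) = cB B c := by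
    funext i b
    simp [slR]
  have e3 : slY ∅ (CY B q T y) = CY B q T y := by
    ext u
    simp [slY]
  rw [e1, e2, e3] at h
  exact h

end Pool.Agent.MP_5d9b3c_ag.H10N
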