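import Pool.Agent.MP_5d9b3c_ag.H10N.Spec
import Pool.Agent.MP_5d9b3c_ag.H48N.CM

/-!
Shifted cones are Cohen-Macaulay, for arbitrary coefficients.
-/

namespace Pool.Agent.MP_5d9b3c_ag.H10N

open Finset Pool.Agent.MP_5d9b3c_ag.H22 Pool.Agent.MP_5d9b3c_ag.H48N

namespace CMRAux

variable {ι κ : Type} [Fintype ι] [Fintype κ] {B : κ → Pt ι} {ρ : ι → κ → ℂ} {A : Finset ι}
  {T : Finset κ}

omit [Fintype κ] in
/-- Faces of faces are faces. -/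
lemma faceR_face (h : FaceR B ρ A T) {g : Vq ι} (hg : ∀ b ∈ T, 0 ≤ g ⬝ᵥ Bq B b) :
    FaceR B ρ A (T.filter (fun b => g ⬝ᵥ Bq B b = 0)) := by
  intro n h1 h2
  obtain ⟨ε, hε, h3⟩ := H48.small (T.filter (fun b => g ⬝ᵥ Bq B b ≠ 0)) (fun b => g ⬝ᵥ Bq B b)
    (fun b => n ⬝ᵥ Bq B b) (fun b hb =>
      lt_of_le_of_ne (hg b (mem_filter.1 hb).1) (mem_filter.1 hb).2.symm)
  have e : ∀ b, (g + ε • n) ⬝ᵥ Bq B b = g ⬝ᵥ Bq B b + ε * (n ⬝ᵥ Bq B b) := fun b => by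
    rw [add_dotProduct, smul_dotProduct, smul_eq_mul]
  have e2 : T.filter (fun b => (g + ε • n) ⬝ᵥ Bq B b = 0) =
      (T.filter (fun b => g ⬝ᵥ Bq B b = 0)).filter (fun b => n ⬝ᵥ Bq B b = 0) := by
    ext b
    simp only [mem_filter, e]
    constructor
    · rintro ⟨h4, h5⟩
      by_cases h6 : g ⬝ᵥ Bq B b = 0
      · rw [h6, zero_add] at h5
        exact ⟨⟨h4, h6⟩, (mul_eq_zero.1 h5).resolve_left hε.ne'⟩
      · exact absurd h5 (h3 b (mem_filter.2 ⟨h4, h6⟩)).ne'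
    · rintro ⟨⟨h4, h5⟩, h6⟩
      exact ⟨h4, by rw [h5, h6, mul_zero, add_zero]⟩
  rw [← e2] at h2 ⊢
  refine h _ (fun b hb => ?_) h2
  rw [e]
  by_cases h6 : g ⬝ᵥ Bq B b = 0
  · rw [h6, zero_add]
    exact mul_nonneg hε.le (h1 b (mem_filter.2 ⟨hb, h6⟩))
  · exact (h3 b (mem_filter.2 ⟨hb, h6⟩)).le

variable [DecidableEq κ]

omit [Fintype ι] in
lemma FR_mem {Y : Set (Pt ι)} {u : Pt ι} (i : ι) (h : ∀ b ∈ T, u + B b ∈ Y) :
    FR B ρ T i (Finsupp.single u 1) ∈ Su Y :=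
  op_mem (fun h => absurd rfl h) (fun b hb => h b (by
    by_contra h1
    exact hb (if_neg h1)))

omit [Fintype ι] in
lemma comm_FR : Comm (FR B ρ T) := fun _ _ =>
  op_commute (fun _ _ => by simp) (fun _ _ _ => mul_comm _ _)

variable [LinearOrder ι]

omit [Fintype ι] in
lemma stab_CY (q y : Vq ι) : Stab (FR B ρ T) (res A (CY B q T y)) :=
  Stab.res A (fun i _ _ hu => FR_mem i (fun _ hb => CY_add hu hb))

/-- One layer of the filtration. -/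
lemma layer {G : Finset (Vq ι)} {v : κ} (hv : v ∈ T) {q y : Vq ι} {k : ℕ} {δ : ℚ} (hδ : 0 < δ)
    (h1 : ∀ g ∈ G, (∀ b ∈ T, 0 ≤ g ⬝ᵥ Bq B b) ∧ (g ⬝ᵥ Bq B v = 0 ∨ g ⬝ᵥ Bq B v = 1))
    (h2 : ∀ x ∈ Submodule.span ℚ (Bq B '' (T : Set κ)), (∀ g ∈ G, 0 ≤ g ⬝ᵥ x) → Cone (Bq B) T x)
    (h3 : ∀ g ∈ G, ∀ g' ∈ G, g ⬝ᵥ Bq B v = 1 → g' ⬝ᵥ Bq B v = 1 → ∀ u u' : Pt ι,
      g ⬝ᵥ (hat q u - y) = g' ⬝ᵥ (hat q u' - y) → ∀ b ∈ T, g ⬝ᵥ Bq B b = g' ⬝ᵥ Bq B b)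
    (h4 : ∀ g ∈ G, g ⬝ᵥ Bq B v = 1 → ∀ u : Pt ι, 0 ≤ g ⬝ᵥ (hat q u - y) →
      g ⬝ᵥ (hat q u - y) < δ → g ⬝ᵥ (hat q u - y) = 0)
    (h5 : ∀ g ∈ G, g ⬝ᵥ Bq B v = 1 → Ex (FR B ρ (T.filter (fun b => g ⬝ᵥ Bq B b = 0))) k
      (res A (CY B q (T.filter (fun b => g ⬝ᵥ Bq B b = 0)) y)) (emp _ _)) :
    Ex (FR B ρ T) k (res A (CY B q T y)) (res A (CY B q T (y + δ • Bq B v))) := by
  have e : ∀ u, hat q u - (y + δ • Bq B v) = (hat q u - y) - δ • Bq B v := fun u => by abel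
  have key : ∀ u ∈ CY B q T y, u ∉ CY B q T (y + δ • Bq B v) →
      ∃ g ∈ G, g ⬝ᵥ Bq B v = 1 ∧ g ⬝ᵥ (hat q u - y) = 0 := by
    intro u hu hu'
    have hu1 : Cone (Bq B) T (hat q u - y) := hu
    by_contra hne
    apply hu'
    change Cone _ _ _
    rw [e]
    refine h2 _ (sub_mem hu1.mem_span ((Cone.single hv).smul hδ.le).mem_span) (fun g hg => ?_)
    have h6 := hu1.dot_nonneg (h1 g hg).1
    rw [dotProduct_sub, dotProduct_smul, smul_eq_mul]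
    rcases (h1 g hg).2 with h7 | h7
    · rw [h7]
      linarith
    · rw [h7]
      by_contra h8
      exact hne ⟨g, hg, h7, h4 g hg h7 u h6 (by linarith)⟩
  by_cases hne : ∃ u0 ∈ CY B q T y, u0 ∉ CY B q T (y + δ • Bq B v)
  swap
  · refine Ex.of_subset (fun J _ u hu => ⟨hu.1, ?_⟩)
    by_contra h
    exact hne ⟨u, hu.2, h⟩
  obtain ⟨u0, h6, h7⟩ := hne
  obtain ⟨g0, hg0, h8, h9⟩ := key u0 h6 h7
  have k1 : ∀ u ∈ CY B q T y, u ∉ CY B q T (y + δ • Bq B v) →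
      u ∈ CY B q (T.filter (fun b => g0 ⬝ᵥ Bq B b = 0)) y := by
    intro u hu hu'
    obtain ⟨g, hg, h10, h11⟩ := key u hu hu'
    have h12 := h3 g hg g0 hg0 h10 h8 u u0 (h11.trans h9.symm)
    rw [← filter_congr (p := fun b => g ⬝ᵥ Bq B b = 0) (fun b hb => by rw [h12 b hb])]
    exact Cone.face hu (h1 g hg).1 h11.le
  have k2 : ∀ u ∈ CY B q (T.filter (fun b => g0 ⬝ᵥ Bq B b = 0)) y, g0 ⬝ᵥ (hat q u - y) = 0 :=
    fun u hu => Cone.dot_zero hu (fun b hb => (mem_filter.1 hb).2)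
  have k3 : ∀ u ∈ CY B q (T.filter (fun b => g0 ⬝ᵥ Bq B b = 0)) y, u ∈ CY B q T y :=
    fun u hu => Cone.mono hu (filter_subset _ _)
  refine Ex.chg (h5 g0 hg0 h8) (stab_CY q _) (stab_CY q _) (fun J u hu => ?_)
    (fun J u hu => ⟨hu.1, k3 u hu.2⟩) (fun J u hu hu' => ?_) (fun J i _ u hu => ?_)
  · by_cases h : u ∈ CY B q T (y + δ • Bq B v)
    · exact Or.inr ⟨hu.1, h⟩
    · exact Or.inl ⟨hu.1, k1 u hu.2 h⟩
  · have h10 := Cone.dot_nonneg hu'.2 (h1 g0 hg0).1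
    rw [e, dotProduct_sub, dotProduct_smul, smul_eq_mul, k2 u hu.2, h8] at h10
    linarith
  · refine op_sub_mem (fun h => absurd rfl h) (fun b hb => ⟨(subset_insert _ _).trans hu.1, ?_⟩)
    have hbT : b ∈ T := by
      by_contra h
      exact hb (by rw [if_neg h, if_neg (fun h' => h (mem_filter.1 h').1)])
    by_contra h
    have h10 := k2 _ (k1 _ (CY_add (k3 u hu.2) hbT) h)
    rw [hat_add_sub, dotProduct_add, k2 u hu.2, zero_add] at h10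
    exact hb (by rw [if_pos hbT, if_pos (mem_filter.2 ⟨hbT, h10⟩)])

end CMRAux

open CMRAux in
theorem cmr (hN : NSRStmt) (hF : FacetStmt) (hG : GenStmt) : CMRStmt := by
  intro ι κ _ _ _ _ B c A T
  induction T using Finset.strongInduction with
  | H T ih =>
  intro hT q y k hk
  rcases T.eq_empty_or_nonempty with rfl | ⟨v, hv⟩
  · refine Ex.of_subset (fun J hJ u hu => ?_)
    have h1 := card_le_card hu.1
    have h2 : rk (Bq B) ∅ = 0 := by simp [rk]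
    omega
  obtain ⟨G, h1, h2⟩ := CMAux.facet_norm hF (Bq B) T hv
  obtain ⟨y', e, h3⟩ := CMAux.generic hG G (fun g hg => (h1 g hg).1) h2 q y
  rw [← e]
  obtain ⟨m, hm, hd⟩ := disc_hat (fun g : G => g.1) q y'
  have hm' : (0 : ℚ) < m := by exact_mod_cast hm
  obtain ⟨Y, hY⟩ : ∃ Y : ℕ → Vq ι, Y = fun n : ℕ => y' - ((n : ℚ) / m) • Bq B v := ⟨_, rfl⟩
  have e0 : Y 0 = y' := by simp [hY]
  have e1 : ∀ n, Y n = Y (n + 1) + (1 / m : ℚ) • Bq B v := fun n => by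
    simp only [hY, Nat.cast_succ, add_div, add_smul]
    abel
  have e2 : ∀ n u, hat q (u - B v) - Y (n + m) = hat q u - Y n := fun n u => by
    simp only [hY, hat_sub, Nat.cast_add, add_div, div_self hm'.ne', add_smul, one_smul]
    abel
  have e3 : ∀ n u, ∀ g : Vq ι, g ⬝ᵥ Bq B v = 1 →
      g ⬝ᵥ (hat q u - Y n) = g ⬝ᵥ (hat q u - y') + n / m := fun n u g hg => by
    simp only [hY, dotProduct_sub, dotProduct_smul, smul_eq_mul, hg]
    ring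
  obtain ⟨H, k1, k2, k3, k4⟩ := hN ι κ B c A T hT v hv
  have k5 : Ex (FR B c T) k (res A {u | ∃ n, u ∈ CY B q T (Y n)}) (emp _ _) :=
    Ex.of_htpy H k1 k2 k3 (k4 _ (fun u hu b hb => hu.imp (fun n hn => CY_add hn hb))
      (fun u ⟨n, hn⟩ => ⟨n + m, by
        change Cone _ _ _
        rw [e2]
        exact hn⟩))
  have k6 : Ex (FR B c T) (k + 1) (res A {u | ∃ n, u ∈ CY B q T (Y n)})
      (res A (CY B q T (Y 0))) := by
    refine Ex.chain comm_FR (fun n => res A (CY B q T (Y n))) (fun n => ?_)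
      (fun n J u hu => ⟨hu.1, ?_⟩) (fun n J u hu => ⟨hu.1, n, hu.2⟩)
      (fun J u hu => hu.2.imp (fun n hn => ⟨hu.1, hn⟩))
    · rw [e1 n]
      refine layer hv (by positivity) (fun g hg => ⟨(h1 g hg).1, (h1 g hg).2.1⟩) h2
        (fun g hg g' hg' h4 h5 u u' h6 => h3 g hg g' hg' u u' ?_) (fun g hg h4 u h5 h6 => ?_)
        (fun g hg h4 => ?_)
      · rw [e3 _ _ _ h4, e3 _ _ _ h5] at h6
        exact add_right_cancel h6
      · obtain ⟨t, ht⟩ := hd ⟨g, hg⟩ u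
        have h7 : ((t + (n + 1 : ℕ) : ℤ) : ℚ) = m * (g ⬝ᵥ (hat q u - Y (n + 1))) := by
          rw [e3 _ _ _ h4, mul_add, mul_div_cancel₀ _ hm'.ne', ht]
          push_cast
          ring
        rw [lt_div_iff₀ hm'] at h6
        have h8 := mul_nonneg hm'.le h5
        rw [CMAux.int_zero (by rw [h7]; linarith) (by rw [h7]; linarith)] at h7
        exact (mul_eq_zero.1 h7.symm).resolve_left hm'.ne'
      · refine ih _ (filter_ssubset.2 ⟨v, hv, by rw [h4]; exact one_ne_zero⟩)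
          (faceR_face hT (h1 g hg).1) q _ _ ?_
        have := (h1 g hg).2.2
        omega
    · have h4 : Cone (Bq B) T (hat q u - Y n) := hu.2
      have h5 := h4.add ((Cone.single hv).smul (r := 1 / m) (by positivity))
      change Cone _ _ _
      rwa [e1 n, ← sub_sub, sub_add_cancel] at h5
  rw [e0] at k6
  exact Ex.two_of_three comm_FR k6 k5 (fun J u hu => ⟨hu.1, 0, by rw [e0]; exact hu.2⟩)
    (fun J u hu => hu.elim)

end Pool.Agent.MP_5d9b3c_ag.H10N
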