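import Pool.Agent.MP_5d9b3c_ag.H10N.Basic
import Pool.Agent.MP_5d9b3c_ag.H48N.Gamma

/-!
Generic coefficients for the twist with a large parameter.
-/

namespace Pool.Agent.MP_5d9b3c_ag.H10N

open Finset Pool.Agent.MP_5d9b3c_ag.H22 Pool.Agent.MP_5d9b3c_ag.H48N GammaAux

namespace CoefAux

variable {F F' O β : Type} [Field F] [Algebra F ℂ] [Field F'] [Algebra F' ℂ] [Fintype O]
  {x : O → ℂ} {B : β → O → ℤ} {T : Finset β} {r : β → ℂ}

lemma der_sum (D : Derivation F ℂ ℂ) (hx : ∀ o, x o ≠ 0) (r : β → ℂ) :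
    D (∑ b ∈ T, r b * ∏ o, x o ^ B b o) = ∑ b ∈ T, D (r b) * ∏ o, x o ^ B b o +
      ∑ b ∈ T, r b * (∑ o, B b o * (D (x o) / x o)) * ∏ o, x o ^ B b o := by
  rw [map_sum, ← sum_add_distrib]
  refine sum_congr rfl fun b _ => ?_
  rw [Derivation.leibniz, der_prod D x hx (B b) univ, smul_eq_mul, smul_eq_mul]
  ring

omit [Field F] [Algebra F ℂ] in
lemma contract (m : β → ℂ) (v : O → ℂ) :
    ∑ b ∈ T, r b * (∑ o, B b o * v o) * m b = ∑ o, (∑ b ∈ T, r b * B b o * m b) * v o := by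
  simp only [sum_mul, mul_sum]
  rw [sum_comm]
  exact sum_congr rfl fun o _ => sum_congr rfl fun b _ => by ring

/-- The derivative of the value at a critical point. -/
lemma der_val (D : Derivation F ℂ ℂ) (hx : ∀ o, x o ≠ 0)
    (h : ∀ o, ∑ b ∈ T, r b * (B b o : ℂ) * ∏ o', x o' ^ B b o' = 0) :
    D (∑ b ∈ T, r b * ∏ o, x o ^ B b o) = ∑ b ∈ T, D (r b) * ∏ o, x o ^ B b o := by
  rw [der_sum D hx, contract]
  simp [h]

/-- The derivative of the critical point equations, contracted with a vector. -/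
lemma der_eq (D : Derivation F ℂ ℂ) (hx : ∀ o, x o ≠ 0)
    (h : ∀ o, ∑ b ∈ T, r b * (B b o : ℂ) * ∏ o', x o' ^ B b o' = 0) (v : O → ℂ) :
    ∑ b ∈ T, D (r b) * (∑ o, B b o * v o) * ∏ o, x o ^ B b o +
      ∑ b ∈ T, r b * (∑ o, B b o * (D (x o) / x o)) * (∑ o, B b o * v o) * ∏ o, x o ^ B b o = 0 := by
  rw [contract, contract, ← sum_add_distrib]
  refine sum_eq_zero fun o _ => ?_
  have h1 := der_sum (T := T) (B := B) D hx fun b => r b * (B b o : ℂ)
  rw [h o, map_zero] at h1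
  rw [← add_mul]
  refine mul_eq_zero_of_left (Eq.trans ?_ h1.symm) _
  congr 1
  · refine sum_congr rfl fun b _ => ?_
    rw [Derivation.leibniz, Derivation.map_intCast, smul_zero, zero_add, smul_eq_mul]
    ring
  · exact sum_congr rfl fun b _ => by ring

/-- Symmetry of the second derivative. -/
lemma symm (D : Derivation F ℂ ℂ) (δ : Derivation F' ℂ ℂ) (hx : ∀ o, x o ≠ 0)
    (h : ∀ o, ∑ b ∈ T, r b * (B b o : ℂ) * ∏ o', x o' ^ B b o' = 0) (hδ : ∀ b, δ (r b) = 0) :
    ∑ b ∈ T, D (r b) * (∑ o, B b o * (δ (x o) / x o)) * ∏ o, x o ^ B b o = 0 := by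
  have h1 := der_eq D hx h fun o => δ (x o) / x o
  have h2 := der_eq δ hx h fun o => D (x o) / x o
  simp only [hδ, zero_mul, sum_const_zero, zero_add] at h2
  rw [← h1, left_eq_add, ← h2]
  exact sum_congr rfl fun b _ => by ring

lemma exists_der_one {K : Subfield ℂ} {z : ℂ} (hz : ¬ IsAlgebraic K z) :
    ∃ δ : Derivation K ℂ ℂ, δ z = 1 := by
  classical
  obtain ⟨t, h1, h2⟩ := exists_isTranscendenceBasis_superset (R := K) (s := {z})
    (algebraicIndependent_unique_type_iff.2 hz)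
  obtain ⟨δ, hδ⟩ := exists_der h2 ⟨z, h1 rfl⟩
  exact ⟨δ, by simpa using hδ ⟨z, h1 rfl⟩⟩

omit [Field F] [Algebra F ℂ] in
lemma prod_single [DecidableEq O] (o : O) (n : ℤ) :
    ∏ o', x o' ^ (Pi.single o n : O → ℤ) o' = x o ^ n := by
  rw [prod_eq_single o (fun o' _ h => by simp [h]) (by simp), Pi.single_eq_same]

omit [Field F] [Algebra F ℂ] in
lemma sum_single [DecidableEq O] (o : O) (n : ℤ) (v : O → ℂ) :
    ∑ o', (((Pi.single o n : O → ℤ) o' : ℤ) : ℂ) * v o' = n * v o := by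
  rw [sum_eq_single o (fun o' _ h => by simp [h]) (by simp), Pi.single_eq_same]

end CoefAux

open CoefAux in
theorem coef : CoefStmt := by
  intro ι κ _ _ _ _ a c K ξ
  obtain ⟨F, g, hF, hg⟩ := exists_gen ι (κ ⊕ ι) (Sum.elim c ξ)
  let γ : ι ⊕ K → ℂ := Sum.elim g fun k => g k.1 * ξ k.1 ^ 2
  let F' := Subfield.closure (Set.range (Sum.elim (Sum.elim c γ) ξ))
  have hK : Cardinal.mk F' ≤ Cardinal.aleph0 :=
    (Subfield.cardinalMk_closure_le_max _).trans
      (max_le (Set.finite_range _).lt_aleph0.le le_rfl)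
  have : Countable F' := Cardinal.mk_le_aleph0_iff.1 hK
  refine ⟨γ, {z | IsAlgebraic F' z}, Algebraic.countable F' ℂ, fun _ => rfl,
    fun T x hx h => ⟨fun k hk hT h0 => ?_, fun hL k hk => ?_⟩⟩
  all_goals
    obtain ⟨D, hD⟩ := hg k
    have d1 : ∀ j, D (c j) = 0 := fun j => D.map_algebraMap ⟨c j, hF (Sum.inl j)⟩
    have d2 : ∀ i, D (g i * ξ i ^ 2) = if i = k then ξ i ^ 2 else 0 := fun i => by
      have : D (ξ i) = 0 := D.map_algebraMap ⟨ξ i, hF (Sum.inr i)⟩
      simp [Derivation.leibniz, Derivation.leibniz_pow, this, hD]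
  · have h1 := der_val D hx h
    rw [h0, map_zero, sum_eq_single_of_mem _ hT] at h1
    · refine hx (some k) ?_
      have h2 : (0 : ℂ) = D (g k) * ∏ o, x o ^ (Pi.single (some k) 1 : Pt ι) o := h1
      rwa [prod_single, hD, if_pos rfl, one_mul, zpow_one, eq_comm] at h2
    · rintro (j | i | i) _ hb
      · exact mul_eq_zero_of_left (d1 j) _
      · exact mul_eq_zero_of_left ((hD i).trans (if_neg fun e => hb (by rw [e]))) _
      · exact mul_eq_zero_of_left ((d2 i).trans (if_neg fun e : i.1 = k => hk (e ▸ i.2))) _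
  · by_contra hz
    obtain ⟨δ, hδ⟩ := exists_der_one hz
    have h1 := symm D δ hx h fun b =>
      δ.map_algebraMap ⟨_, Subfield.subset_closure ⟨Sum.inl b, rfl⟩⟩
    have h2 : δ (ξ k) = 0 := δ.map_algebraMap ⟨_, Subfield.subset_closure ⟨Sum.inr k, rfl⟩⟩
    rw [sum_eq_add_of_mem (Sum.inr (Sum.inl k)) (Sum.inr (Sum.inr ⟨k, hk⟩))
      (hL (by simp [LL, ss, hk])) (hL (by simp [LL, ss])) (by simp)] at h1
    · have h3 : D (g k) * (∑ o, ((Pi.single (some k) 1 : Pt ι) o : ℂ) * (δ (x o) / x o)) *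
          ∏ o, x o ^ (Pi.single (some k) 1 : Pt ι) o +
          D (g k * ξ k ^ 2) * (∑ o, ((Pi.single (some k) (-1) : Pt ι) o : ℂ) * (δ (x o) / x o)) *
          ∏ o, x o ^ (Pi.single (some k) (-1) : Pt ι) o = 0 := h1
      rw [prod_single, prod_single, sum_single, sum_single, hD, d2, if_pos rfl, if_pos rfl, hδ] at h3
      have h4 := hx (some k)
      have h5 : x (some k) ^ 2 = ξ k ^ 2 := by
        push_cast at h3
        field_simp at h3
        linear_combination h3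
      have h6 := congrArg δ h5
      simp [Derivation.leibniz_pow, h2, hδ, h4] at h6
    · rintro (j | i | i) _ hb
      · exact mul_eq_zero_of_left (mul_eq_zero_of_left (d1 j) _) _
      · exact mul_eq_zero_of_left (mul_eq_zero_of_left
          ((hD i).trans (if_neg fun e => hb.1 (by rw [e]))) _) _
      · exact mul_eq_zero_of_left (mul_eq_zero_of_left
          ((d2 i).trans (if_neg fun e => hb.2 (by subst e; rfl))) _) _

end Pool.Agent.MP_5d9b3c_ag.H10N
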