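import Pool.Agent.MP_5d9b3c_ag.H10N.Basic
import Pool.Agent.MP_5d9b3c_ag.H48N.Dside
import Pool.Agent.MP_5d9b3c_ag.H48N.Fan
import Pool.Agent.MP_5d9b3c_ag.H48N.Kill
import Pool.Agent.MP_5d9b3c_ag.H48N.SV

/-!
Assembly of the differential side without a condition at infinity.
-/

namespace Pool.Agent.MP_5d9b3c_ag.H10N

open Finset Pool.Agent.MP_5d9b3c_ag.H22 Pool.Agent.MP_5d9b3c_ag.H48N

namespace Dside2Aux

open DsideAux

lemma small {α : Type} [Finite α] (f : α → ℚ) (hf : ∀ j, 0 < f j) :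
    ∃ η : ℚ, 0 < η ∧ ∀ j, η < f j := by
  rcases isEmpty_or_nonempty α with h | h
  · exact ⟨1, one_pos, fun j => (h.false j).elim⟩
  · obtain ⟨j, hj⟩ := Finite.exists_min f
    exact ⟨f j / 2, by linarith [hf j], fun i => by linarith [hj i, hf j]⟩

variable {ι κ : Type} [Fintype ι] [LinearOrder ι] [Fintype κ] [DecidableEq κ]
  {a : κ → ι →₀ ℕ} {K : Finset ι}

omit [DecidableEq κ] in
/-- Finitely many feasible points contain a minimiser for every direction. -/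
lemma cover (hl : LPStmt) {w0 : ι → ℚ} (h0 : Feas (bx (BB a K)) (lev (BB a K)) w0) :
    ∃ W0 : Finset (ι → ℚ), (∀ ψ ∈ W0, Feas (bx (BB a K)) (lev (BB a K)) ψ) ∧
      ∀ p : ι → ℚ, (∀ k ∉ K, 0 ≤ p k) → ∃ ψ ∈ W0, ∀ w,
        Feas (bx (BB a K)) (lev (BB a K)) w → ψ ⬝ᵥ p ≤ w ⬝ᵥ p := by
  classical
  have hr : ∀ S : Finset (κ ⊕ ι ⊕ K), ∃ ψ : ι → ℚ, Feas (bx (BB a K)) (lev (BB a K)) ψ ∧
      ∀ x, Feas (bx (BB a K)) (lev (BB a K)) x → Tt (bx (BB a K)) (lev (BB a K)) x = S →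
        Tt (bx (BB a K)) (lev (BB a K)) ψ = S := fun S => by
    by_cases h : ∃ x, Feas (bx (BB a K)) (lev (BB a K)) x ∧
        Tt (bx (BB a K)) (lev (BB a K)) x = S
    · obtain ⟨x, h1, h2⟩ := h
      exact ⟨x, h1, fun _ _ _ => h2⟩
    · exact ⟨w0, h0, fun x h1 h2 => absurd ⟨x, h1, h2⟩ h⟩
  choose rep hrep using hr
  refine ⟨univ.image rep, fun ψ hψ => ?_, fun p hp => ?_⟩
  · obtain ⟨S, _, rfl⟩ := mem_image.1 hψ
    exact (hrep S).1
  · obtain ⟨x, h1, _, h3⟩ := hl ι (κ ⊕ ι ⊕ K) (bx (BB a K)) (lev (BB a K)) ⟨w0, h0⟩ p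
      (FanAux.cone_univ a K p hp)
    refine ⟨rep _, mem_image_of_mem _ (mem_univ (Tt (bx (BB a K)) (lev (BB a K)) x)),
      fun w hw => ?_⟩
    rw [← (hrep _).2 x h1 rfl] at h3
    exact h3.le_of_feas hw

/-- The relation for arbitrary coefficients of the twist. -/
lemma rel {c : κ → ℂ} {b : Polynomial ℂ} {l : ℝ} (hb : BEq a c ((Polynomial.X + 1) * b))
    (hl : b.eval (-(l : ℂ)) ≠ 0) {w : ι → ℚ} (hw : InP a l w) {τ : κ → ℚ}
    (hτ : ∀ j ∈ Tw a w, 0 < τ j) (mK : ∀ k, k ∈ K ↔ w k = 0) (γ : ι ⊕ K → ℂ)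
    {W : Finset (ι → ℚ)} {wc : (ι → ℚ) → ι → ℚ}
    (hcf : ∀ ψ ∈ W, Feas (bx (BB a K)) (lev (BB a K)) (wc ψ)) {lq : ℚ} (hll : (lq : ℝ) = l)
    {q y : Vq ι} (hq : q = qq lq (fun _ => 1))
    (hdot : ∀ (w' : ι → ℚ) (u : Pt ι), H48N.hw w' ⬝ᵥ (hat q u - y) =
      H48N.hw w' ⬝ᵥ (fun o => (u o : ℚ)) + ∑ j ∈ Tw a w, τ j * (w' ⬝ᵥ Aq a j - 1)) :
    Finsupp.single 0 1 ∈ N0 (BB a K) (Sum.elim c γ) q (Ypos W wc q y) := by
  have hterm : ∀ ψ ∈ W, ∀ j ∈ Tw a w, 0 ≤ τ j * (wc ψ ⬝ᵥ Aq a j - 1) := fun ψ hψ j hj =>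
    mul_nonneg (hτ j hj).le (sub_nonneg.2 ((inG_iff.1 (feas_lev (hcf ψ hψ)).1).1 j))
  have hst := fun u hu => Ypos_add (B := BB a K) (q := q) (y := y) (u := u) hcf hu
  have h1 := sv ι κ a c b hb K γ lq (N0 (BB a K) (Sum.elim c γ) q (Ypos W wc q y))
    (hq ▸ Dx_mem_N0 _) (hq ▸ fun e he => D0_mem_N0 (hq ▸ hst) he) (fun u hu hu' =>
      Su_le_N0 (single_mem_Su (fun ψ hψ => by
        obtain ⟨h2, h3⟩ := feas_lev (hcf ψ hψ)
        have h4 : 0 ≤ wc ψ ⬝ᵥ fun k => (u (some k) : ℚ) := sum_nonneg (fun k _ => by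
          by_cases hk : k ∈ K
          · simp [h3 k hk]
          · exact mul_nonneg ((inG_iff.1 h2).2 k) (Int.cast_nonneg (hu' k hk)))
        rw [hdot, hw_dot, hu]
        have := sum_nonneg (hterm ψ hψ)
        push_cast
        linarith) 1))
  rw [← hq] at h1
  obtain ⟨π, ⟨r, rfl⟩, h2⟩ := kill ι _ (BB a K) (Sum.elim c γ) W wc q y
    (Submonoid.powers Polynomial.X) {u | ∀ ψ ∈ W, 0 ≤ H48N.hw (wc ψ) ⬝ᵥ fun o => (u o : ℚ)}
    hcf (fun u hu b ψ hψ => by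
      have e : (fun o => ((u + BB a K b) o : ℚ)) = (fun o => (u o : ℚ)) + Bq (BB a K) b := by
        ext o
        simp [Bq]
      rw [e, dotProduct_add, hw_Bq]
      linarith [hu ψ hψ, hcf ψ hψ b]) (fun u hu ψ hψ _ h3 => by
      rw [hdot] at h3
      have h4 := sum_nonneg (hterm ψ hψ)
      have h5 := hu ψ hψ
      have h6 := (sum_eq_zero_iff_of_nonneg (hterm ψ hψ)).1 (by linarith)
      obtain ⟨h7, h8⟩ := feas_lev (hcf ψ hψ)
      have h9 := hw.2 _ h7 (by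
        rintro (j | k) hj
        · rw [inl_mem_tg] at hj ⊢
          have := (mul_eq_zero.1 (h6 j hj)).resolve_left (hτ j hj).ne'
          exact mem_Tw.2 (sub_eq_zero.1 this)
        · rw [inr_mem_tg] at hj ⊢
          exact h8 k ((mK k).2 hj))
      rw [← hll, Rat.cast_inj] at h9
      have e : H48N.hw (wc ψ) ⬝ᵥ hat q u = 0 := by
        have := dot_hat_sub (q := q) (y := 0) (H48N.hw (wc ψ)) u
        rw [sub_zero, sub_zero] at this
        rw [this, hw_dot _ q, hq]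
        simp only [qq_some, qq_none, dotProduct, mul_one, h9] at h5 h4 h3 ⊢
        linarith
      rw [e]
      exact ⟨1, by simp⟩) 0 (fun ψ _ => by simp [dotProduct])
  have hco : IsCoprime (Polynomial.X ^ r)
      (b.comp (Polynomial.X - Polynomial.C (lq : ℂ))) := by
    refine IsCoprime.pow_left ((Polynomial.irreducible_X.coprime_iff_not_dvd).2 ?_)
    rw [Polynomial.X_dvd_iff, Polynomial.coeff_zero_eq_eval_zero, Polynomial.eval_comp]
    simpa [← hll] using hl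
  obtain ⟨s, t, hst'⟩ := hco
  have h4 := add_mem (aeval_mem_N0 hst s h2) (aeval_mem_N0 hst t h1)
  have e : D0 (BB a K) (Sum.elim c γ) q - (lq : ℂ) • 1 = Polynomial.aeval
      (D0 (BB a K) (Sum.elim c γ) q) (Polynomial.X - Polynomial.C (lq : ℂ)) := by
    simp [Algebra.algebraMap_eq_smul_one]
  rw [e, ← Polynomial.aeval_comp, ← Module.End.mul_apply, ← Module.End.mul_apply, ← map_mul,
    ← map_mul, ← LinearMap.add_apply, ← map_add, hst'] at h4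
  simpa using h4

omit [DecidableEq κ] in
/-- The lineality part vanishes at the base point. -/
lemma lin_zero (c : κ → ℂ) {γ : ι ⊕ K → ℂ} {x : ι → ℂ} (hx : ∀ i, x i ≠ 0)
    (hγ : ∀ k : K, γ (Sum.inr k) = γ (Sum.inl k.1) * x k.1 ^ 2) (i : ι) :
    ∑ b ∈ LL κ K, Sum.elim c γ b * (BB a K b (some i) : ℂ) *
      ∏ o, (fun o : Option ι => o.elim 1 x) o ^ BB a K b o = 0 := by
  have e : ∀ (k : ι) (r : ℤ), ∏ o, (fun o : Option ι => o.elim 1 x) o ^
      (Pi.single (some k) r : Pt ι) o = x k ^ r := fun k r => by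
    rw [prod_eq_single (some k) (fun o _ ho => by simp [ho]) (by simp)]
    simp
  rw [LL, sum_filter, Fintype.sum_sum_type, Fintype.sum_sum_type]
  simp only [ss, Sum.elim_inl, Sum.elim_inr, H48N.BB, e, zero_ne_one, if_false, sum_const_zero,
    zero_add, if_true]
  have e1 : ∑ k : ι, (if (if k ∈ K then 1 else 2 : ℕ) = 1 then
      γ (Sum.inl k) * (((Pi.single (some k) 1 : Pt ι) (some i) : ℤ) : ℂ) * x k ^ (1 : ℤ) else 0) =
      ∑ k : K, γ (Sum.inl k.1) * (((Pi.single (some k.1) 1 : Pt ι) (some i) : ℤ) : ℂ) *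
        x k.1 ^ (1 : ℤ) := by
    rw [sum_coe_sort K (fun k => γ (Sum.inl k) *
      (((Pi.single (some k) 1 : Pt ι) (some i) : ℤ) : ℂ) * x k ^ (1 : ℤ))]
    refine Eq.trans (sum_congr rfl (fun k _ => ?_)) (Fintype.sum_ite_mem K _)
    by_cases hk : k ∈ K <;> simp [hk]
  rw [e1, ← sum_add_distrib]
  refine sum_eq_zero (fun k _ => ?_)
  have := hx k.1
  by_cases hi : i = k.1
  · rw [hγ, hi]
    simp only [Pi.single_eq_same]
    push_cast
    field_simp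
    ring
  · simp [hi]

end Dside2Aux

open DsideAux Dside2Aux in
theorem dside2 (hlp : LPStmt) (hF : FanStmt2) (hT : TauStmt) (hL : LeadStmt) (hK : LinkStmt2)
    (hP : ProjStmt2) : DStmt2 := by
  intro ι κ _ _ _ _ a c b l hnd hb hl w hw τ μ hc
  rintro ⟨x, hx1, hx2⟩
  obtain ⟨K, hKe⟩ : ∃ K : Finset ι, K = univ.filter (fun k => w k = 0) := ⟨_, rfl⟩
  obtain ⟨hw1, hw2⟩ := inG_iff.1 hw.1
  have mK : ∀ k, k ∈ K ↔ w k = 0 := fun k => by simp [hKe]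
  have mF : ∀ k, k ∉ K ↔ k ∈ Fw w := fun k => by
    rw [mK, mem_Fw]
    exact ⟨fun h => lt_of_le_of_ne (hw2 k) (Ne.symm h), fun h => h.ne'⟩
  obtain ⟨γ, Ξ, η0, hη0, hγ, hfan0⟩ := hF ι κ a c K x hnd
  obtain ⟨lq, hlq⟩ : ∃ lq : ℚ, lq = ∑ k, w k := ⟨_, rfl⟩
  have hll : (lq : ℝ) = l := by rw [hlq]; exact hw.sum
  obtain ⟨q, hq⟩ : ∃ q : Vq ι, q = qq lq (fun _ => 1) := ⟨_, rfl⟩
  obtain ⟨T, hTe⟩ : ∃ T : Finset (κ ⊕ ι ⊕ K), T = (Tw a w).map Function.Embedding.inl :=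
    ⟨_, rfl⟩
  have sT : ∀ {M : Type} [AddCommMonoid M] (f : κ ⊕ ι ⊕ K → M),
      ∑ b ∈ T, f b = ∑ j ∈ Tw a w, f (Sum.inl j) := fun f => by rw [hTe, sum_map]; rfl
  have aT : ∀ {P : κ ⊕ ι ⊕ K → Prop}, (∀ j ∈ Tw a w, P (Sum.inl j)) → ∀ b ∈ T, P b := by
    intro P h b hb
    rw [hTe] at hb
    obtain ⟨j, hj, rfl⟩ := mem_map.1 hb
    exact h j hj
  obtain ⟨τ', hτ⟩ : ∃ τ' : κ ⊕ ι ⊕ K → ℚ, τ' = Sum.elim τ 0 := ⟨_, rfl⟩
  obtain ⟨y, hy⟩ : ∃ y : Vq ι, y = q - ∑ b ∈ T, τ' b • Bq (BB a K) b := ⟨_, rfl⟩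
  have hwl : Feas (bx (BB a K)) (lev (BB a K)) w := by
    rintro (j | k | k)
    · simpa [lev_inl, bx_inl] using hw1 j
    · simpa [lev_inr, bx_pos] using hw2 k
    · simp [lev_inr, bx_neg, (mK k).1 k.2]
  have hdot : ∀ (w' : ι → ℚ) (u : Pt ι), H48N.hw w' ⬝ᵥ (hat q u - y) =
      H48N.hw w' ⬝ᵥ (fun o => (u o : ℚ)) + ∑ j ∈ Tw a w, τ j * (w' ⬝ᵥ Aq a j - 1) := by
    intro w' u
    rw [dot_hat_sub, hy, sub_sub_cancel, dotProduct_sum, sT]
    simp only [dotProduct_smul, hw_Bq, bx_inl, lev_inl, hτ, Sum.elim_inl, smul_eq_mul]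
  have hpp : ∀ k, pp q y 0 k = ∑ j ∈ Tw a w, τ j * a j k := fun k => by
    rw [pp, hat_zero, hy, Pi.sub_apply, sub_sub_cancel, Finset.sum_apply, sT]
    simp [hτ, bx_inl, Aq]
  have hRG : ∀ k, 0 ≤ pp q y 0 k := fun k => by
    rw [hpp]
    exact sum_nonneg (fun j hj => mul_nonneg (hc.pos j hj).le (Nat.cast_nonneg _))
  obtain ⟨W0, hW0, hcov⟩ := cover hlp hwl
  have hrel := hT ι _ (BB a K) (Sum.elim c γ) (ss κ K) K W0 q y (FanAux.nonneg a K) hW0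
    (fun k hk => by
      have h4 := hc.one k ((mF k).1 hk)
      rw [← hpp, pp, hat_zero, hq] at h4
      simp only [qq_some] at h4
      linarith) (fun k _ => hRG k) (fun z => by
      have e : (fun b => z ^ ss κ K b * Sum.elim c γ b) =
          Sum.elim c (fun t => z ^ ss κ K (Sum.inr t) * γ t) := by
        ext (j | t)
        · simp [ss]
        · rfl
      rw [e]
      exact rel hb hl hw hc.pos mK _ (wc := id) hW0 hll hq hdot)
  obtain ⟨η1, hη1, hlead⟩ := hL ι _ (BB a K) (Sum.elim c γ) (ss κ K) K W0 q y hcov hrel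
  obtain ⟨η, hη, hs⟩ := small (α := Option (Option ι)) (fun o => o.elim η0 (fun o => o.elim η1
    (fun k => if k ∈ K then 1 else w k))) (by
      rintro (_ | _ | k)
      · exact hη0
      · exact hη1
      · by_cases hk : k ∈ K
        · simp [hk]
        · simpa [hk] using mem_Fw.1 ((mF k).1 hk))
  have hsw : ∀ k ∉ K, η < w k := fun k hk => by simpa [hk] using hs (some (some k))
  have hwf : Feas (bx (BB a K)) (vv κ K η) w := by
    rintro (j | k | k)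
    · simpa [vv, bx_inl] using hw1 j
    · by_cases hk : k ∈ K
      · simpa [vv, bx_pos, hk] using hw2 k
      · simpa [vv, bx_pos, hk] using (hsw k hk).le
    · simp [vv, bx_neg, (mK k).1 k.2]
  have hTt : T = Tt (bx (BB a K)) (vv κ K η) w \ LL κ K := by
    ext (j | k | k)
    · simp [hTe, mem_Tt, mem_Tw, vv, bx_inl, LL, ss]
    · refine iff_of_false (by simp [hTe]) ?_
      by_cases hk : k ∈ K
      · simp [LL, ss, hk]
      · simp [mem_Tt, vv, bx_pos, hk, (hsw k hk).ne']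
    · exact iff_of_false (by simp [hTe]) (by simp [LL, ss])
  obtain ⟨W, wc, hfan⟩ := hfan0 η hη (hs none).le ⟨w, hwf⟩
  have hcone : Cone (Bq (BB a K)) T (hat q 0 - y) := by
    rw [hat_zero, hy, sub_sub_cancel]
    exact Cone.of_sum (aT (fun j hj => by rw [hτ]; exact (hc.pos j hj).le))
  have h0 : (0 : Pt ι) ∈ GG K W wc q y := by
    obtain ⟨ψ, h4, h5⟩ := hfan.exists_min (p := pp q y 0) (fun k _ => hRG k)
    refine hfan.mem_GG h4 (hcone.mono (aT (fun j hj => ?_)))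
    have e : ∀ v : ι → ℚ, v ⬝ᵥ pp q y 0 = ∑ j ∈ Tw a w, τ j * (v ⬝ᵥ Aq a j) := fun v => by
      simp only [dotProduct, hpp, mul_sum, Aq]
      rw [sum_comm]
      exact sum_congr rfl (fun _ _ => sum_congr rfl (fun _ _ => by ring))
    have h6 := h5 w hwf
    have h7 : ∀ j ∈ Tw a w, 0 ≤ τ j * (ψ ⬝ᵥ Aq a j) - τ j * (w ⬝ᵥ Aq a j) := fun j hj => by
      have := hfan.feas ψ h4 (Sum.inl j)
      simp only [vv, bx_inl, Sum.elim_inl] at this
      rw [mem_Tw.1 hj, ← mul_sub]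
      exact mul_nonneg (hc.pos j hj).le (sub_nonneg.2 this)
    rw [e, e, ← sub_nonpos, ← sum_sub_distrib] at h6
    have h8 := (sum_eq_zero_iff_of_nonneg h7).1 (le_antisymm h6 (sum_nonneg h7)) j hj
    rw [mem_Tw.1 hj, ← mul_sub, mul_eq_zero, or_iff_right (hc.pos j hj).ne', sub_eq_zero] at h8
    simpa [mem_Tt, vv, bx_inl] using h8
  obtain ⟨e, d1, i1, k1⟩ := hlead η hη (hs (some none)).le _ _ Ξ W wc hfan (by
      rintro (j | k | k)
      · simp [vv, lev_inl]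
      · by_cases hk : k ∈ K
        · simp [vv, lev_inr, hk]
        · simp [vv, lev_inr, hk, hη.le]
      · simp [vv, lev_inr]) (by
      rintro (j | k | k)
      · simp [vv, ss, lev_inl]
      · by_cases hk : k ∈ K
        · simp [vv, ss, lev_inr, hk]
        · simp only [vv, ss, lev_inr, hk, Sum.elim_inl, Sum.elim_inr, if_false]
          push_cast
          ring
      · simp [vv, ss, lev_inr]) h0 ⟨w, hwf, by
      rw [hdot, sum_eq_zero (fun j hj => by rw [mem_Tw.1 hj, sub_self, mul_zero])]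
      simp [dotProduct]⟩
  obtain ⟨S, hSe⟩ : ∃ S : Finset ι, S = univ.filter (fun k => 0 < μ k) := ⟨_, rfl⟩
  have mS : ∀ k, k ∈ S ↔ 0 < μ k := fun k => by simp [hSe]
  have hSF : ∀ k ∈ S, k ∈ Fw w := fun k hk => by
    by_contra h
    exact ((mS k).1 hk).ne' (hc.off k h)
  have hSK : Disjoint S K := disjoint_left.2 (fun k hk => (mF k).2 (hSF k hk))
  have hS1 : ∀ k ∈ S, ∑ j ∈ Tw a w, τ j * a j k = 1 := fun k hk =>
    (hc.comp k (hSF k hk)).1 ((mS k).1 hk)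
  obtain ⟨e', d2, _, i2⟩ := hK ι _ _ _ K _ _ Ξ W wc hfan q y S hSK e d1 i1 (d1.kd.in_zero (by
    rw [k1]
    refine single_mem_Su ?_ 1
    refine ⟨h0, fun k hk => ?_⟩
    rw [hpp, hS1 k (mem_sdiff.1 hk).1]
    exact one_pos))
  obtain ⟨i, h4, h5⟩ := hP ι _ _ _ K _ _ Ξ W wc hfan w T τ' μ
    (∑ j ∈ Tw a w, τ j * (1 - μ ⬝ᵥ Aq a j)) S q y hwf hTt (aT (fun j _ => rfl))
    (aT (fun j hj => by rw [hτ]; exact (hc.pos j hj).le)) hy hSK hc.nonneg
    (fun k hk => le_antisymm (not_lt.1 (fun h => hk ((mS k).2 h))) (hc.nonneg k))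
    (fun k hk => by
      rw [sT, ← hS1 k hk]
      simp [hτ, bx_inl, Aq]) (aT (fun j hj => by rw [bx_inl]; exact hc.le j hj))
    (by rw [sT]; simp [hτ, bx_inl]) _ (d1.sub d2.kd) i2
    (by rw [kd_sub_kd (comm_Ftr2 hfan.feas), k1]) (fun o => o.elim 1 x) (by
      rintro (_ | k)
      · exact one_ne_zero
      · exact hx1 k) (lin_zero c hx1 hγ)
  refine h5 ?_
  rw [sT, ← hx2 i (mem_LinSet.2 h4)]
  simp [H48N.BB, Aof, Fintype.prod_option]

end Pool.Agent.MP_5d9b3c_ag.H10N
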