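import Pool.Agent.MP_5d9b3c_ag.H10N.Basic
import Pool.Agent.MP_5d9b3c_ag.H48N.Fan

/-!
The fan with a lineality space exists.
-/

namespace Pool.Agent.MP_5d9b3c_ag.H10N

open Finset Pool.Agent.MP_5d9b3c_ag.H22 Pool.Agent.MP_5d9b3c_ag.H48N FanAux

namespace Fan2Aux

variable {ι κ : Type} [Fintype ι] [LinearOrder ι] [Fintype κ] [DecidableEq κ]
  (a : κ → ι →₀ ℕ) (K : Finset ι)

omit [DecidableEq κ] in
lemma inl_not (j : κ) : Sum.inl j ∉ LL κ K := by simp [LL, ss]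

omit [DecidableEq κ] in
lemma pos_mem (k : ι) : Sum.inr (Sum.inl k) ∈ LL κ K ↔ k ∈ K := by
  by_cases h : k ∈ K <;> simp [LL, ss, h]

omit [DecidableEq κ] in
lemma neg_mem (k : K) : Sum.inr (Sum.inr k) ∈ LL κ K := by simp [LL, ss]

omit [DecidableEq κ] in
lemma lin0 : Lin0 (BB a K) K (LL κ K) := by
  have key : ∀ k ∈ K, ∀ r : ℤ, sl K (Pi.single (some k) r : Pt ι) = 0 := by
    intro k hk r
    ext (_ | i)
    · simp
    · by_cases hi : i ∈ K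
      · exact sl_mem hi
      · have h : i ≠ k := fun h => hi (h ▸ hk)
        rw [sl_not hi]
        simp [h]
  refine ⟨?_, fun k hk => ⟨_, (pos_mem K k).2 hk, rfl⟩, fun k hk => ⟨_, neg_mem K ⟨k, hk⟩, rfl⟩⟩
  rintro (j | k | k) hb
  · exact absurd hb (inl_not K j)
  · exact key k ((pos_mem K k).1 hb) 1
  · exact key k.1 k.2 (-1)

omit [DecidableEq κ] in
lemma vv_L (η : ℚ) (b : κ ⊕ ι ⊕ K) (hb : b ∈ LL κ K) : vv κ K η b = 0 := by
  rcases b with j | k | k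
  · exact absurd hb (inl_not K j)
  · simp [vv, (pos_mem K k).1 hb]
  · rfl

omit [DecidableEq κ] in
lemma vv_off (η : ℚ) (b : κ ⊕ ι ⊕ K) (hb : b ∉ LL κ K) :
    vv κ K η b = η + (1 - η) * lev (BB a K) b := by
  rcases b with j | k | k
  · simp [vv, lev_inl]
  · have h : k ∉ K := fun h => hb ((pos_mem K k).2 h)
    simp [vv, lev_inr, h]
  · exact absurd (neg_mem K k) hb

omit [Fintype ι] [Fintype κ] [DecidableEq κ] in
lemma vv_near {η η0 : ℚ} (h0 : 0 < η) (h1 : η ≤ η0) (b : κ ⊕ ι ⊕ K) :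
    lev (BB a K) b - η0 ≤ vv κ K η b ∧ vv κ K η b ≤ lev (BB a K) b + η0 := by
  rcases b with j | k | k
  · rw [lev_inl]
    change _ ≤ (1 : ℚ) ∧ (1 : ℚ) ≤ _
    constructor <;> linarith
  · rw [lev_inr]
    change _ ≤ (if k ∈ K then 0 else η) ∧ (if k ∈ K then 0 else η) ≤ _
    split_ifs <;> constructor <;> linarith
  · rw [lev_inr]
    change _ ≤ (0 : ℚ) ∧ (0 : ℚ) ≤ _
    constructor <;> linarith

omit [Fintype κ] [DecidableEq κ] in
lemma inG_of {η : ℚ} (h0 : 0 < η) {ψ : ι → ℚ} (hψ : Feas (bx (BB a K)) (vv κ K η) ψ) :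
    InG a ψ := by
  refine inG_iff.2 ⟨fun j => ?_, fun k => ?_⟩
  · have := hψ (Sum.inl j)
    rwa [bx_inl] at this
  · have := hψ (Sum.inr (Sum.inl k))
    rw [bx_pos, dotProduct_single, mul_one] at this
    refine le_trans ?_ this
    change _ ≤ (if k ∈ K then 0 else η)
    split_ifs
    · exact le_rfl
    · exact h0.le

omit [LinearOrder ι] [Fintype κ] [DecidableEq κ] in
/-- The equation in the direction of the level. -/
lemma all_eq {β : Type} (B : β → Pt ι) (T : Finset β) (c M : β → ℂ)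
    (h : ∀ i, ∑ b ∈ T, c b * (B b (some i) : ℂ) * M b = 0) (w : ι → ℚ)
    (hw : ∀ b ∈ T, w ⬝ᵥ bx B b = lev B b) (o : Option ι) :
    ∑ b ∈ T, c b * (B b o : ℂ) * M b = 0 := by
  rcases o with _ | i
  · rw [← pair B T c M h w (lev B) hw]
    refine sum_congr rfl (fun b _ => ?_)
    rw [lev, Rat.cast_intCast]
    ring
  · exact h i

lemma nd2 (c : κ → ℂ) (hN : NDQ a c) (γ : ι ⊕ K → ℂ)
    (hγ : ∀ (T : Finset (κ ⊕ ι ⊕ K)) (x : Option ι → ℂ), (∀ o, x o ≠ 0) →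
      (∀ o, ∑ b ∈ T, Sum.elim c γ b * (BB a K b o : ℂ) * ∏ o', x o' ^ BB a K b o' = 0) →
      ∀ k ∉ K, Sum.inr (Sum.inl k) ∈ T → ∑ b ∈ T, Sum.elim c γ b * ∏ o', x o' ^ BB a K b o' ≠ 0)
    {η : ℚ} (hη : 0 < η) {ψ w : ι → ℚ} (hψ : Feas (bx (BB a K)) (vv κ K η) ψ)
    (hs : Tt (bx (BB a K)) (vv κ K η) ψ ⊆ Tt (bx (BB a K)) (lev (BB a K)) w)
    (hne : (Tt (bx (BB a K)) (vv κ K η) ψ \ LL κ K).Nonempty) :
    NDx (BB a K) (Sum.elim c γ) univ (Tt (bx (BB a K)) (vv κ K η) ψ \ LL κ K) := by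
  intro x hx
  by_contra hall
  push Not at hall
  replace hall := fun i => hall i (mem_univ i)
  have hw : ∀ b ∈ Tt (bx (BB a K)) (vv κ K η) ψ \ LL κ K, w ⬝ᵥ bx (BB a K) b = lev (BB a K) b :=
    fun b hb => mem_Tt.1 (hs (mem_sdiff.1 hb).1)
  have hE := all_eq (BB a K) _ _ _ hall w hw
  by_cases h : ∃ k ∉ K, Sum.inr (Sum.inl k) ∈ Tt (bx (BB a K)) (vv κ K η) ψ \ LL κ K
  · obtain ⟨k, hk, hk'⟩ := h
    refine hγ _ x hx hE k hk hk' ?_
    have h1 := pair (BB a K) _ _ _ hall w (lev (BB a K)) hw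
    have h2 := pair (BB a K) _ _ _ hall ψ (fun b => η + (1 - η) * lev (BB a K) b)
      (fun b hb => by rw [mem_Tt.1 (mem_sdiff.1 hb).1, vv_off a K η b (mem_sdiff.1 hb).2])
    have h3 : (η : ℂ) ≠ 0 := by exact_mod_cast hη.ne'
    refine (mul_eq_zero.1 ?_).resolve_left h3
    rw [← h2, ← add_zero (_ * _), ← mul_zero (1 - (η : ℂ)), ← h1, mul_sum, mul_sum,
      ← sum_add_distrib]
    refine sum_congr rfl (fun b _ => ?_)
    push_cast
    ring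
  · have e : Tt (bx (BB a K)) (vv κ K η) ψ \ LL κ K = (Tw a ψ).map Function.Embedding.inl := by
      ext b
      rcases b with j | k | k
      · rw [mem_sdiff, mem_Tt, bx_inl]
        simp [inl_not K j, mem_Tw, vv]
      · constructor
        · intro hb
          exact absurd ⟨k, fun hk => (mem_sdiff.1 hb).2 ((pos_mem K k).2 hk), hb⟩ h
        · simp
      · constructor
        · intro hb
          exact absurd (neg_mem K k) (mem_sdiff.1 hb).2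
        · simp
    rw [e] at hE hne
    obtain ⟨o, ho⟩ := (hN ψ (inG_of a K hη hψ)).nd (map_nonempty.1 hne) x hx
    apply ho
    rw [← hE o, sum_map]
    refine sum_congr rfl (fun j _ => ?_)
    simp [H48N.BB]

end Fan2Aux

open Fan2Aux in
theorem fan2 (hl : LPStmt) (hs : StabStmt) (hg : CoefStmt) : FanStmt2 := by
  classical
  intro ι κ _ _ _ _ a c K ξ hN
  obtain ⟨γ, Ξ, hΞ, hγ0, hγ⟩ := hg ι κ a c K ξ
  obtain ⟨η0, hη0, hst⟩ := hs ι (κ ⊕ ι ⊕ K) (bx (BB a K)) (lev (BB a K))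
  refine ⟨γ, Ξ, η0, hη0, hγ0, ?_⟩
  rintro η hη hle ⟨w0, hw0⟩
  have hv := vv_near a K hη hle
  have hc : ∀ ψ : ι → ℚ, ∃ w : ι → ℚ, Feas (bx (BB a K)) (vv κ K η) ψ →
      Feas (bx (BB a K)) (lev (BB a K)) w ∧
        Tt (bx (BB a K)) (vv κ K η) ψ ⊆ Tt (bx (BB a K)) (lev (BB a K)) w := fun ψ => by
    by_cases hψ : Feas (bx (BB a K)) (vv κ K η) ψ
    · obtain ⟨w, h⟩ := hst ψ (Tt (bx (BB a K)) (vv κ K η) ψ)
        (fun b => (hv b).1.trans (hψ b)) (fun b hb => (mem_Tt.1 hb).le.trans (hv b).2)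
      exact ⟨w, fun _ => h⟩
    · exact ⟨0, fun h => absurd h hψ⟩
  choose wc hwc using hc
  have hr : ∀ S : Finset (κ ⊕ ι ⊕ K), ∃ ψ : ι → ℚ, Feas (bx (BB a K)) (vv κ K η) ψ ∧
      ∀ x, Feas (bx (BB a K)) (vv κ K η) x → Tt (bx (BB a K)) (vv κ K η) x = S →
        Tt (bx (BB a K)) (vv κ K η) ψ = S := fun S => by
    by_cases h : ∃ x, Feas (bx (BB a K)) (vv κ K η) x ∧ Tt (bx (BB a K)) (vv κ K η) x = S
    · obtain ⟨x, h1, h2⟩ := h
      exact ⟨x, h1, fun _ _ _ => h2⟩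
    · exact ⟨w0, hw0, fun x h1 h2 => absurd ⟨x, h1, h2⟩ h⟩
  choose rep hrep using hr
  have hW : ∀ ψ ∈ univ.image rep, Feas (bx (BB a K)) (vv κ K η) ψ := fun ψ hψ => by
    obtain ⟨S, _, rfl⟩ := mem_image.1 hψ
    exact (hrep S).1
  have hz : ∀ ψ, Feas (bx (BB a K)) (vv κ K η) ψ → ∀ k ∈ K, ψ k = 0 := fun ψ hψ k hk =>
    (lin0 a K).zerox (fun b hb => (vv_L K η b hb).ge.trans (hψ b)) hk
  refine ⟨univ.image rep, wc, lin0 a K, vv_L K η, hΞ, nonneg a K, hW, fun p hp => ?_,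
    fun ψ hψ => (hwc ψ (hW ψ hψ)).1, fun ψ hψ => (hwc ψ (hW ψ hψ)).2, fun ψ hψ hne =>
      nd2 a K c hN γ (fun T x hx hE => (hγ T x hx hE).1) hη hψ (hwc ψ hψ).2 hne,
    fun ψ hψ x hx hall => ?_, fun ψ hψ => ?_⟩
  · obtain ⟨x, h1, _, h3⟩ := hl ι (κ ⊕ ι ⊕ K) (bx (BB a K)) (vv κ K η) ⟨w0, hw0⟩ p
      (cone_univ a K p hp)
    refine ⟨rep _, mem_image_of_mem _ (mem_univ (Tt (bx (BB a K)) (vv κ K η) x)), ?_⟩
    rw [(hrep _).2 x h1 rfl]
    exact h3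
  · refine (hγ _ x hx (all_eq (BB a K) _ _ _ (fun i => hall i (mem_univ i)) (wc ψ)
      (fun b hb => mem_Tt.1 ((hwc ψ hψ).2 hb)))).2 (fun b hb => mem_Tt.2 ?_)
    rw [(lin0 a K).dotx (hz ψ hψ) hb, vv_L K η b hb]
  · refine ⟨qq (1 - η⁻¹) (η⁻¹ • ψ), fun k hk => ?_, fun b hb => ?_⟩
    · rw [qq_some, Pi.smul_apply, hz ψ (hW ψ hψ) k hk, smul_zero]
    · have h1 : ψ ⬝ᵥ bx (BB a K) b = η + (1 - η) * lev (BB a K) b := by
        rw [mem_Tt.1 (mem_sdiff.1 hb).1, vv_off a K η b (mem_sdiff.1 hb).2]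
      rw [qq_dot, smul_dotProduct]
      change (1 - η⁻¹) * lev (BB a K) b + η⁻¹ * (ψ ⬝ᵥ bx (BB a K) b) = 1
      rw [h1]
      field_simp
      ring

end Pool.Agent.MP_5d9b3c_ag.H10N
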