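import Pool.Agent.MP_5d9b3c_ag.H10N.Basic
import Pool.Agent.MP_5d9b3c_ag.H48N.One

/-!
The leading term of the relation with a large parameter.
-/

namespace Pool.Agent.MP_5d9b3c_ag.H10N

open Finset Pool.Agent.MP_5d9b3c_ag.H22 Pool.Agent.MP_5d9b3c_ag.H48N

namespace LeadAux

variable {ι κ : Type} [Fintype ι] [Fintype κ] {B : κ → Pt ι} {c : κ → ℂ} {s : κ → ℕ}
  {v : κ → ℚ} {W : Finset (ι → ℚ)} {q y : Vq ι}

open Classical in
/-- The operators of the face ring with a large parameter. -/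
noncomputable def FU (B : κ → Pt ι) (c : κ → ℂ) (s : κ → ℕ) (v : κ → ℚ) (W : Finset (ι → ℚ))
    (q y : Vq ι) (i : ι) : Op (Pt (Option ι)) :=
  op (fun b => up (s b) (B b)) 0
    (fun U b => if Sim2 B v W (pp q y (dn U)) b then c b * (B b (some i) : ℂ) else 0)

open Classical in
lemma FU_single (i : ι) (U : Pt (Option ι)) : FU B c s v W q y i (Finsupp.single U 1) =
    ∑ b, (if Sim2 B v W (pp q y (dn U)) b then c b * (B b (some i) : ℂ) else 0) •
      Finsupp.single (U + up (s b) (B b)) 1 := by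
  rw [FU, op_single, Pi.zero_apply, zero_smul, zero_add]

/-- Forgetting the parameter. -/
noncomputable def pd (ι : Type) : (Pt (Option ι) →₀ ℂ) →ₗ[ℂ] (Pt ι →₀ ℂ) :=
  Finsupp.lmapDomain ℂ ℂ dn

omit [Fintype ι] in
lemma pd_single (U : Pt (Option ι)) : pd ι (Finsupp.single U 1) = Finsupp.single (dn U) 1 :=
  Finsupp.mapDomain_single

lemma pd_FU (i : ι) (f : Pt (Option ι) →₀ ℂ) :
    pd ι (FU B c s v W q y i f) = Ftr2 B c v W q y i (pd ι f) := by
  have : pd ι ∘ₗ FU B c s v W q y i = Ftr2 B c v W q y i ∘ₗ pd ι := op_ext (fun U => by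
    simp only [LinearMap.comp_apply, FU_single, map_sum, map_smul, pd_single, Ftr2_single, dn_add,
      dn_up])
  exact LinearMap.congr_fun this f

variable [LinearOrder ι]

lemma pd_kd (e : Ch (Pt (Option ι)) ι) (J : Finset ι) :
    pd ι (kd (FU B c s v W q y) e J) = kd (Ftr2 B c v W q y) (fun J => pd ι (e J)) J := by
  simp only [kd, map_sum, map_smul, pd_FU]

/-- The exactness of the graded pieces. -/
lemma graded {R : Set (Pt ι)} {N0 : Pt ι → ℤ} {m : ℤ} (hm : 0 < m)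
    (h : ∀ u ∈ R, ∀ b, Sim2 B v W (pp q y u) b →
      u + B b ∈ R ∧ N0 (u + B b) + m * s b = N0 u + m)
    (hE : Ex (Ftr2 B c v W q y) 1 (fun _ => R) (emp _ _)) (n : ℤ) :
    Ex (FU B c s v W q y) 1
      (La (fun _ => {U | dn U ∈ R}) (fun U => m * U none + N0 (dn U)) m n) (emp _ _) := by
  intro e d1 i1 i2
  rw [in_emp] at i2
  obtain ⟨C, hC⟩ : ∃ C : Set (Pt ι), ∀ u, u ∈ C ↔ u ∈ R ∧ m ∣ n - N0 u :=
    ⟨{u | u ∈ R ∧ m ∣ n - N0 u}, fun _ => Iff.rfl⟩
  have key : ∀ u ∈ R, ∀ b, Sim2 B v W (pp q y u) b → (m ∣ n - N0 (u + B b) ↔ m ∣ n - N0 u) := by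
    intro u hu b hb
    have e1 : n - N0 (u + B b) = n - N0 u + m * (s b - 1) := by linarith [(h u hu b hb).2]
    rw [e1]
    exact dvd_add_left (dvd_mul_right _ _)
  have sC : Stab (Ftr2 B c v W q y) (fun _ => C) := Stab.const (fun i u hu =>
    Ftr2_mem i (fun b hb _ => (hC _).2 ⟨(h u ((hC u).1 hu).1 b hb).1,
      (key u ((hC u).1 hu).1 b hb).2 ((hC u).1 hu).2⟩))
  have sD : Stab (Ftr2 B c v W q y) (fun _ => R \ C) := Stab.const (fun i u hu =>
    Ftr2_mem i (fun b hb _ => ⟨(h u hu.1 b hb).1, fun h1 =>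
      hu.2 ((hC u).2 ⟨hu.1, (key u hu.1 b hb).1 ((hC _).1 h1).2⟩)⟩))
  have i3 : In (fun _ => C) (fun J => pd ι (e J)) := fun J =>
    map_Su _ _ (fun U hU => by
      rw [pd_single]
      refine single_mem_Su ((hC _).2 ⟨hU.1, U none + #J, ?_⟩) 1
      have := hU.2
      simp only at this
      linarith) (i1 J)
  obtain ⟨e2, d2, i4, i5⟩ := hE (fun J => pd ι (e J)) (fun J hJ => by simp only [d1 J hJ, map_zero])
    (i3.mono (fun _ u hu => ((hC u).1 hu).1)) (in_emp.2 (funext (fun J => by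
      rw [← pd_kd, i2, Pi.zero_apply, map_zero, Pi.zero_apply])))
  rw [in_emp, sub_eq_zero] at i5
  obtain ⟨e3, d3, i6, -, i7⟩ := i4.split (Y := fun _ => C) (Z := fun _ => R \ C) d2
    (fun _ u hu => by
      by_cases h1 : u ∈ C
      · exact Or.inl h1
      · exact Or.inr ⟨hu, h1⟩)
  have e1 : (fun J => pd ι (e J)) = kd (Ftr2 B c v W q y) e3 := by
    have h1 := i7.kd sD
    rw [kd_sub, ← i5] at h1
    have h2 := ((i3.sub (i6.kd sC)).inter h1).mono (Y' := emp _ _) (fun _ u hu => hu.2.2 hu.1)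
    rwa [in_emp, sub_eq_zero] at h2
  obtain ⟨lf, hlf⟩ : ∃ lf : Finset ι → (Pt ι →₀ ℂ) →ₗ[ℂ] (Pt (Option ι) →₀ ℂ), ∀ J u,
      lf J (Finsupp.single u 1) = Finsupp.single (up ((n - N0 u) / m - #J) u) 1 :=
    ⟨fun J => Finsupp.lmapDomain ℂ ℂ (fun u => up ((n - N0 u) / m - #J) u),
      fun _ _ => Finsupp.mapDomain_single⟩
  refine ⟨fun J => lf J (e3 J), fun J hJ => by simp only [d3 J hJ, map_zero], fun J => ?_, ?_⟩
  · refine map_Su _ _ (fun u hu => ?_) (i6 J)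
    rw [hlf]
    refine single_mem_Su ?_ 1
    refine ⟨((hC u).1 hu).1, ?_⟩
    have := Int.mul_ediv_cancel' ((hC u).1 hu).2
    simp only [up_none, dn_up]
    linarith
  · rw [in_emp, sub_eq_zero]
    funext J
    have h1 : e J = lf J (pd ι (e J)) := eq_on_Su LinearMap.id (lf J ∘ₗ pd ι) (fun U hU => by
      rw [LinearMap.id_apply, LinearMap.comp_apply, pd_single, hlf]
      have h2 : n - N0 (dn U) = m * (U none + #J) := by
        have := hU.2
        simp only at this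
        linarith
      rw [h2, Int.mul_ediv_cancel_left _ hm.ne', add_sub_cancel_right, up_dn]) (i1 J)
    rw [h1, congrFun e1 J, kd, kd, map_sum]
    refine sum_congr rfl (fun i hi => ?_)
    rw [map_smul]
    congr 1
    refine eq_on_Su (lf J ∘ₗ Ftr2 B c v W q y i) (FU B c s v W q y i ∘ₗ lf (insert i J))
      (fun u hu => ?_) (i6 (insert i J))
    rw [LinearMap.comp_apply, LinearMap.comp_apply, hlf, FU_single, Ftr2_single, map_sum]
    refine sum_congr rfl (fun b _ => ?_)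
    rw [map_smul, hlf, dn_up, up_add]
    split_ifs with hb
    · have h2 : n - N0 (u + B b) = n - N0 u + m * (s b - 1) := by
        linarith [(h u ((hC u).1 hu).1 b hb).2]
      rw [h2, Int.add_mul_ediv_left _ _ hm.ne', card_insert_of_notMem (mem_compl.1 hi)]
      congr 3
      push_cast
      ring
    · rw [zero_smul, zero_smul]

omit [Fintype κ] [LinearOrder ι] in
lemma nn_Bq {η : ℚ} (hη : 0 < η) (hs : ∀ b, η * s b + (1 + η) * lev B b - v b = η) (ψ : ι → ℚ)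
    (b : κ) : OneAux.nn η ψ ⬝ᵥ Bq B b = 1 - s b - η⁻¹ * (ψ ⬝ᵥ bx B b - v b) := by
  have e : (fun i => Bq B b (some i)) = bx B b := rfl
  rw [OneAux.nn, qq_dot, e, smul_dotProduct, smul_eq_mul, Bq_none]
  field_simp
  linarith [hs b]

end LeadAux

open LeadAux OneAux in
theorem lead (hr : RedZStmt) (hw' : WholeStmt) : LeadStmt := by
  intro ι κ _ _ _ _ B c s K W0 q y hcov ⟨σ, e, d1, i1, h1⟩
  classical
  choose! ψ0 c1 c2 using hcov
  obtain ⟨r, hre⟩ : ∃ r, r = kd (DT B c s q) e ∅ - Finsupp.single (up σ 0) 1 := ⟨_, rfl⟩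
  obtain ⟨ε, hε, hsm⟩ := H48.small
    (r.support.filter (fun U => dn U ∈ RG K q y ∧ dn U ∈ Ypos W0 id q y))
    (fun U => hw (ψ0 (pp q y (dn U))) ⬝ᵥ (hat q (dn U) - y))
    (fun U => σ + (hat q 0 - y) none - U none - (hat q (dn U) - y) none)
    (fun U hU => (mem_filter.1 hU).2.2 _ (c1 _ (mem_filter.1 hU).2.1))
  refine ⟨ε, hε, fun η hη hηε L v Ξ W wc h hv hs h0 ⟨w, w1, w2⟩ => ?_⟩
  have hη' : 0 < η⁻¹ := inv_pos.2 hη
  choose ψ m1 m2 using fun u : Pt ι => exists_min_image W (fun ψ => ψ ⬝ᵥ pp q y u) h.nonempty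
  have dmin : ∀ u, ∀ φ ∈ W, (∀ φ' ∈ W, φ ⬝ᵥ pp q y u ≤ φ' ⬝ᵥ pp q y u) →
      nn η (ψ u) ⬝ᵥ (hat q u - y) = nn η φ ⬝ᵥ (hat q u - y) := fun u φ h1 h2 => by
    rw [nn_hat, nn_hat, le_antisymm (m2 u φ h1) (h2 _ (m1 u))]
  obtain ⟨m, hm, hz⟩ := disc_hat (fun φ : W => nn η φ.1) q y
  choose N0 hN using fun u : Pt ι => hz ⟨ψ u, m1 u⟩ u
  simp only at hN
  have hm' : (0 : ℚ) < m := by exact_mod_cast hm
  have hm'' : (0 : ℤ) < m := by exact_mod_cast hm
  have k1 : ∀ u ∈ RG K q y, ∀ b, Sim2 B v W (pp q y u) b →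
      u + B b ∈ RG K q y ∧ N0 (u + B b) + m * s b = N0 u + m := by
    intro u hu b hb
    refine ⟨h.RG_add hu b, ?_⟩
    obtain ⟨φ, h2, h3, h4⟩ := id hb
    have h5 : ((N0 (u + B b) + m * s b : ℤ) : ℚ) = ((N0 u + m : ℤ) : ℚ) := by
      push_cast
      rw [← hN, ← hN, dmin u φ h2 h3, dmin (u + B b) φ h2 (by
        rw [pp_add]; exact (hb.min_iff h.feas h2).2 ⟨h3, h4⟩), hat_add_sub, dotProduct_add,
        LeadAux.nn_Bq hη hs, h4]
      ring
    exact_mod_cast h5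
  have k2 : ∀ u b, ¬ Sim2 B v W (pp q y u) b → N0 (u + B b) + m * s b < N0 u + m := by
    intro u b hb
    have h2 := m2 u _ (m1 (u + B b))
    have h3 := h.feas _ (m1 (u + B b)) b
    have h4 : 0 < ψ (u + B b) ⬝ᵥ pp q y u - ψ u ⬝ᵥ pp q y u + (ψ (u + B b) ⬝ᵥ bx B b - v b) := by
      by_contra h5
      exact hb ⟨_, m1 (u + B b), fun φ hφ => by linarith [m2 u φ hφ], by linarith⟩
    have h5 : ((N0 (u + B b) + m * s b : ℤ) : ℚ) < ((N0 u + m : ℤ) : ℚ) := by
      push_cast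
      rw [← hN, ← hN, hat_add_sub, dotProduct_add, LeadAux.nn_Bq hη hs, nn_hat, nn_hat]
      nlinarith [mul_pos hm' (mul_pos hη' h4)]
    exact_mod_cast h5
  obtain ⟨hw1, hw2⟩ := hw' ι κ B c K L v Ξ W wc h q y
  obtain ⟨r1, r2⟩ := hr (Pt (Option ι)) ι (DT B c s q) (FU B c s v W q y)
    (fun _ => {U | dn U ∈ RG K q y}) (fun U => m * U none + N0 (dn U)) m 1 comm_DT
    (fun J i _ U hU => ⟨op_mem (fun h2 => absurd rfl h2) (fun b hb => by
      have h2 := k1 _ hU b (by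
        by_contra h3
        exact hb (if_neg h3))
      refine ⟨h2.1, ?_⟩
      simp only [dn_add, dn_up, Pi.add_apply, up_none]
      linarith [h2.2]), op_sub_mem (fun _ => ⟨hU, by linarith⟩) (fun b hb => by
      have h2 := k2 (dn U) b (fun h3 => hb (by rw [if_pos h3]))
      refine ⟨h.RG_add hU b, ?_⟩
      simp only [dn_add, dn_up, Pi.add_apply, up_none]
      linarith)⟩)
  obtain ⟨e', d2, i2, h2⟩ := r2 (r1 (Or.inl (graded hm'' k1 hw1))) (up σ 0) h0.1.1 e d1 i1 (by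
    rw [← hre] at h1 ⊢
    intro U hU
    rcases h1 hU with h3 | ⟨h3, h4⟩
    · refine ⟨h3.1, ?_⟩
      have h4 := hsm U (mem_filter.2 ⟨hU, h3⟩)
      have h5 := h3.2 _ (c1 _ h3.1)
      have h6 := c2 _ h3.1 (ψ (dn U)) (fun b => (hv b).trans (h.feas _ (m1 _) b))
      obtain ⟨φ, h7, h8⟩ := h.exists_min (p := pp q y 0) h0.1.1
      have h9 := (m2 0 φ h7).trans (h8 w w1)
      rw [hw_hat] at w2
      simp only [id, hw_hat] at h4 h5
      have h10 : 0 < ψ0 (pp q y (dn U)) ⬝ᵥ pp q y (dn U) - (hat q (dn U) - y) none +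
          η * (σ + (hat q 0 - y) none - U none - (hat q (dn U) - y) none) := by
        rcases le_total 0 (σ + (hat q 0 - y) none - U none - (hat q (dn U) - y) none) with h11 | h11
        · linarith [mul_nonneg hη.le h11]
        · linarith [mul_le_mul_of_nonpos_right hηε h11]
      have h11 : ((m * U none + N0 (dn U) : ℤ) : ℚ) < ((m * σ + N0 0 : ℤ) : ℚ) := by
        push_cast
        rw [← hN, ← hN, nn_hat, nn_hat, ← mul_add, ← mul_add]
        refine mul_lt_mul_of_pos_left ?_ hm'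
        have h12 := mul_pos hη' h10
        rw [mul_add, ← mul_assoc, inv_mul_cancel₀ hη.ne'] at h12
        nlinarith [mul_le_mul_of_nonneg_left h6 hη'.le, mul_le_mul_of_nonneg_left h9 hη'.le,
          mul_le_mul_of_nonneg_left w2 hη'.le]
      simp only [card_empty, Nat.cast_zero, mul_zero, add_zero, up_none, dn_up]
      exact_mod_cast h11
    · refine ⟨by rw [Set.mem_ofPred_eq, h3]; exact h0.1.1, ?_⟩
      simp only [card_empty, Nat.cast_zero, mul_zero, add_zero, up_none, dn_up, h3]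
      nlinarith)
  refine hw2 0 h0 (fun J => pd ι (e' J)) (fun J hJ => by simp only [d2 J hJ, map_zero])
    (fun J => map_Su _ _ (fun U hU => ?_) (i2 J)) ?_
  · rw [pd_single]
    exact single_mem_Su (Y := RG K q y) hU 1
  · rw [← pd_kd, h2, pd_single, dn_up]

end Pool.Agent.MP_5d9b3c_ag.H10N
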