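import Pool.Agent.MP_5d9b3c_ag.H10N.Spec
import Pool.Agent.MP_5d9b3c_ag.H48N.Null

/-!
The Nullstellensatz for shifted cones, for arbitrary coefficients.
-/

namespace Pool.Agent.MP_5d9b3c_ag.H10N

open Finset Pool.Agent.MP_5d9b3c_ag.H22 Pool.Agent.MP_5d9b3c_ag.H48N

namespace NSRAux

open MvPolynomial NullAux

variable {ι κ : Type} [Fintype κ] [DecidableEq κ] (B : κ → Pt ι) (T : Finset κ)

lemma fr_eq (ρ : ι → κ → ℂ) (i : ι) :
    FR B ρ T i = ac ι (pr B T (∑ j ∈ T, ρ i j • X j)) := by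
  refine Finsupp.lhom_ext' fun u => LinearMap.ext_ring ?_
  simp only [LinearMap.comp_apply, Finsupp.lsingle_apply, FR, op, Finsupp.linearCombination_single,
    one_smul, Pi.zero_apply, zero_smul, zero_add, map_sum, map_smul, LinearMap.sum_apply,
    LinearMap.smul_apply, ite_smul, sum_ite_mem, univ_inter]
  exact sum_congr rfl fun j hj => by rw [pr_X B T hj, ac_U]

end NSRAux

open NullAux NSRAux MvPolynomial in
theorem nsr : NSRStmt := by
  intro ι κ _ _ _ _ B ρ A T hT v hv
  classical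
  let F : ι → MvPolynomial κ ℂ := fun i => ∑ j ∈ T, ρ i j • X j
  have hrad : (X v : MvPolynomial κ ℂ) ∈
      (Ideal.span (Set.range fun i : A => F i) ⊔ RingHom.ker (pr B T)).radical := by
    rw [← vanishingIdeal_zeroLocus_eq_radical (K := ℂ), mem_vanishingIdeal_iff]
    intro y hy
    rw [mem_zeroLocus_iff] at hy
    rw [aeval_X]
    by_contra h0
    have hb : ∀ k k' : κ → ℕ, ∑ j ∈ T, k j • B j = ∑ j ∈ T, k' j • B j →
        ∏ j ∈ T, y j ^ k j = ∏ j ∈ T, y j ^ k' j := by
      intro k k' e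
      have := hy (∏ j ∈ T, X j ^ k j - ∏ j ∈ T, X j ^ k' j) (Ideal.mem_sup_right (by
        rw [RingHom.mem_ker, map_sub, pr_prod, pr_prod, e, sub_self]))
      simpa [sub_eq_zero] using this
    obtain ⟨n, h1, h2⟩ := face B T y hb
    obtain ⟨x, x0, hx⟩ := extend (T.filter (fun j => y j ≠ 0)) B y
      (fun j hj => (mem_filter.1 hj).2) (fun k k' e => by
        have := hb (fun j => if y j ≠ 0 then k j else 0) (fun j => if y j ≠ 0 then k' j else 0) (by
          simp only [ite_smul, zero_smul]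
          rw [← sum_filter, ← sum_filter]
          exact e)
        simp only [pow_ite, pow_zero] at this
        rwa [← prod_filter, ← prod_filter] at this)
    obtain ⟨i, hiA, hi⟩ := hT n h1 (h2 ▸ ⟨v, mem_filter.2 ⟨hv, h0⟩⟩) x x0
    refine hi ?_
    have := hy (F i) (Ideal.mem_sup_left (Ideal.subset_span ⟨⟨i, hiA⟩, rfl⟩))
    rw [h2, sum_congr rfl (fun j hj => by rw [hx j hj]), sum_filter_of_ne
      (fun j _ hj => right_ne_zero_of_mul hj)]
    simpa [F] using this
  obtain ⟨K, hK⟩ := hrad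
  obtain ⟨p, hp, q, hq, e⟩ := Submodule.mem_sup.1 hK
  obtain ⟨G, rfl⟩ := Ideal.mem_span_range_iff_exists_fun.1 hp
  have e1 := congrArg (pr B T) e
  rw [map_add, RingHom.mem_ker.1 hq, add_zero, map_pow, pr_X B T hv, map_sum] at e1
  have hF : ∀ i, FR B ρ T i = ac ι (pr B T (F i)) := fr_eq B T ρ
  obtain ⟨G', g1, g0⟩ : ∃ G' : ι → Op (Pt ι),
      (∀ i (hi : i ∈ A), G' i = ac ι (pr B T (G ⟨i, hi⟩) * U (-B v) ^ K)) ∧ ∀ i ∉ A, G' i = 0 :=
    ⟨fun i => if hi : i ∈ A then ac ι (pr B T (G ⟨i, hi⟩) * U (-B v) ^ K) else 0,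
      fun i hi => dif_pos hi, fun i hi => dif_neg hi⟩
  refine ⟨G', g0, fun i k => ?_, ?_, fun Y h1 h2 i w hw => ?_⟩
  · by_cases hi : i ∈ A
    · rw [g1 i hi, hF]
      exact (Commute.all _ _).map _
    · rw [g0 i hi]
      exact Commute.zero_left _
  · rw [← sum_subset (subset_univ A) (fun i _ hi => by rw [g0 i hi, mul_zero]), ← sum_coe_sort]
    have e2 : ∀ i : A, FR B ρ T i * G' i = ac ι (pr B T (G i * F i) * U (-B v) ^ K) := fun i => by
      rw [g1 i i.2, hF, ← map_mul, map_mul (pr B T)]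
      congr 1
      ring
    rw [sum_congr rfl fun i _ => e2 i, ← map_sum, ← sum_mul, e1, ← mul_pow, U_mul_neg, one_pow,
      map_one]
  · by_cases hi : i ∈ A
    · rw [g1 i hi, map_mul, Module.End.mul_apply, map_pow]
      refine pr_mem B T Y h1 _ _ ?_
      generalize K = L
      induction L with
      | zero => simpa using hw
      | succ L ih =>
        rw [pow_succ', Module.End.mul_apply]
        exact ac_U_mem _ Y (fun u hu => by rw [← sub_eq_add_neg]; exact h2 u hu) _ ih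
    · rw [g0 i hi]
      simp

end Pool.Agent.MP_5d9b3c_ag.H10N
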