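import Pool.Agent.MP_5d9b3c_ag.H10N.Basic
import Pool.Agent.MP_5d9b3c_ag.H48N.Link
import Pool.Agent.MP_5d9b3c_ag.H48N.Proj
import Pool.Agent.MP_5d9b3c_ag.H48N.Layer

/-!
Fans with a lineality space: forms without poles, all layers together, and the projection to the
closed cone of a face.
-/

namespace Pool.Agent.MP_5d9b3c_ag.H10N

open Finset Pool.Agent.MP_5d9b3c_ag.H22 Pool.Agent.MP_5d9b3c_ag.H48N

open LinkAux in
theorem link2 (h : ShellStmt2) : LinkStmt2 := by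
  intro ι κ _ _ _ _ B c K L v Ξ W wc hF q y S hS
  have e1 : NonLog K W wc q y S = YY (GG K W wc q y) (fun k u => 0 < pp q y u k) univ S := by
    funext J
    simp [NonLog, YY]
  rw [e1]
  refine final (K := K) (comm_Ftr2 hF.feas) (fun i u hu => Ftr2_mem i (fun b h1 h2 => ?_))
    (h ι κ B c K L v Ξ W wc hF q y) S hS
  refine ⟨hF.sim_add hu h1, fun k hk h3 => ?_, fun hi => ?_⟩
  · rw [pp_add]
    exact add_pos_of_pos_of_nonneg h3 (hF.bx_nonneg b hk)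
  · rw [pp_add]
    refine add_pos_of_nonneg_of_pos (hu.1.1 i hi) (lt_of_le_of_ne (hF.bx_nonneg b hi) ?_)
    unfold bx
    exact_mod_cast Ne.symm h2

namespace WholeAux

section Gen

variable {X ι Λ : Type} {D : ι → Op X} {Y : Set X} {φ : X → Λ} {k : ℕ}

/-- The operators preserve the set and the grading. -/
def Gr (D : ι → Op X) (Y : Set X) (φ : X → Λ) : Prop :=
  ∀ i, ∀ u ∈ Y, D i (Finsupp.single u 1) ∈ Su {w | w ∈ Y ∧ φ w = φ u}

lemma prj_comm (h : Gr D Y φ) (t : Λ) (i : ι) {f : X →₀ ℂ} (hf : f ∈ Su Y) :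
    D i (prj {w | φ w = t} f) = prj {w | φ w = t} (D i f) := by
  refine eq_on_Su (D i ∘ₗ prj {w | φ w = t}) (prj {w | φ w = t} ∘ₗ D i) (fun u hu => ?_) hf
  rw [LinearMap.comp_apply, LinearMap.comp_apply]
  by_cases h1 : φ u = t
  · rw [prj_of_mem (single_mem_Su (Y := {w | φ w = t}) h1 1),
      prj_of_mem (P := {w | φ w = t}) (Su_mono (fun w hw1 => hw1.2.trans h1) (h i u hu))]
  · rw [prj_of_disj (P := {w | φ w = t}) (single_mem_Su (Y := {w | φ w = φ u}) (u := u) rfl 1)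
      (fun w h2 h3 => h1 (h2.symm.trans h3)),
      prj_of_disj (P := {w | φ w = t}) (h i u hu) (fun w h2 h3 => h1 (h2.2.symm.trans h3)),
      map_zero]

variable [Fintype ι] [LinearOrder ι]

lemma kd_prj (h : Gr D Y φ) (t : Λ) {e : Ch X ι} (he : In (fun _ => Y) e) (J : Finset ι) :
    kd D (fun J => prj {w | φ w = t} (e J)) J = prj {w | φ w = t} (kd D e J) := by
  rw [kd, kd, map_sum]
  exact sum_congr rfl (fun i _ => by rw [map_smul, prj_comm h t i (he _)])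

lemma ex_fin (h : Gr D Y φ) (h1 : ∀ t, Ex D k (fun _ => {w | w ∈ Y ∧ φ w = t}) (emp X ι))
    (R : Finset Λ) : Ex D k (fun _ => {w | w ∈ Y ∧ φ w ∈ R}) (emp X ι) := by
  classical
  induction R using Finset.induction_on with
  | empty => exact Ex.of_subset (fun _ _ u hu => absurd hu.2 (notMem_empty _))
  | insert t R _ ih =>
    intro e d1 i1 i2
    rw [in_emp] at i2
    have i3 : kd D (fun J => prj {w | φ w = t} (e J)) = 0 := funext (fun J => by
      rw [kd_prj h t (i1.mono (fun _ _ hu => hu.1)), i2, Pi.zero_apply, map_zero])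
    obtain ⟨e1, d2, i4, i5⟩ := h1 t _ (d1.map (fun _ => prj {w | φ w = t}))
      (fun J => Su_mono (fun _ hu => ⟨hu.1.1, hu.2⟩) (prj_mem _ (i1 J))) (in_emp.2 i3)
    obtain ⟨e2, d3, i6, i7⟩ := ih _ (d1.sub (d1.map (fun _ => prj {w | φ w = t})))
      (fun J => Su_mono (fun _ hu => ⟨hu.1.1, (mem_insert.1 hu.1.2).resolve_left hu.2⟩)
        (sub_prj_mem _ (i1 J))) (in_emp.2 (by rw [kd_sub, i2, i3, sub_zero]))
    refine ⟨e1 + e2, d2.add d3,
      In.add (i4.mono (fun _ _ hu => ⟨hu.1, mem_insert.2 (Or.inl hu.2)⟩))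
        (i6.mono (fun _ _ hu => ⟨hu.1, mem_insert_of_mem hu.2⟩)), ?_⟩
    have := i5.add i7
    rwa [sub_add_sub_comm, add_sub_cancel, ← kd_add] at this

/-- A graded complex is exact if all its pieces are. -/
lemma ex_all (h : Gr D Y φ) (h1 : ∀ t, Ex D k (fun _ => {w | w ∈ Y ∧ φ w = t}) (emp X ι)) :
    Ex D k (fun _ => Y) (emp X ι) := by
  classical
  intro e d1 i1 i2
  obtain ⟨e1, d2, i3, i4⟩ := ex_fin h h1 (univ.biUnion (fun J => (e J).support.image φ)) e d1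
    (fun J u hu => ⟨i1 J hu, mem_biUnion.2 ⟨J, mem_univ _, mem_image_of_mem _ hu⟩⟩) i2
  exact ⟨e1, d2, i3.mono (fun _ _ hu => hu.1), i4⟩

end Gen

variable {ι κ : Type} [Fintype ι] [LinearOrder ι] {K : Finset ι} {W : Finset (ι → ℚ)}
  {wc : (ι → ℚ) → ι → ℚ} {q y : Vq ι}

/-- The distance from the nearest wall. -/
def phi (hW : W.Nonempty) (wc : (ι → ℚ) → ι → ℚ) (q y : Vq ι) (u : Pt ι) : ℚ :=
  W.inf' hW (fun ψ => hw (wc ψ) ⬝ᵥ (hat q u - y))

lemma mem_GG_shift (hW : W.Nonempty) (t : ℚ) (u : Pt ι) :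
    u ∈ GG K W wc q (y + Pi.single none (-t)) ↔ u ∈ RG K q y ∧ phi hW wc q y u = t := by
  rw [GG, Set.mem_sdiff, LayerAux.mem_Ynn_shift, LayerAux.mem_Ypos_shift]
  obtain ⟨ψ0, h0, h1⟩ := exists_mem_eq_inf' hW (fun ψ => hw (wc ψ) ⬝ᵥ (hat q u - y))
  have h2 : ∀ ψ ∈ W, phi hW wc q y u ≤ hw (wc ψ) ⬝ᵥ (hat q u - y) :=
    fun ψ hψ => inf'_le (fun ψ => hw (wc ψ) ⬝ᵥ (hat q u - y)) hψ
  change phi hW wc q y u = _ at h1
  constructor
  · rintro ⟨⟨h3, h4⟩, h5⟩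
    refine ⟨h3, le_antisymm ?_ (by linarith [h4 ψ0 h0])⟩
    by_contra h6
    exact h5 (fun ψ hψ => by linarith [h2 ψ hψ])
  · rintro ⟨h3, h4⟩
    exact ⟨⟨h3, fun ψ hψ => by linarith [h2 ψ hψ]⟩, fun h5 => by linarith [h5 ψ0 h0]⟩

lemma mem_GG_zero (hW : W.Nonempty) (u : Pt ι) :
    u ∈ GG K W wc q y ↔ u ∈ RG K q y ∧ phi hW wc q y u = 0 := by
  rw [← mem_GG_shift, neg_zero, Pi.single_zero, add_zero]

variable [Fintype κ] {B : κ → Pt ι} {c : κ → ℂ} {L : Finset κ} {v : κ → ℚ} {Ξ : Set ℂ}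

lemma Ftr2_shift (r : ℚ) : Ftr2 B c v W q (y + Pi.single none r) = Ftr2 B c v W q y := by
  have e1 : pp q (y + Pi.single none r) = pp q y := funext (LayerAux.pp_shift r)
  funext i
  rw [Ftr2, Ftr2, e1]

lemma gr [DecidableEq κ] (h : Fan2 B c K L v Ξ W wc) :
    Gr (Ftr2 B c v W q y) (RG K q y) (phi h.nonempty wc q y) :=
  fun i u hu => Ftr2_mem i (fun b h1 _ => (mem_GG_shift h.nonempty _ _).1
    (h.sim_add ((mem_GG_shift h.nonempty _ u).2 ⟨hu, rfl⟩) (by rwa [LayerAux.pp_shift])))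

end WholeAux

open WholeAux in
theorem whole (h : ShellStmt2) : WholeStmt := by
  intro ι κ _ _ _ _ B c K L v Ξ W wc hF q y
  refine ⟨ex_all (gr hF) (fun t => ?_), fun u0 hu0 e d1 i1 hk => ?_⟩
  · have h1 := h ι κ B c K L v Ξ W wc hF q (y + Pi.single none (-t)) univ (subset_univ _) 1 le_rfl
    have e1 : GG K W wc q (y + Pi.single none (-t)) =
        {w | w ∈ RG K q y ∧ phi hF.nonempty wc q y w = t} :=
      Set.ext (mem_GG_shift hF.nonempty t)
    rw [res_univ, res_univ, Ftr2_shift, e1] at h1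
    intro e d1 i1 i2
    obtain ⟨e', d2, i3, i4⟩ := h1 e d1 i1 (i2.mono (fun _ _ hu => hu.elim))
    exact ⟨e', d2, i3, i4.mono (fun _ _ hu => let ⟨_, h2, _⟩ := hu.2; h2 (mem_univ _))⟩
  · refine ⟨_, d1.map (fun _ => prj {w | phi hF.nonempty wc q y w = 0}),
      fun J => Su_mono (fun u hu => (mem_GG_zero hF.nonempty u).2 hu) (prj_mem _ (i1 J)), ?_⟩
    rw [kd_prj (gr hF) 0 i1, hk]
    exact prj_of_mem (single_mem_Su (Y := {w | phi hF.nonempty wc q y w = 0})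
      ((mem_GG_zero hF.nonempty u0).1 hu0).2 1)

namespace Proj2Aux

open ProjAux

variable {ι κ : Type} [Fintype ι] [LinearOrder ι] [Fintype κ] [DecidableEq κ] {B : κ → Pt ι}
  {c : κ → ℂ} {K : Finset ι} {L : Finset κ} {v : κ → ℚ} {Ξ : Set ℂ}
  {W : Finset (ι → ℚ)} {wc : (ι → ℚ) → ι → ℚ} {q y : Vq ι} {w p : ι → ℚ} {u : Pt ι} {b : κ}

/-- A shift inside a cone ends in the face of `w` exactly if it takes place in that face. -/
lemma sim_iff (h : Fan2 B c K L v Ξ W wc) (hw1 : Feas (bx B) v w)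
    (hp : ∀ k ∉ K, 0 ≤ p k) (b : κ) :
    (Sim2 B v W p b ∧ Mn W w (p + bx B b)) ↔ (Mn W w p ∧ b ∈ Tt (bx B) v w) := by
  rw [mem_Tt]
  constructor
  · rintro ⟨⟨ψ, h1, h2, h3⟩, h4⟩
    obtain ⟨ψ1, h5, h6⟩ := h.exists_min hp
    have h7 := h4 ψ h1
    have h8 := h6 w hw1
    have h9 := h2 ψ1 h5
    have h10 := hw1 b
    rw [dotProduct_add, dotProduct_add] at h7
    exact ⟨fun ψ' h11 => by linarith [h2 ψ' h11], by linarith⟩
  · rintro ⟨h1, h2⟩
    obtain ⟨ψ, h3, h4⟩ := h.exists_min (p := p + bx B b)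
      (fun k hk => add_nonneg (hp k hk) (h.bx_nonneg b hk))
    have h5 := h4 w hw1
    have h6 := h1 ψ h3
    have h7 := h.feas ψ h3 b
    rw [dotProduct_add, dotProduct_add] at h5
    refine ⟨⟨ψ, h3, fun ψ' h8 => by linarith [h1 ψ' h8], by linarith⟩, fun ψ' h8 => ?_⟩
    rw [dotProduct_add, dotProduct_add]
    linarith [h1 ψ' h8, h.feas ψ' h8 b]

open Classical in
lemma chr_sum (h : Fan2 B c K L v Ξ W wc) (hw1 : Feas (bx B) v w)
    (hu : ∀ k ∉ K, 0 ≤ pp q y u k) {x : Option ι → ℂ} (hx : ∀ o, x o ≠ 0) (i : ι) :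
    chr W w q y x (Ftr2 B c v W q y i (Finsupp.single u 1)) =
      ∑ b ∈ Tt (bx B) v w,
        (if Mn W w (pp q y u) ∧ u none = -B b none then ∏ o, x o ^ u o else 0) *
          (c b * (B b (some i) : ℂ) * ∏ o, x o ^ B b o) := by
  rw [Ftr2_single, map_sum, ← univ_inter (Tt (bx B) v w), ← sum_ite_mem]
  refine sum_congr rfl (fun b _ => ?_)
  rw [map_smul, chr_single, pp_add, smul_eq_mul]
  have key := sim_iff h hw1 hu b
  by_cases h1 : Mn W w (pp q y u) ∧ b ∈ Tt (bx B) v w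
  · obtain ⟨h2, h3⟩ := key.2 h1
    have h4 : (u + B b) none = 0 ↔ u none = -B b none := by
      rw [Pi.add_apply]
      omega
    rw [if_pos h2, if_pos h1.2]
    by_cases h5 : u none = -B b none
    · rw [if_pos ⟨h3, h4.2 h5⟩, if_pos ⟨h1.1, h5⟩]
      simp only [Pi.add_apply, zpow_add₀ (hx _), prod_mul_distrib]
      ring
    · rw [if_neg (fun h6 => h5 (h4.1 h6.2)), if_neg (fun h6 => h5 h6.2), mul_zero, zero_mul]
  · have h2 : (if Sim2 B v W (pp q y u) b then c b * (B b (some i) : ℂ) else 0) *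
        (if Mn W w (pp q y u + bx B b) ∧ (u + B b) none = 0 then ∏ o, x o ^ (u + B b) o
          else 0) = 0 := by
      by_cases h3 : Sim2 B v W (pp q y u) b
      · rw [if_neg (fun h4 : _ ∧ _ => h1 (key.1 ⟨h3, h4.1⟩)), mul_zero]
      · rw [if_neg h3, zero_mul]
    rw [h2]
    by_cases h3 : b ∈ Tt (bx B) v w
    · rw [if_pos h3, if_neg (fun h4 : _ ∧ _ => h1 ⟨h4.1, h3⟩), zero_mul]
    · rw [if_neg h3]

open Classical in
lemma chr_Ftr2 (h : Fan2 B c K L v Ξ W wc) (hw1 : Feas (bx B) v w)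
    (hT : ∀ b ∈ Tt (bx B) v w \ L, B b none = 1) (hu : ∀ k ∉ K, 0 ≤ pp q y u k)
    {x : Option ι → ℂ} (hx : ∀ o, x o ≠ 0) (i : ι)
    (hL : ∑ b ∈ L, c b * (B b (some i) : ℂ) * ∏ o, x o ^ B b o = 0) :
    chr W w q y x (Ftr2 B c v W q y i (Finsupp.single u 1)) =
      (if Mn W w (pp q y u) ∧ u none = -1 then ∏ o, x o ^ u o else 0) *
        ∑ b ∈ Tt (bx B) v w \ L, c b * (B b (some i) : ℂ) * ∏ o, x o ^ B b o := by
  rw [chr_sum h hw1 hu hx, ← sum_sdiff (h.L_sub hw1), mul_sum,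
    sum_congr rfl (fun b hb => by rw [hT b hb]),
    sum_congr (s₁ := L) rfl (fun b hb => by rw [h.lin.none hb]), ← mul_sum L, hL, mul_zero,
    add_zero]

omit [Fintype κ] in
/-- The weight of a point of level `-1` in the cone. -/
lemma bound {T' : Finset κ} {τ : κ → ℚ} {μ : ι → ℚ} (hL : Lin0 B K L) (hK : ∀ k ∈ K, μ k = 0)
    (hT : ∀ b ∈ T' \ L, B b none = 1) (hy : y = q - ∑ b ∈ T' \ L, τ b • Bq B b)
    (hle : ∀ b ∈ T' \ L, μ ⬝ᵥ bx B b ≤ 1) (hc : Cone (Bq B) T' (hat q u - y))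
    (hu : u none = -1) :
    μ ⬝ᵥ (fun k => (u (some k) : ℚ)) ≤ ∑ b ∈ T' \ L, τ b * (1 - μ ⬝ᵥ bx B b) - 1 := by
  have h1 : ∀ b ∈ T' \ L, qq 1 (-μ) ⬝ᵥ Bq B b = 1 - μ ⬝ᵥ bx B b := fun b hb => by
    rw [qq_dot, neg_dotProduct, Bq_none, lev, hT b hb, Int.cast_one, one_mul,
      sub_eq_add_neg]
    rfl
  have h2 := hc.dot_nonneg (n := qq 1 (-μ)) (fun b hb => by
    by_cases h3 : b ∈ L
    · exact (hL.dot (fun k hk => by rw [qq_some, Pi.neg_apply, hK k hk, neg_zero]) h3).ge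
    · rw [h1 b (mem_sdiff.2 ⟨hb, h3⟩)]
      linarith [hle b (mem_sdiff.2 ⟨hb, h3⟩)])
  rw [dot_hat_sub, hy, sub_sub_cancel, dotProduct_sum, qq_dot, neg_dotProduct, hu,
    sum_congr rfl (fun b hb => by rw [dotProduct_smul, h1 b hb, smul_eq_mul])] at h2
  push_cast at h2
  linarith

end Proj2Aux

open ProjAux in
theorem proj2 : ProjStmt2 := by
  intro ι κ _ _ _ _ B c K L v Ξ W wc h w T τ μ ν S q y hw1 hT h1 hτ hy hS hμ hμ0 hS1 hle hν e _ he
    hk x hx hL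
  subst hT
  by_contra hcon
  have hp : ∀ u : Pt ι, ∀ k ∈ S, pp q y u k = u (some k) + 1 := fun u k hk => by
    rw [← hS1 k hk, pp, hy, hat, Pi.sub_apply, Finset.sum_apply]
    simp only [Pi.smul_apply, Bq_some, smul_eq_mul]
    ring
  have h0 : Mn W w (pp q y 0) := fun ψ hψ => by
    refine Cone.le_of_feas ?_ (h.feas ψ hψ)
    rw [← pp_eq, hat_zero, hy, sub_sub_cancel]
    exact (Cone.of_sum hτ).proj.mono sdiff_subset
  have h2 := congrArg (chr W w q y x) hk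
  rw [kd_empty, map_sum, chr_single, if_pos ⟨h0, rfl⟩, sum_eq_zero] at h2
  · simp at h2
  intro i _
  refine map_Su (chr W w q y x ∘ₗ Ftr2 B c v W q y i) ⊥ (fun u hu => ?_) (he {i})
  rw [LinearMap.comp_apply, Proj2Aux.chr_Ftr2 h hw1 h1 hu.1.1.1 hx i (hL i), Submodule.mem_bot,
    mul_eq_zero]
  by_cases h3 : Mn W w (pp q y u) ∧ u none = -1
  · right
    by_contra h4
    refine hcon ⟨i, ?_, h4⟩
    have h5 := Proj2Aux.bound h.lin (fun k hk => hμ0 k (disjoint_right.1 hS hk)) h1 hy hle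
      (h.cone_GG' hu.1 hw1 h3.1) h3.2
    have h6 : μ ⬝ᵥ (-Pi.single i 1) ≤ μ ⬝ᵥ (fun k => (u (some k) : ℚ)) := by
      refine sum_le_sum (fun k _ => ?_)
      by_cases h7 : k ∈ S
      · refine mul_le_mul_of_nonneg_left ?_ (hμ k)
        by_cases h8 : k = i
        · have h9 := hu.1.1.1 k (disjoint_left.1 hS h7)
          rw [hp u k h7] at h9
          rw [h8, Pi.neg_apply, Pi.single_eq_same, ← h8]
          linarith
        · have h9 := hu.2 k (mem_sdiff.2 ⟨h7, fun h9 => h8 (mem_singleton.1 h9)⟩)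
          rw [hp u k h7] at h9
          rw [Pi.neg_apply, Pi.single_eq_of_ne h8, neg_zero]
          have h10 : 0 < u (some k) + 1 := by exact_mod_cast h9
          have h11 : 0 ≤ u (some k) := by omega
          exact Int.cast_nonneg h11
      · rw [hμ0 k h7, zero_mul, zero_mul]
    rw [dotProduct_neg, dotProduct_single, mul_one] at h6
    linarith
  · exact Or.inl (if_neg h3)

end Pool.Agent.MP_5d9b3c_ag.H10N
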