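import Pool.Agent.MP_5d9b3c_ag.H10N.Basic
import Pool.Agent.MP_5d9b3c_ag.H48N.Sel
import Pool.Agent.MP_5d9b3c_ag.H48N.Grid
import Pool.Agent.MP_5d9b3c_ag.H48N.Glob

/-!
The `p`-adic side under nondegeneracy along the faces cut out by nonnegative weights only.
-/

namespace Pool.Agent.MP_5d9b3c_ag.H10N

open Finset Pool.Agent.MP_5d9b3c_ag.H22 Pool.Agent.MP_5d9b3c_ag.H48N

namespace PsideAux

variable {ι κ : Type} [Fintype ι] [LinearOrder ι] [Fintype κ] [DecidableEq κ]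
  {a : κ → ι →₀ ℕ} {c : κ → ℂ} {l : ℝ}

lemma down2 (hl : LiftStmt) (hnd : NDQ a c) {w w' : ι → ℚ} (hw : InP a l w) (hw' : InG a w')
    (hs : tg a w ⊆ tg a w') {J : Finset ι} (hJ : J ⊆ Fw w) (hJ' : J ⊆ Fw w')
    (hL : Lin a (Tw a w') J) (h : ¬ Solv a c (Tw a w') J) : ¬ Solv a c (Tw a w) J := by
  have e : (Tw a w').filter (fun j => (w - w') ⬝ᵥ Aq a j = 0) = Tw a w := by
    ext j
    rw [mem_filter, sub_dotProduct, sub_eq_zero]
    constructor
    · rintro ⟨h1, h2⟩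
      rw [mem_Tw, h2, mem_Tw.1 h1]
    · intro h1
      exact ⟨Tw_mono hs h1, by rw [mem_Tw.1 h1, mem_Tw.1 (Tw_mono hs h1)]⟩
  intro hS
  refine h (hl ι κ a c _ (Fw w') J (hnd w' hw') hJ' hL (w - w')
    (fun k hk => ?_) (fun j hj => ?_) ?_ ?_)
  · rw [mem_Fw, not_lt] at hk
    rw [Pi.sub_apply, sub_nonneg]
    exact hk.trans ((inG_iff.1 hw.1).2 k)
  · rw [sub_dotProduct, mem_Tw.1 (mem_MA.1 hj).1, sub_nonneg]
    exact (inG_iff.1 hw.1).1 j
  · rw [e]
    exact hw.occ.mono subset_rfl hJ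
  · rwa [e]

open GlobAux in
lemma ndq (ha : Function.Injective a) (hc : ∀ j, c j ≠ 0)
    (H1 : ∀ w : ι → ℕ, Nond (fac (fun i => w i) (∑ j, MvPolynomial.monomial (a j) (c j)))) :
    NDQ a c := by
  intro w hw d m h1 h2 h3
  obtain ⟨hw1, hw2⟩ := inG_iff.1 hw
  obtain ⟨ε, h0, h4⟩ := H48.small (α := κ ⊕ ι)
    ((univ.filter (fun j => j ∉ Tw a w)).disjSum (Fw w))
    (Sum.elim (fun j => w ⬝ᵥ Aq a j - 1) w) (Sum.elim (fun j => d ⬝ᵥ Aq a j - m) d) (by
      rintro (j | i) hx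
      · have h4 := (mem_filter.1 (inl_mem_disjSum.1 hx)).2
        rw [mem_Tw] at h4
        exact sub_pos.2 (lt_of_le_of_ne (hw1 j) (Ne.symm h4))
      · exact (mem_Fw (w := w)).1 (inr_mem_disjSum.1 hx))
  obtain ⟨N, hN, n, hn⟩ := clear_nat (w := w + ε • d) (fun i => by
    by_cases hi : i ∈ Fw w
    · exact (h4 (Sum.inr i) (inr_mem_disjSum.2 hi)).le
    · exact add_nonneg (hw2 i) (mul_nonneg h0.le (h1 i hi)))
  have e : ∀ j, (w + ε • d) ⬝ᵥ Aq a j = w ⬝ᵥ Aq a j + ε * (d ⬝ᵥ Aq a j) := fun j => by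
    rw [add_dotProduct, smul_dotProduct, smul_eq_mul]
  have h5 : ∀ j, j ∉ Tw a w → 1 + ε * m < w ⬝ᵥ Aq a j + ε * (d ⬝ᵥ Aq a j) := fun j hj => by
    have := h4 (Sum.inl j) (inl_mem_disjSum.2 (mem_filter.2 ⟨mem_univ _, hj⟩))
    simp only [Sum.elim_inl] at this
    linarith
  have := H1 n
  rw [fac_rat ha hc hN hn (m := 1 + ε * m) (fun j _ => by
    rw [e]
    by_cases hj : j ∈ Tw a w
    · rw [mem_Tw.1 hj]
      have := mul_le_mul_of_nonneg_left (h2 j hj) h0.le
      linarith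
    · exact (h5 j hj).le) (fun j => by
    rw [mem_filter, e]
    simp only [mem_univ, true_and]
    constructor
    · rintro ⟨h6, h7⟩
      rw [mem_Tw.1 h6, h7]
    · intro h6
      by_cases hj : j ∈ Tw a w
      · rw [mem_Tw.1 hj] at h6
        exact ⟨hj, mul_left_cancel₀ h0.ne' (by linarith)⟩
      · exact absurd h6 (h5 j hj).ne') h3] at this
  exact this.nd

end PsideAux

open SelAux in
theorem sel2 (hs : StabStmt) (hc : ClosStmt) (hl : LiftStmt) : SelStmt2 := by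
  intro ι κ _ _ _ _ a c l hnd hb
  obtain ⟨η, hη, hst⟩ := hs ι (κ ⊕ ι) (vG a) (bG κ ι)
  set m := Fintype.card (κ ⊕ ι) with hm
  have hν : 0 < η / (2 * m + 3) := by positivity
  set ν := η / (2 * m + 3) with hνd
  obtain ⟨ρ, hρ, hnear⟩ := exists_rho (vG a) (half_pos hν)
  have ex : ∀ S : Finset (κ ⊕ ι), ∃ w, (∃ w, InG a w ∧ S ⊆ tg a w) → InG a w ∧ S ⊆ tg a w ∧
      ∀ w', InG a w' → S ⊆ tg a w' → tg a w ⊆ tg a w' := fun S => by
    by_cases h : ∃ w, InG a w ∧ S ⊆ tg a w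
    · obtain ⟨w, hw⟩ := hc ι (κ ⊕ ι) (vG a) (bG κ ι) S h
      exact ⟨w, fun _ => hw⟩
    · exact ⟨0, fun h' => absurd h' h⟩
  choose W hW using ex
  have ex2 : ∀ w, ∃ Z, InP a l w → Free a c (Tw a w) (Fw w) Z := fun w => by
    by_cases h : InP a l w
    · obtain ⟨Z, hZ⟩ := hb w h
      exact ⟨Z, fun _ => hZ⟩
    · exact ⟨∅, fun h' => absurd h' h⟩
  choose Z hZ using ex2
  obtain ⟨S, hS⟩ : ∃ S : ℕ → (ι → ℚ) → Finset (κ ⊕ ι),
      ∀ i x j, j ∈ S i x ↔ x ⬝ᵥ vG a j ≤ bG κ ι j + i * ν :=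
    ⟨fun i x => univ.filter fun j => x ⬝ᵥ vG a j ≤ bG κ ι j + i * ν, fun i x j => by simp⟩
  have Smono : ∀ {i i'} x, i ≤ i' → S i x ⊆ S i' x := fun {i i'} x h j hj => by
    rw [hS] at hj ⊢
    have : (i : ℚ) * ν ≤ i' * ν := mul_le_mul_of_nonneg_right (by exact_mod_cast h) hν.le
    linarith
  have Sstep : ∀ i x x', (∀ j, x' ⬝ᵥ vG a j ≤ x ⬝ᵥ vG a j + ν) → S i x ⊆ S (i + 1) x' :=
    fun i x x' h j hj => by
      rw [hS] at hj ⊢
      push_cast
      linarith [h j]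
  have ok : ∀ i x, InP a l x → i ≤ 2 * m + 3 → ∃ w, InG a w ∧ S i x ⊆ tg a w := fun i x hx hi =>
    hst x _ (fun j => by linarith [hx.1 j]) fun j hj => by
      rw [hS] at hj
      have h1 : (i : ℚ) * ν ≤ (2 * m + 3) * ν :=
        mul_le_mul_of_nonneg_right (by exact_mod_cast hi) hν.le
      rw [hνd, mul_div_cancel₀ _ (by positivity)] at h1
      linarith
  have wP : ∀ i x, InP a l x → i ≤ 2 * m + 3 → InP a l (W (S i x)) := fun i x hx hi =>
    hx.mono (hW _ (ok i x hx hi)).1 (subset_trans (fun j hj => by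
      have h1 := mem_Tt.1 hj
      have h2 : 0 ≤ (i : ℚ) * ν := by positivity
      rw [hS]
      linarith) (hW _ (ok i x hx hi)).2.1)
  have wm : ∀ {A} i x, InP a l x → i ≤ 2 * m + 3 → A ⊆ S i x → tg a (W A) ⊆ tg a (W (S i x)) := by
    intro A i x hx hi hA
    obtain ⟨h1, h2, -⟩ := hW _ (ok i x hx hi)
    exact (hW A ⟨_, h1, hA.trans h2⟩).2.2 _ h1 (hA.trans h2)
  have ex3 : ∀ x, ∃ t ≤ m, S (2 * t + 3) x = S (2 * t + 1) x := fun x =>
    chain_eq (fun t => S (2 * t + 1) x) fun t => Smono x (by omega)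
  choose t ht hSt using ex3
  have mid : ∀ x, S (2 * t x + 2) x = S (2 * t x + 1) x := fun x =>
    subset_antisymm (hSt x ▸ Smono x (by omega)) (Smono x (by omega))
  obtain ⟨J, hJ⟩ : ∃ J : ℕ → (ι → ℚ) → Finset ι, ∀ i x k, k ∈ J i x ↔
      k ∈ Z (W (S (2 * t x + 1) x)) ∧
        ∀ i', i ≤ i' → i' < 2 * t x + 1 → k ∉ Nb a (Tw a (W (S i' x))) (Z (W (S i' x))) := by
    classical
    exact ⟨fun i x => (Z (W (S (2 * t x + 1) x))).filter fun k => ∀ i', i ≤ i' →
      i' < 2 * t x + 1 → k ∉ Nb a (Tw a (W (S i' x))) (Z (W (S i' x))), fun i x k => mem_filter⟩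
  have JZ : ∀ i x, J i x ⊆ Z (W (S (2 * t x + 1) x)) := fun i x k hk => ((hJ i x k).1 hk).1
  have fr : ∀ x, InP a l x → Free a c (Tw a (W (S (2 * t x + 1) x))) (Fw (W (S (2 * t x + 1) x)))
      (Z (W (S (2 * t x + 1) x))) := fun x hx => hZ _ (wP _ x hx (by have := ht x; omega))
  have one : ∀ x x', InP a l x' → Near ρ x x' → tg a (W (S 1 x)) ⊆ tg a (W (S (2 * t x' + 1) x')) := by
    intro x x' hx' h
    refine wm _ x' hx' (by have := ht x'; omega) ?_
    rw [← mid]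
    refine (Sstep 1 x x' fun j => ?_).trans (Smono x' (by omega))
    linarith [(abs_le.1 (hnear x x' h j)).1]
  refine ⟨ν, ρ, J 1, fun x => W (S 1 x), hν, hρ, fun x hx => wP 1 x hx (by omega),
    fun x hx j hj => (hW _ (ok 1 x hx (by omega))).2.1 ((hS 1 x j).2 (by simpa using hj)),
    fun x hx => ?_, fun x x' hx hx' h => ?_, ?_⟩
  · have h0 := ht x
    have key : ∀ i, i ≤ 2 * t x + 1 → ¬ Solv a c (Tw a (W (S i x))) (J i x) := by
      intro i hi
      induction hi using Nat.decreasingInduction with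
      | self =>
        refine fun h => (fr x hx).2.2.1 (h.anti fun k hk => (hJ _ x k).2 ⟨hk, fun i' _ _ => ?_⟩)
        omega
      | of_succ i hi ih =>
        have p1 := wP i x hx (by omega)
        have s1 := wm (2 * t x + 1) x hx (by omega) (Smono (i := i) x (by omega))
        have s2 := wm (2 * t x + 1) x hx (by omega) (Smono (i := i + 1) x (by omega))
        have hF : J (i + 1) x ⊆ Fw (W (S i x)) :=
          (JZ _ x).trans ((fr x hx).1.trans (Fw_anti p1.1 s1))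
        have h1 := PsideAux.down2 hl hnd p1 (wP (i + 1) x hx (by omega)).1
          (wm (i + 1) x hx (by omega) (Smono x (by omega))) hF
          ((JZ _ x).trans ((fr x hx).1.trans (Fw_anti (wP (i + 1) x hx (by omega)).1 s2)))
          ((fr x hx).2.1.mono (Tw_mono s2) (JZ _ x)) ih
        refine fun h => (hZ _ p1).2.2.2 _ hF ((fr x hx).2.1.mono (Tw_mono s1) (JZ _ x)) h1
          (h.anti fun k hk => ?_)
        obtain ⟨h2, h3⟩ := mem_sdiff.1 hk
        rw [hJ] at h2 ⊢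
        refine ⟨h2.1, fun i' h4 h5 => ?_⟩
        rcases h4.eq_or_lt with rfl | h4
        · exact h3
        · exact h2.2 i' h4 h5
    exact key 1 (by omega)
  · exact (JZ 1 x').trans ((fr x' hx').1.trans (Fw_anti (wP 1 x hx (by omega)).1 (one x x' hx' h)))
  · have key : ∀ x x' x'', InP a l x' → InP a l x'' → Near ρ x x' → Near ρ x x'' → t x' ≤ t x'' →
        Lin a (Tw a (W (S 1 x))) (J 1 x' ∪ J 1 x'') := by
      intro x x' x'' h1 h2 n1 n2 hle
      have l1 := (fr x' h1).2.1.mono (Tw_mono (one x x' h1 n1)) subset_rfl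
      have l2 := (fr x'' h2).2.1.mono (Tw_mono (one x x'' h2 n2)) subset_rfl
      have e : S (2 * t x' + 2) x'' = S (2 * t x' + 1) x' := by
        refine subset_antisymm (hSt x' ▸ Sstep _ x'' x' fun j => ?_) (Sstep _ x' x'' fun j => ?_)
        all_goals linarith [abs_le.1 (hnear x x' n1 j), abs_le.1 (hnear x x'' n2 j)]
      have cross : ∀ j ∈ Tw a (W (S 1 x)), ∀ i ∈ J 1 x', ∀ k ∈ J 1 x'', a j i ≠ 0 → a j k ≠ 0 →
          i = k := by
        intro j hj i hi k hk f1 f2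
        have hkZ : k ∈ Z (W (S (2 * t x' + 1) x')) := by
          rcases hle.eq_or_lt with h | h
          · rw [← e, h, mid]
            exact JZ 1 x'' hk
          · have := ((hJ 1 x'' k).1 hk).2 (2 * t x' + 2) (by omega) (by omega)
            rw [e, mem_Nb] at this
            by_contra hn
            exact this ⟨hn, j, Tw_mono (one x x' h1 n1) hj, f2, i, JZ 1 x' hi, f1⟩
        by_contra hne
        exact f2 (l1.eq_zero hj (JZ 1 x' hi) hkZ (Ne.symm hne) f1)
      refine lin_of_pairs (fun j hj i hi => ?_) fun j hj i hi k hk f1 f2 => ?_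
      · by_cases f : a j i = 0
        · omega
        · rcases mem_union.1 hi with hi | hi
          · exact (l1.eq_one hj (JZ 1 x' hi) f).le
          · exact (l2.eq_one hj (JZ 1 x'' hi) f).le
      · by_contra hne
        rcases mem_union.1 hi with hi | hi <;> rcases mem_union.1 hk with hk | hk
        · exact f2 (l1.eq_zero hj (JZ 1 x' hi) (JZ 1 x' hk) (Ne.symm hne) f1)
        · exact hne (cross j hj i hi k hk f1 f2)
        · exact hne (cross j hj k hk i hi f2 f1).symm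
        · exact f2 (l2.eq_zero hj (JZ 1 x'' hi) (JZ 1 x'' hk) (Ne.symm hne) f1)
    intro x x' x'' _ h1 h2 n1 n2
    rcases le_total (t x') (t x'') with h | h
    · exact key x x' x'' h1 h2 n1 n2 h
    · rw [union_comm]
      exact key x x'' x' h2 h1 n2 n1 h

open GridAux in
theorem grid2 (hSel : SelStmt2) (hCols : ColsStmt) (hGeo : GeoStmt) (hBox : BoxStmt)
    (hSum : SumStmt) (hCol : ColStmt) : GridStmt2 := by
  classical
  intro ι κ _ _ _ _ p _ a c l hN hM hB
  obtain ⟨M1, hM1⟩ := hM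
  obtain ⟨ν, ρ, V, σ, hs⟩ := hSel ι κ a _ l hN hB
  obtain ⟨M2, hM2⟩ := hCol ι κ p a c
  have hν := hs.nupos
  obtain ⟨C, hC1, hC⟩ : ∃ C : ℚ, 1 ≤ C ∧ ∀ j, ∑ i, (a j i : ℚ) ≤ C := by
    have h0 : ∀ j, (0 : ℚ) ≤ ∑ i, (a j i : ℚ) := fun j => sum_nonneg (fun _ _ => Nat.cast_nonneg _)
    refine ⟨1 + ∑ j, ∑ i, (a j i : ℚ), le_add_of_nonneg_right (sum_nonneg (fun j _ => h0 j)),
      fun j => ?_⟩
    have := single_le_sum (f := fun j => ∑ i, (a j i : ℚ)) (fun j _ => h0 j) (mem_univ j)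
    linarith
  obtain ⟨r, hr, hr1⟩ : ∃ r : ℚ, 0 < r ∧ 3 * C * C * r = ν :=
    ⟨ν / (3 * C * C), by positivity, by field_simp⟩
  have hCr : 0 < C * r := by positivity
  have hCr1 : C * r ≤ C * C * r := by nlinarith
  obtain ⟨h, hh, hU⟩ := hCols ι κ a _ l ν ρ V σ hs r hr
  obtain ⟨J, hJ⟩ : ∃ J : ℕ, l < J * h := by
    have h0 : (0 : ℝ) < h := by exact_mod_cast hh
    obtain ⟨J, hJ⟩ := exists_nat_gt (l / h)
    exact ⟨J, (div_lt_iff₀ h0).1 hJ⟩
  obtain ⟨o, ho, hg⟩ := hGeo ι κ a l h J hh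
  obtain ⟨U, hU⟩ := hU o J ho hJ
  obtain ⟨N, hN1⟩ := exists_nat_gt ((M1 + M2 + 2 : ℚ) / (C * r))
  rw [div_lt_iff₀ hCr] at hN1
  set g : (ι → Fin (J + 2)) → ℕ → ℂ := fun idx θ => ∑' L : ι → ℕ, if InCell h o idx θ L then
      ((p : ℂ)⁻¹) ^ (∑ k, L k) * EB p a c ∅ (zz a θ L) else 0 with hgdef
  have key : Good p l (fun θ => ∑ idx : ι → Fin (J + 2),
      (1 - ∑ B : Finset ι, if idx ∈ U B then (1 : ℂ) else 0) * g idx θ) := by
    refine Good.sum _ (fun idx _ => ?_)
    by_cases h1 : ∃ x, InP a l x ∧ InBox h o idx x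
    · obtain ⟨B, h2, h3⟩ := hU.uniq idx h1
      rw [sum_eq_single B (fun B' _ hne => if_neg (fun h4 => hne (h3 B' h4)))
        (fun h => absurd (mem_univ _) h), if_pos h2]
      simpa using Good.zero
    · exact (hBox ι κ p a c l h o J M1 hM1 hg idx h1).const_mul _
  refine key.eventually (N + 1) (fun θ hθ => ?_)
  obtain ⟨h1, h2⟩ := hSum ι κ p a c θ
  have h3 : EB p a c univ (zz a θ 0) = ∑ idx, g idx θ := by
    have h4 := hasSum_cells hh o J θ h1.summable Set.univ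
    have h5 : {L | ∃ idx ∈ (Set.univ : Set (ι → Fin (J + 2))), InCell h o idx θ L} =
        Set.univ := by
      ext L
      simpa using exists_cell h o J θ L
    rw [h5, Set.indicator_univ] at h4
    rw [h1.unique h4]
    simp [hgdef]
  have h4 : ∀ B, ∑ idx, (if idx ∈ U B then g idx θ else 0) = 0 := by
    intro B
    refine (hasSum_cells hh o J θ h1.summable (U B)).unique (h2 B _ ?_ ?_)
    · rintro L L' hL ⟨idx, h5, h6⟩
      obtain ⟨idx', h7⟩ := exists_cell h o J θ L'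
      exact ⟨idx', hU.inv B idx idx' (fun k hk => cell_eq hh h6 h7 (hL k hk)) h5, h7⟩
    · rintro L ⟨idx, h5, h6⟩
      obtain ⟨x, hx, hBx, hl, hv, hw⟩ := hU.wit B idx h5
      have hθ0 : (0 : ℚ) < θ := by exact_mod_cast (by omega : 0 < θ)
      have hθ1 : (N : ℚ) ≤ θ := by exact_mod_cast (by omega : N ≤ θ)
      obtain ⟨L0, h7, h8, h9⟩ := column hs hC hr.le (ρ' := 2 * (C * r)) (by positivity)
        (by nlinarith) (by nlinarith) hx hBx hl θ L (fun k hk => by
          have h10 := hw _ (inBox_of_cell (by omega) h6) k hk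
          have h11 : (L k : ℚ) - x k * θ = ((L k : ℚ) / θ - x k) * θ := by field_simp
          rw [h11, abs_mul, abs_of_pos hθ0]
          exact mul_le_mul_of_nonneg_right h10 hθ0.le)
      have h10 : ∀ z : ℤ, θ * (2 * (C * r) - C * r) - 1 ≤ (z : ℚ) → (M1 : ℤ) + M2 < z := by
        intro z hz
        have h11 : (N : ℚ) * (C * r) ≤ θ * (C * r) := mul_le_mul_of_nonneg_right hθ1 hCr.le
        have h12 : (((M1 : ℤ) + M2 : ℤ) : ℚ) < z := by
          push_cast
          nlinarith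
        exact_mod_cast h12
      refine ⟨L0, h7, hM2 _ (Fw (σ x)) B (hN _ (hs.inP x hx).1) hBx hl hv θ L0 h8
        (fun i hi => ?_), fun L' hL' hne => ?_⟩
      · obtain ⟨j, hj, h0, h11⟩ := h9 i hi
        have := h10 _ (h11 L0 h7 le_rfl)
        exact ⟨j, hj, h0, by omega⟩
      · obtain ⟨i, hi⟩ := not_forall.1 hne
        have hiB : i ∈ B := by
          by_contra h11
          exact hi (by rw [h7 i h11, hL' i h11])
        obtain ⟨j, _, _, h11⟩ := h9 i hiB
        have := h10 _ (h11 L' hL' (not_le.1 hi).le)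
        exact hM1 θ L' j (by omega)
  rw [h3]
  simp only [sub_mul, one_mul, sum_sub_distrib, sum_mul, ite_mul, zero_mul]
  rw [sum_comm, sum_eq_zero (fun B _ => h4 B), sub_zero]

open GlobAux in
theorem glob2 (hD : DStmt2) (hC : CertStmt) (hF : FreeStmt) (hG : GridStmt2) : GlobStmt2 := by
  intro ι κ _ _ _ _ a c b p g hp ha hc hg H1 hdeg hbe l hl
  have : Fact p.Prime := ⟨hp⟩
  subst hg
  have hb1 : b.eval (-1) = 0 := by
    obtain ⟨d, P, hP, heq⟩ := hbe
    exact root_neg_one hdeg hP heq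
  have hc' : ∀ j, (c j : ℂ) ≠ 0 := fun j => by exact_mod_cast hc j
  have hndp := PsideAux.ndq ha hc' H1
  have hcast : ∀ (w : Option ι → ℕ) j, ((∑ i, w i * Aof a j i : ℕ) : ℤ) =
      w none + wgt (fun i => w (some i)) (a j) := fun w j => by
    rw [← sum_Aof (fun i => w i)]
    push_cast
    rfl
  have hnd : ∀ w J, J.Nonempty → IsFace (Aof a) w J → ND (Aof a) (fun j => (c j : ℂ)) J := by
    rintro w J hJ ⟨N, h1, h2⟩
    have := H1 (fun i => w (some i))
    rw [fac_poly ha hc' _ (J' := J) (N := N - w none) (fun j _ => by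
      have := hcast w j
      have := h1 j
      omega) (fun j => by
      have := hcast w j
      rw [h2]
      simp only [mem_univ, true_and]
      omega) hJ] at this
    exact this.nd
  obtain ⟨M, hM⟩ := phase (p := p) hnd
  obtain ⟨b', hb'⟩ : ∃ b', b = (Polynomial.X + 1) * b' := by
    have h1 : Polynomial.X - Polynomial.C (-1 : ℂ) ∣ b := Polynomial.dvd_iff_isRoot.2 hb1
    have h2 : Polynomial.X + 1 ∣ b := by simpa using h1
    exact h2
  have hgood := hG ι κ p a c l hndp ⟨M, fun θ L j hj => by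
    have e : ∀ j, ∑ o, (((fun o : Option ι => o.elim 0 L) o : ℕ) : ℤ) * Aof a j o =
        ∑ i, (L i : ℤ) * a j i := fun j => by
      simp [Fintype.sum_option, Aof]
    have h1 := hM θ (fun o => o.elim 0 L) j (by rw [e]; exact hj)
    simp only [e] at h1
    rw [EB, map_empty, sdiff_empty]
    exact h1⟩ (fun w hw => by
    obtain ⟨τ, μ, hcert⟩ := hC ι κ a _ _ hw.occ
    refine hF ι κ a _ _ _ τ μ (hndp w hw.1) hw.occ hcert
      (hD ι κ a _ b' l hndp (hb' ▸ hbe) (fun h => hl ?_) w hw τ μ hcert)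
    rw [hb', Polynomial.eval_mul, h, mul_zero])
  have hp1 : (1 : ℝ) < p := by exact_mod_cast hp.one_lt
  have hp0 : (p : ℂ) ≠ 0 := by exact_mod_cast hp.ne_zero
  refine Good.of_shift (p : ℂ)⁻¹ 1 (fun T hT h => hl ?_) (hgood.eventually 1 (fun n hn => ?_))
  · have h1 : T = p := by
      rw [pow_one, inv_mul_eq_one₀ hp0] at h
      exact h.symm
    rw [h1, Complex.norm_natCast] at hT
    have h2 : l = 1 := by
      have h3 : (p : ℝ) ^ (1 : ℝ) = (p : ℝ) ^ l := by rw [Real.rpow_one]; exact hT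
      exact ((Real.rpow_right_inj (by linarith) hp1.ne').1 h3).symm
    rw [h2]
    simpa using hb1
  · have e1 : (univ \ (univ : Finset ι).map Function.Embedding.some : Finset (Option ι)) =
        insert none ∅ := by
      ext o
      cases o <;> simp
    have e2 : zz a n 0 = n • z0 κ := by
      ext j
      simp [zz, z0]
    have e3 : n • z0 κ - yv (Aof a) none = (n - 1) • z0 κ := by
      ext j
      simp [z0, yv, Aof, Nat.cast_sub hn]
    rw [if_pos hn, EB, e1, ← EE_rec (fun _ => ker_chi) _ (notMem_empty _), act_uu, e2, e3,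
      EE_ray, EE_ray, mean_DD, mean_DD]

end Pool.Agent.MP_5d9b3c_ag.H10N
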