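import Pool.Agent.MP_5d9b3c_ag.H10N.Basic

/-!
From the leading terms to the operators, for an integer valued degree.
-/

namespace Pool.Agent.MP_5d9b3c_ag.H10N

open Finset Pool.Agent.MP_5d9b3c_ag.H22 Pool.Agent.MP_5d9b3c_ag.H48N

theorem redz : RedZStmt := by
  intro X ι _ _ D F Y N m k hD hF
  have hc : ∀ (J : Finset ι) i, i ∉ J → m * (#(insert i J) : ℕ) = m * (#J : ℕ) + m :=
    fun J i hi => by
      rw [card_insert_of_notMem hi]
      push_cast
      ring
  have sLa : ∀ n, Stab F (La Y N m n) := fun n J i hi u hu =>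
    Su_mono (fun v hv => ⟨hv.1, by have := hu.2; have := hv.2; have := hc J i hi; omega⟩)
      (hF J i hi u hu.1).1
  have sCo : ∀ n, Stab F (fun J => Y J \ La Y N m n J) := fun n J i hi u hu =>
    Su_mono (fun v hv => ⟨hv.1, fun h => hu.2 ⟨hu.1, by
      have := h.2; have := hv.2; have := hc J i hi; omega⟩⟩) (hF J i hi u hu.1).1
  have dLa : ∀ n (J : Finset ι), ∀ i ∉ J, ∀ u ∈ La Y N m n (insert i J),
      D i (Finsupp.single u 1) - F i (Finsupp.single u 1) ∈ Su (Lo Y N m n J) :=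
    fun n J i hi u hu => Su_mono (fun v hv => ⟨hv.1, by
      have := hu.2; have := hv.2; have := hc J i hi; omega⟩) (hF J i hi u hu.1).2
  have sLo : ∀ n, Stab D (Lo Y N m n) := fun n J i hi u hu => by
    have h1 : F i (Finsupp.single u 1) ∈ Su (Lo Y N m n J) :=
      Su_mono (fun v hv => ⟨hv.1, by
        have := hu.2; have := hv.2; have := hc J i hi; omega⟩) (hF J i hi u hu.1).1
    have h2 : D i (Finsupp.single u 1) - F i (Finsupp.single u 1) ∈ Su (Lo Y N m n J) :=
      Su_mono (fun v hv => ⟨hv.1, by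
        have := hu.2; have := hv.2; have := hc J i hi; omega⟩) (hF J i hi u hu.1).2
    simpa using add_mem h1 h2
  have up : ∀ n (J : Finset ι), Lo Y N m (n + 1) J ⊆ La Y N m n J ∪ Lo Y N m n J := by
    intro n J u hu
    rcases (Int.lt_add_one_iff.1 hu.2).lt_or_eq with h | h
    · exact Or.inr ⟨hu.1, h⟩
    · exact Or.inl ⟨hu.1, h⟩
  have dis : ∀ n (J : Finset ι), ∀ u ∈ La Y N m n J, u ∉ Lo Y N m n J :=
    fun n J u hu h => h.2.ne hu.2
  have cov : ∀ n (J : Finset ι), Y J ⊆ La Y N m n J ∪ Y J \ La Y N m n J := by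
    intro n J u hu
    by_cases h : u ∈ La Y N m n J
    · exact Or.inl h
    · exact Or.inr ⟨hu, h⟩
  refine ⟨fun hE n => ?_, fun eLo u0 hu0 e d1 i1 h1 => ?_⟩
  · have eLa : ∀ n, Ex F k (La Y N m n) (emp X ι) := by
      rcases hE with hE | hE
      · exact hE
      · intro n
        exact Ex.inter (W := Y) (Z := fun J => Y J \ La Y N m n J)
          (fun e d1 i1 i2 => by
            obtain ⟨e1, d2, i3, -, i4⟩ := i1.split (Y := La Y N m n)
              (Z := fun J => Y J \ La Y N m n J) d1 (cov n)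
            have i5 : In (fun J => Y J \ La Y N m n J) (kd F e1) := by
              simpa [kd_sub] using i2.sub (i4.kd (sCo n))
            obtain ⟨e2, d3, i6, i7⟩ := hE e1 d2 (i3.mono (fun J u hu => hu.1))
              (((i3.kd (sLa n)).inter i5).mono (fun J u hu => hu.2.2 hu.1))
            rw [in_emp, sub_eq_zero] at i7
            exact ⟨e2, d3, i6, by rwa [← i7]⟩)
          (sLa n) (sCo n) (fun J u hu => hu.2.2 hu.1) (fun J u hu => hu.elim) (cov n)
          (fun J u hu => hu.1)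
    have h := Ex.chain (k := k) (Y := Y) hD (fun j => Lo Y N m (n + (j : ℕ)))
      (fun j => by
        have e1 : n + ((j + 1 : ℕ) : ℤ) = n + (j : ℕ) + 1 := by push_cast; ring
        rw [e1]
        exact (eLa (n + (j : ℕ))).chg (sLo _) (sLa _) (up _)
          (fun J u hu => ⟨hu.1, by have := hu.2; omega⟩) (dis _) (dLa _))
      (fun j J v hv => ⟨hv.1, by have := hv.2; push_cast; omega⟩)
      (fun j J v hv => hv.1)
      (fun J u hu => ⟨(N u + m * (#J : ℕ) + 1 - n).toNat, hu, by omega⟩)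
    simpa using h
  · have h2 : Finsupp.single u0 (1 : ℂ) ∈ Su (La Y N m (N u0) (∅ : Finset ι)) :=
      single_mem_Su (show u0 ∈ La Y N m (N u0) (∅ : Finset ι) from ⟨hu0, by simp⟩) 1
    obtain ⟨e2, d2, -, i2⟩ := eLo (N u0 + 1) e d1 i1 (d1.kd.in_zero (by
      have h3 : Finsupp.single u0 (1 : ℂ) ∈ Su (Lo Y N m (N u0 + 1) (∅ : Finset ι)) :=
        single_mem_Su (show u0 ∈ Lo Y N m (N u0 + 1) (∅ : Finset ι) from ⟨hu0, by simp⟩) 1
      have h4 : kd D e ∅ - Finsupp.single u0 1 ∈ Su (Lo Y N m (N u0 + 1) (∅ : Finset ι)) :=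
        Su_mono (fun v hv => ⟨hv.1, by have := hv.2; omega⟩) h1
      simpa using add_mem h4 h3))
    obtain ⟨e1, d3, i3, -, i4⟩ := i2.split (d1.sub d2.kd) (up _)
    refine ⟨e1, d3, i3.mono (fun J u hu => hu.1), ?_⟩
    have h4 := i4.kd (sLo _) ∅
    rw [kd_sub, kd_sub_kd hD] at h4
    have h5 := i3.kd_sub (dLa _) ∅
    have h6 : kd F e1 ∅ - Finsupp.single u0 1 ∈ Su (Lo Y N m (N u0) (∅ : Finset ι)) := by
      have := sub_mem (sub_mem h1 h4) h5
      simpa using this
    have h7 := sub_mem (i3.kd (sLa _) ∅) h2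
    exact sub_eq_zero.1 (Su_empty (Su_mono (fun u hu => dis _ _ u hu.1 hu.2) (Su_inter h7 h6)))

end Pool.Agent.MP_5d9b3c_ag.H10N
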