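import Pool.Agent.MP_5d9b3c_ag.H10N.Basic
import Pool.Agent.MP_5d9b3c_ag.H48N.Shell

/-!
The line shelling of a fan with a lineality space.
-/

namespace Pool.Agent.MP_5d9b3c_ag.H10N

open Finset Pool.Agent.MP_5d9b3c_ag.H22 Pool.Agent.MP_5d9b3c_ag.H48N

namespace Shell2Aux

open ShellAux hiding TA mem_TA faceND lay_iff

variable {ι κ : Type} [Fintype ι] [LinearOrder ι] [Fintype κ] [DecidableEq κ] {B : κ → Pt ι}
  {c : κ → ℂ} {K A : Finset ι} {L : Finset κ} {v : κ → ℚ} {Ξ : Set ℂ} {W : Finset (ι → ℚ)}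
  {wc : (ι → ℚ) → ι → ℚ} {q y : Vq ι} {ψ z o : ι → ℚ} {u : Pt ι} {b : κ}

/-- The tight vectors that vanish outside `A`. -/
def TA (B : κ → Pt ι) (v : κ → ℚ) (A : Finset ι) (ψ : ι → ℚ) : Finset κ :=
  (Tt (bx B) v ψ).filter (fun b => ind A ⬝ᵥ bx B b = 0)

lemma mem_TA (h : Fan2 B c K L v Ξ W wc) (hK : K ⊆ A) :
    b ∈ TA B v A ψ ↔ ψ ⬝ᵥ bx B b = v b ∧ ∀ i ∉ A, bx B b i = 0 := by
  rw [TA, mem_filter, mem_Tt]
  exact and_congr_right (fun _ =>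
    ⟨zero_of_ind (fun i hi => h.bx_nonneg b (fun h1 => hi (hK h1))), ind_zero⟩)

/-- Every face of a layer cone is a tight set. -/
lemma face_eq (h : Fan2 B c K L v Ξ W wc) (hK : K ⊆ A) (hψ : ψ ∈ W) (n : Vq ι)
    (hn : ∀ b ∈ TA B v A ψ, 0 ≤ n ⬝ᵥ Bq B b) : ∃ ψ', Feas (bx B) v ψ' ∧
      Tt (bx B) v ψ' = (TA B v A ψ).filter (fun b => n ⬝ᵥ Bq B b = 0) := by
  have hi : ∀ b, 0 ≤ ind A ⬝ᵥ bx B b := fun b =>
    ind_nonneg (fun i hi => h.bx_nonneg b (fun h1 => hi (hK h1)))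
  obtain ⟨d, hd⟩ : ∃ d : ι → ℚ, ∀ b ∈ TA B v A ψ, d ⬝ᵥ bx B b = n ⬝ᵥ Bq B b := by
    refine ⟨(fun i => n (some i)) + n none • wc ψ, fun b hb => ?_⟩
    rw [add_dotProduct, smul_dotProduct, mem_Tt.1 (h.csub ψ hψ (mem_filter.1 hb).1)]
    simp [dotProduct, Fintype.sum_option, add_comm]
  obtain ⟨ε, hε, h1⟩ := H48.small (TA B v A ψ)ᶜ
    (fun b => ψ ⬝ᵥ bx B b + ind A ⬝ᵥ bx B b - v b) (fun b => d ⬝ᵥ bx B b) (fun b hb => by
      have h2 := h.feas ψ hψ b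
      have h3 := hi b
      by_contra h4
      exact mem_compl.1 hb (mem_filter.2 ⟨mem_Tt.2 (by linarith), by linarith⟩))
  have e : ∀ b, (ψ + ind A + ε • d) ⬝ᵥ bx B b =
      ψ ⬝ᵥ bx B b + ind A ⬝ᵥ bx B b + ε * (d ⬝ᵥ bx B b) := fun b => by
    rw [add_dotProduct, add_dotProduct, smul_dotProduct, smul_eq_mul]
  have hf : Feas (bx B) v (ψ + ind A + ε • d) := fun b => by
    rw [e]
    by_cases hb : b ∈ TA B v A ψ
    · have h2 := mul_nonneg hε.le (hn b hb)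
      rw [hd b hb]
      linarith [h.feas ψ hψ b, hi b]
    · linarith [h1 b (mem_compl.2 hb)]
  have hT : Tt (bx B) v (ψ + ind A + ε • d) =
      (TA B v A ψ).filter (fun b => n ⬝ᵥ Bq B b = 0) := by
    ext b
    rw [mem_Tt, e, mem_filter]
    by_cases hb : b ∈ TA B v A ψ
    · rw [hd b hb, mem_Tt.1 (mem_filter.1 hb).1, (mem_filter.1 hb).2]
      simp [hb, hε.ne']
    · have := h1 b (mem_compl.2 hb)
      exact ⟨fun h2 => by linarith, fun h2 => absurd h2.1 hb⟩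
  exact ⟨_, hf, hT⟩

lemma off_TA (h : Fan2 B c K L v Ξ W wc) (hK : K ⊆ A) (hb : b ∈ TA B v A ψ) {i : ι}
    (hi : i ∉ A) : B b (some i) = 0 := by
  have h4 := ((mem_TA h hK).1 hb).2 i hi
  unfold bx at h4
  exact_mod_cast h4

lemma L_sub (h : Fan2 B c K L v Ξ W wc) (hK : K ⊆ A) (hψ : ψ ∈ W) : L ⊆ TA B v A ψ :=
  fun b hb => (mem_TA h hK).2 ⟨mem_Tt.1 (h.L_sub (h.feas ψ hψ) hb), fun i hi => by
    unfold bx
    rw [h.lin.off hb (fun h1 => hi (hK h1)), Int.cast_zero]⟩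

/-- The main parts of all faces of a layer cone are nondegenerate. -/
lemma faceM (h : Fan2 B c K L v Ξ W wc) (hK : K ⊆ A) (hψ : ψ ∈ W) :
    FaceM B c A (TA B v A ψ) L := by
  intro n hn hne
  obtain ⟨ψ', hf, hT⟩ := face_eq h hK hψ n hn
  intro x hx
  obtain ⟨i, -, h2⟩ := h.nd _ hf (by rwa [hT]) x hx
  rw [hT] at h2
  refine ⟨i, ?_, h2⟩
  by_contra h3
  refine h2 (sum_eq_zero (fun b hb => ?_))
  simp [off_TA h hK (mem_filter.1 (mem_sdiff.1 hb).1).1 h3]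

lemma crit (h : Fan2 B c K L v Ξ W wc) (hK : K ⊆ A) (hψ : ψ ∈ W) (n : Vq ι)
    (hn : ∀ b ∈ TA B v A ψ, 0 ≤ n ⬝ᵥ Bq B b) :
    Crit B c A K ((TA B v A ψ).filter (fun b => n ⬝ᵥ Bq B b = 0)) Ξ := by
  obtain ⟨ψ', hf, hT⟩ := face_eq h hK hψ n hn
  intro x hx h1
  refine h.crit _ hf x hx (fun i _ => ?_)
  rw [hT]
  by_cases h3 : i ∈ A
  · exact h1 i h3
  · refine sum_eq_zero (fun b hb => ?_)
    simp [off_TA h hK (mem_filter.1 hb).1 h3]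

lemma hasDeg (h : Fan2 B c K L v Ξ W wc) (hψ : ψ ∈ W) : HasDeg B K (TA B v A ψ \ L) := by
  obtain ⟨n, h1, h2⟩ := h.deg ψ hψ
  exact ⟨n, h1, fun b hb => h2 b (sdiff_subset_sdiff (filter_subset _ _) Subset.rfl hb)⟩

/-- The rank is large unless a functional that is nonzero on `A` kills the vectors. -/
lemma rk_or2 (h : Lin0 B K L) (hK : K ⊆ A) (T : Finset κ) : ∃ f : ι → ℚ,
    (∀ b ∈ T, f ⬝ᵥ bx B b = 0) ∧
      ((∃ k ∈ A, f k ≠ 0) ∨ #A ≤ rk (Bq (slB K B)) (T \ L) + #K) := by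
  obtain ⟨f, h1, h2⟩ := rk_or (slB K B) (A \ K) (T \ L)
  refine ⟨fun k => if k ∈ K then 0 else f k, fun b hb => ?_, ?_⟩
  · by_cases h3 : b ∈ L
    · exact h.dotx (fun k hk => if_pos hk) h3
    · refine Eq.trans (sum_congr rfl (fun k _ => ?_)) (h1 b (mem_sdiff.2 ⟨hb, h3⟩))
      by_cases hk : k ∈ K
      · simp [bx, slB, sl_mem hk, hk]
      · simp [bx, slB, sl_not hk, hk]
  · rcases h2 with ⟨k, h3, h4⟩ | h3
    · exact Or.inl ⟨k, (mem_sdiff.1 h3).1, by simpa [(mem_sdiff.1 h3).2] using h4⟩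
    · have := card_sdiff_add_card_eq_card hK
      exact Or.inr (by omega)

/-- A layer is the set of lattice points of a shifted cone. -/
lemma lay_iff (h : Fan2 B c K L v Ξ W wc) (hK : K ⊆ A) (hψ : ψ ∈ W) (ho : ∀ k, 0 ≤ o k)
    (ho' : ∀ k ∉ A, o k = 0) (q y : Vq ι) : ∃ ε0 : ℚ, 0 < ε0 ∧ ∀ ε, 0 < ε → ε ≤ ε0 → ∀ u,
      u ∈ CY B q (TA B v A ψ) (y - ε • qq (wc ψ ⬝ᵥ o) o) ↔ Lay K A W wc q y o ψ u := by
  obtain ⟨ε0, h0, hg⟩ := gap_hat (γ := W ⊕ ι)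
    (Sum.elim (fun ψ' => qq 0 (ψ'.1 - ψ)) (fun k => qq 0 (Pi.single k 1)))
    (Sum.elim (fun ψ' => (ψ'.1 - ψ) ⬝ᵥ o) o) q y
  refine ⟨ε0, h0, fun ε hε hε0 u => ?_⟩
  have g1 : ∀ ψ' ∈ W, (ψ ⬝ᵥ pp q y u < ψ' ⬝ᵥ pp q y u →
      ψ ⬝ᵥ pp q y u + ε * (ψ ⬝ᵥ o) < ψ' ⬝ᵥ pp q y u + ε * (ψ' ⬝ᵥ o)) ∧
      (ψ' ⬝ᵥ pp q y u < ψ ⬝ᵥ pp q y u →
      ψ' ⬝ᵥ pp q y u + ε * (ψ' ⬝ᵥ o) < ψ ⬝ᵥ pp q y u + ε * (ψ ⬝ᵥ o)) := fun ψ' hψ' => by
    have h1 := hg ε hε.le hε0 (Sum.inl ⟨ψ', hψ'⟩) u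
    simp only [Sum.elim_inl, qq_dot, zero_mul, zero_add, pp_eq, sub_dotProduct] at h1
    exact ⟨fun h2 => by linarith [h1.1 (by linarith)], fun h2 => by linarith [h1.2 (by linarith)]⟩
  have g2 : ∀ k, pp q y u k < 0 → pp q y u k + ε * o k < 0 := fun k => by
    have h1 := (hg ε hε.le hε0 (Sum.inr k) u).2
    simp only [Sum.elim_inr, qq_dot, zero_mul, zero_add, pp_eq, single_dotProduct, one_mul] at h1
    exact h1
  have e : ∀ ψ' : ι → ℚ, ψ' ⬝ᵥ (pp q y u + ε • o) = ψ' ⬝ᵥ pp q y u + ε * (ψ' ⬝ᵥ o) := fun ψ' => by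
    rw [dotProduct_add, dotProduct_smul, smul_eq_mul]
  have hsub : TA B v A ψ ⊆ Tt (bx B) v ψ := filter_subset _ _
  have hlev : ∀ b ∈ Tt (bx B) v ψ, wc ψ ⬝ᵥ bx B b = lev B b := fun b hb =>
    mem_Tt.1 (h.csub ψ hψ hb)
  change Cone _ _ _ ↔ _
  rw [shift_eq]
  constructor
  · intro hc
    have h1 := hc.proj
    rw [shift_proj] at h1
    have h2 : ∀ k ∉ K, 0 ≤ pp q y u k := fun k hk => by
      by_contra h3
      have h4 := g2 k (not_le.1 h3)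
      have h5 := h1.dot_nonneg (n := Pi.single k 1) (fun b _ => by
        simpa using h.bx_nonneg b hk)
      simp only [single_dotProduct, one_mul, Pi.add_apply, Pi.smul_apply, smul_eq_mul] at h5
      linarith
    have h3 : ∀ ψ' ∈ W, ψ ⬝ᵥ pp q y u + ε * (ψ ⬝ᵥ o) ≤ ψ' ⬝ᵥ pp q y u + ε * (ψ' ⬝ᵥ o) :=
      fun ψ' hψ' => by
        rw [← e, ← e]
        exact (h1.mono hsub).le_of_feas (h.feas ψ' hψ')
    have h4 : Mn W (pp q y u) ψ := fun ψ' hψ' => by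
      by_contra h5
      linarith [(g1 ψ' hψ').2 (not_le.1 h5), h3 ψ' hψ']
    refine ⟨h.mem_GG hψ (Cone.lift (h.cone_of_min h2 (h.feas ψ hψ) h4) hlev ?_), fun i hi => ?_,
      h4, fun ψ' hψ' h5 => ?_⟩
    · rw [← shift_hw (o := o) ε]
      exact hc.dot_zero (fun b hb => by rw [hw_Bq, hlev b (hsub hb), sub_self])
    · have h5 := h1.dot_zero (n := Pi.single i 1) (fun b hb => by
        simpa using ((mem_TA h hK).1 hb).2 i hi)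
      simpa [ho' i hi] using h5
    · have h6 := h3 ψ' hψ'
      have h7 := h5 ψ hψ
      exact le_of_mul_le_mul_left (by linarith) hε
  · rintro ⟨h1, h2, h3, h4⟩
    refine Cone.lift (w := wc ψ) ?_ (fun b hb => hlev b (hsub hb)) ?_
    · rw [shift_proj]
      refine (h.cone_of_min (p := pp q y u + ε • o)
        (fun k hk => add_nonneg (h1.1.1 k hk) (mul_nonneg hε.le (ho k))) (h.feas ψ hψ)
        (fun ψ' hψ' => ?_)).face (fun b _ =>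
          ind_nonneg (fun i hi => h.bx_nonneg b (fun h1 => hi (hK h1))))
        (ind_zero (fun i hi => by simp [h2 i hi, ho' i hi])).le
      rw [e, e]
      rcases (h3 ψ' hψ').lt_or_eq with h5 | h5
      · exact ((g1 ψ' hψ').1 h5).le
      · have h6 := h4 ψ' hψ' (fun ψ'' h7 => by rw [← h5]; exact h3 ψ'' h7)
        have := mul_le_mul_of_nonneg_left h6 hε.le
        linarith
    · rw [shift_hw]
      exact h.hw_zero h1 hψ h3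

end Shell2Aux

open Shell2Aux in
open ShellAux hiding TA mem_TA faceND lay_iff in
theorem shell2 (hCM : CMLStmt) (hGen : GenStmt) : ShellStmt2 := by
  intro ι κ _ _ _ _ B c K L v Ξ W wc h q y A hK k hk
  classical
  choose f hf hf' using rk_or2 h.lin hK
  obtain ⟨o, ho1, ho2, ho3⟩ := hGen ι ((W × W) ⊕ Finset κ) A
    (Sum.elim (fun t => t.1.1 - t.2.1) f) 0 1 one_pos
  have ho : ∀ k, 0 ≤ o k := fun k => by
    by_cases h1 : k ∈ A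
    · exact (ho1 k h1).1.le
    · exact (ho2 k h1).ge
  have agree : ∀ ψ ∈ W, ∀ ψ' ∈ W, ψ ⬝ᵥ o = ψ' ⬝ᵥ o → ∀ z : ι → ℚ, (∀ i ∉ A, z i = 0) →
      ψ ⬝ᵥ z = ψ' ⬝ᵥ z := by
    intro ψ h1 ψ' h2 h3 z hz
    have h4 : ∀ k ∈ A, ψ k = ψ' k := by
      intro k hk
      by_contra h5
      refine ho3 (Sum.inl (⟨ψ, h1⟩, ⟨ψ', h2⟩)) ⟨k, hk, sub_ne_zero.2 h5⟩ ?_
      simp [sub_dotProduct, h3]
    refine sum_congr rfl (fun i _ => ?_)
    by_cases h5 : i ∈ A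
    · rw [h4 i h5]
    · rw [hz i h5, mul_zero, mul_zero]
  have hW : W.Nonempty := by
    obtain ⟨ψ, h1, -⟩ := h.cover 0 (fun _ _ => le_rfl)
    exact ⟨ψ, h1⟩
  choose σ σ1 σ2 σ3 using exists_lex hW o
  have hnn : ∀ b, ∀ i ∉ A, 0 ≤ bx B b i := fun b i hi => h.bx_nonneg b (fun h1 => hi (hK h1))
  have mono : ∀ p b, Sim2 B v W p b → σ p ⬝ᵥ o ≤ σ (p + bx B b) ⬝ᵥ o := fun p b hs =>
    σ3 p _ (σ1 _) ((hs.min_iff h.feas (σ1 _)).1 (σ2 _)).1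
  refine Ex.chainFin (comm_Ftr2 h.feas) (fun u => σ (pp q y u) ⬝ᵥ o) (W.image (fun ψ => ψ ⬝ᵥ o)) _
    (fun J u hu => ⟨hu.1, hu.2.1⟩) (fun J u _ _ => mem_image_of_mem _ (σ1 _)) (fun r hr => ?_)
  obtain ⟨ψ, hψ, rfl⟩ := mem_image.1 hr
  have lay : ∀ u ∈ GG K W wc q y, (¬ ∃ i ∉ A, 0 < pp q y u i) → σ (pp q y u) ⬝ᵥ o = ψ ⬝ᵥ o →
      Lay K A W wc q y o ψ u := by
    intro u h1 h2 h3
    have h4 : ∀ i ∉ A, pp q y u i = 0 := fun i hi =>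
      le_antisymm (not_lt.1 (fun h5 => h2 ⟨i, hi, h5⟩)) (h1.1.1 i (fun h5 => hi (hK h5)))
    refine ⟨h1, h4, fun ψ' h5 => ?_, fun ψ' h5 h6 => ?_⟩
    · rw [← agree _ (σ1 _) _ hψ h3 _ h4]
      exact σ2 _ ψ' h5
    · rw [← h3]
      exact σ3 _ ψ' h5 h6
  have layeq : ∀ u, Lay K A W wc q y o ψ u → σ (pp q y u) ⬝ᵥ o = ψ ⬝ᵥ o := fun u hu =>
    le_antisymm (σ3 _ ψ hψ hu.2.2.1) (hu.2.2.2 _ (σ1 _) (σ2 _))
  obtain ⟨ε, hε, hl⟩ := lay_iff h hK hψ ho ho2 q y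
  have hl1 := hl ε hε le_rfl
  have hex : Ex (FT B c (TA B v A ψ)) k
      (res A (CY B q (TA B v A ψ) (y - ε • qq (wc ψ ⬝ᵥ o) o))) (emp _ _) := by
    by_cases hne : ∃ u, Lay K A W wc q y o ψ u
    · obtain ⟨u, hu⟩ := hne
      refine hCM ι κ B c A K _ L Ξ h.lin (L_sub h hK hψ) h.cnt (faceM h hK hψ) (crit h hK hψ)
        (hasDeg h hψ) q _ k ?_
      rcases hf' (TA B v A ψ) with h1 | h1
      · exfalso
        refine ho3 (Sum.inr (TA B v A ψ)) h1 ?_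
        have h2 := dot_dir (hf (TA B v A ψ)) (ε := ε) (ε' := ε / 2) (by linarith)
          ((hl1 u).2 hu) ((hl (ε / 2) (by linarith) (by linarith) u).2 hu)
        simp [h2]
      · omega
    · exact Ex.of_subset (fun J _ u hu => hne ⟨u, (hl1 u).1 hu.2⟩)
  refine hex.chg ?_ (Stab.res A (fun i _ u hu => FT_mem i (fun b hb => CY_add hu hb)))
    (fun J u hu => ?_) (fun J u hu => ?_) (fun J u hu hu' => ?_) (fun J i _ u hu => ?_)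
  · intro J i _ u hu
    refine Ftr2_mem i (fun b hb _ => ?_)
    rcases hu with ⟨h1, h2, j, h3, h4⟩ | ⟨⟨h1, h2⟩, h3⟩
    · refine Or.inl ⟨(subset_insert _ _).trans h1, h.sim_add h2 hb, j, h3, ?_⟩
      rw [pp_add]
      exact add_pos_of_pos_of_nonneg h4 (hnn b j h3)
    · refine Or.inr ⟨⟨(subset_insert _ _).trans h1, h.sim_add h2 hb⟩, ?_⟩
      rw [pp_add]
      exact h3.trans_le (mono _ b hb)
  · rcases hu with h1 | ⟨⟨h1, h2⟩, h3⟩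
    · exact Or.inr (Or.inl h1)
    · by_cases h4 : ∃ i ∉ A, 0 < pp q y u i
      · exact Or.inr (Or.inl ⟨h1, h2, h4⟩)
      · rcases h3.lt_or_eq with h5 | h5
        · exact Or.inr (Or.inr ⟨⟨h1, h2⟩, h5⟩)
        · exact Or.inl ⟨h1, (hl1 u).2 (lay u h2 h4 h5.symm)⟩
  · have h1 := (hl1 u).1 hu.2
    exact Or.inr ⟨⟨hu.1, h1.1⟩, (layeq u h1).ge⟩
  · have h1 := (hl1 u).1 hu.2
    rcases hu' with ⟨-, -, j, h3, h4⟩ | ⟨-, h3⟩
    · exact h4.ne' (h1.2.1 j h3)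
    · exact h3.ne' (layeq u h1)
  · have h1 := (hl1 u).1 hu.2
    have hJ : J ⊆ A := (subset_insert _ _).trans hu.1
    refine op_sub_mem (fun h2 => absurd rfl h2) (fun b hb => ?_)
    by_cases h2 : b ∈ TA B v A ψ
    · exfalso
      refine hb ?_
      rw [if_pos h2, if_pos ⟨ψ, hψ, h1.2.2.1, ((mem_TA h hK).1 h2).1⟩]
    have hs : Sim2 B v W (pp q y u) b := by
      by_contra h3
      refine hb ?_
      rw [if_neg h2, if_neg h3]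
    have h3 := h.sim_add h1.1 hs
    by_cases h4 : ∃ j ∉ A, 0 < pp q y (u + B b) j
    · exact Or.inl ⟨hJ, h3, h4⟩
    refine Or.inr ⟨⟨hJ, h3⟩, ?_⟩
    have h5 := mono _ b hs
    rw [layeq u h1, ← pp_add] at h5
    refine lt_of_le_of_ne h5 (fun h6 => h2 ?_)
    have h7 := lay _ h3 h4 h6.symm
    have h8 := h7.2.2.1
    have h9 := h7.2.1
    rw [pp_add] at h8 h9
    refine (mem_TA h hK).2 ⟨((hs.min_iff h.feas hψ).1 h8).2, fun j hj => ?_⟩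
    simpa [h1.2.1 j hj] using h9 j hj

end Pool.Agent.MP_5d9b3c_ag.H10N
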