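import Pool.Agent.MP_5d9b3c_ag.H10N.Basic

/-!
From the slices to the total space.
-/

namespace Pool.Agent.MP_5d9b3c_ag.H10N

open Finset Pool.Agent.MP_5d9b3c_ag.H22 Pool.Agent.MP_5d9b3c_ag.H48N

namespace SliceAux

section Gen

variable {X ι : Type} {A : Finset ι} {Y Y' : Set X} {e : Ch X ι} {k : ℕ}

/-- An operator acts on chains. -/
noncomputable def ap (ι : Type) (L : Op X) : Module.End ℂ (Ch X ι) := L.compLeft (Finset ι)

lemma ap_apply (L : Op X) (e : Ch X ι) (J : Finset ι) : ap ι L e J = L (e J) := rfl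

lemma in_res : In (res A Y) e ↔ ∀ J, e J ∈ Su Y ∧ (¬ J ⊆ A → e J = 0) := by
  refine ⟨fun h J => ⟨Su_mono (fun u hu => hu.2) (h J),
    fun hJ => Su_empty (Su_mono (fun u hu => hJ hu.1) (h J))⟩, fun h J => ?_⟩
  by_cases hJ : J ⊆ A
  · exact Su_mono (fun u hu => ⟨hJ, hu⟩) (h J).1
  · rw [(h J).2 hJ]
    exact Submodule.zero_mem _

lemma in_ap {L : Op X} (hL : ∀ f ∈ Su Y, L f ∈ Su Y') (h : In (res A Y) e) :
    In (res A Y') (ap ι L e) :=
  in_res.2 (fun J => ⟨hL _ (in_res.1 h J).1, fun hJ => by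
    rw [ap_apply, (in_res.1 h J).2 hJ, map_zero]⟩)

lemma deg_ap (L : Op X) (h : Deg k e) : Deg k (ap ι L e) := h.map (fun _ => L)

variable [Fintype ι] [LinearOrder ι]

lemma kd_ap {L : Op X} {F F' : ι → Op X} (h : ∀ i f, L (F i f) = F' i (L f)) (e : Ch X ι) :
    ap ι L (kd F e) = kd F' (ap ι L e) := by
  funext J
  simp only [ap_apply, kd, map_sum, map_smul, h]

lemma kd_smul (F : ι → Op X) (r : ℂ) (e : Ch X ι) : kd F (r • e) = r • kd F e := by
  funext J
  simp only [kd, Pi.smul_apply, map_smul, smul_sum, smul_comm r]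

/-- The boundaries. -/
def Bd (F : ι → Op X) (k : ℕ) (Z : Finset ι → Set X) : Submodule ℂ (Ch X ι) where
  carrier := {f | ∃ e, Deg (k + 1) e ∧ In Z e ∧ f = kd F e}
  zero_mem' := ⟨0, Deg.zero, In.zero, kd_zero.symm⟩
  add_mem' := by
    rintro _ _ ⟨e, h1, h2, rfl⟩ ⟨e', h3, h4, rfl⟩
    exact ⟨e + e', h1.add h3, h2.add h4, (kd_add _ _).symm⟩
  smul_mem' := by
    rintro r _ ⟨e, h1, h2, rfl⟩
    exact ⟨r • e, fun J hJ => by rw [Pi.smul_apply, h1 J hJ, smul_zero],
      fun J => Submodule.smul_mem _ _ (h2 J), (kd_smul _ _ _).symm⟩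

end Gen

/-- Removing the roots of a polynomial one at a time. -/
lemma strip {V : Type} [AddCommGroup V] [Module ℂ V] (S : Module.End ℂ V) (N : Submodule ℂ V)
    (h : ∀ (z : ℂ) (v : V), S v - z • v ∈ N → v ∈ N) (v : V) (n : ℕ) :
    ∀ p : Polynomial ℂ, p.natDegree = n → p ≠ 0 → Polynomial.aeval S p v ∈ N → v ∈ N := by
  induction n with
  | zero =>
    intro p h1 h2 h3
    rw [Polynomial.natDegree_eq_zero] at h1
    obtain ⟨c, rfl⟩ := h1
    have hc : c ≠ 0 := fun h4 => h2 (by rw [h4, map_zero])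
    rw [Polynomial.aeval_C, Module.algebraMap_end_apply] at h3
    exact (N.smul_mem_iff hc).1 h3
  | succ n ih =>
    intro p h1 h2 h3
    obtain ⟨z, hz⟩ := IsAlgClosed.exists_root p (by
      rw [Polynomial.degree_eq_natDegree h2, h1]
      exact_mod_cast Nat.succ_ne_zero n)
    obtain ⟨p1, rfl⟩ := Polynomial.dvd_iff_isRoot.2 hz
    have h4 : p1 ≠ 0 := right_ne_zero_of_mul h2
    rw [Polynomial.natDegree_mul (Polynomial.X_sub_C_ne_zero z) h4,
      Polynomial.natDegree_X_sub_C] at h1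
    refine ih p1 (by omega) h4 (h z _ ?_)
    simpa [Module.algebraMap_end_apply] using h3

lemma rank_le (ι : Type) [Fintype ι] : Module.rank ℂ (Ch (Pt ι) ι) ≤ Cardinal.aleph0 := by
  rw [rank_pi]
  refine (Cardinal.sum_le_sum _ (fun _ => Cardinal.aleph0) (fun J => ?_)).trans ?_
  · rw [rank_finsupp_self']
    exact Cardinal.mk_le_aleph0
  · rw [Cardinal.sum_const']
    exact (mul_le_mul_left Cardinal.mk_le_aleph0 _).trans Cardinal.aleph0_mul_aleph0.le

section Sh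

variable {ι : Type} [LinearOrder ι] {s : ι} {Y : Set (Pt ι)} {z : ℂ}

/-- The shift. -/
noncomputable def sh (s : ι) (r : ℤ) : Op (Pt ι) :=
  Finsupp.lmapDomain ℂ ℂ (fun u => u + Pi.single (some s) r)

/-- The evaluation of one coordinate. -/
noncomputable def ev (s : ι) (z : ℂ) : Op (Pt ι) :=
  Finsupp.linearCombination ℂ (fun u => z ^ u (some s) • Finsupp.single (sl {s} u) 1)

lemma sh_single (r : ℤ) (u : Pt ι) :
    sh s r (Finsupp.single u 1) = Finsupp.single (u + Pi.single (some s) r) 1 := by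
  rw [sh, Finsupp.lmapDomain_apply, Finsupp.mapDomain_single]

lemma ev_single (u : Pt ι) :
    ev s z (Finsupp.single u 1) = z ^ u (some s) • Finsupp.single (sl {s} u) 1 := by
  rw [ev, Finsupp.linearCombination_single, one_smul]

lemma sh_apply (r : ℤ) (g : Pt ι →₀ ℂ) (u : Pt ι) :
    sh s r g (u + Pi.single (some s) r) = g u := by
  rw [sh, Finsupp.lmapDomain_apply]
  exact Finsupp.mapDomain_apply (add_left_injective _) g u

lemma sh_back (f : Pt ι →₀ ℂ) : sh s (-1) (sh s 1 f) = f :=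
  LinearMap.congr_fun (op_ext (L := sh s (-1) * sh s 1) (L' := 1) (fun u => by
    rw [Module.End.mul_apply, sh_single, sh_single, add_assoc, ← Pi.single_add, add_neg_cancel,
      Pi.single_zero, add_zero, Module.End.one_apply])) f

lemma sh_mem (hY : ∀ u ∈ Y, ∀ r : ℤ, u + Pi.single (some s) r ∈ Y) (r : ℤ) :
    ∀ f ∈ Su Y, sh s r f ∈ Su Y := fun _ hf =>
  map_Su _ _ (fun u hu => by
    rw [sh_single]
    exact single_mem_Su (hY u hu r) 1) hf

lemma sl_add_single (u : Pt ι) : sl {s} u + Pi.single (some s) (u (some s)) = u := by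
  ext (_ | k)
  · simp
  · by_cases hk : k = s
    · subst hk
      simp [sl_some]
    · simp [sl_some, hk]

lemma sl_single (r : ℤ) : sl {s} (Pi.single (some s) r : Pt ι) = 0 := by
  ext (_ | k)
  · simp
  · by_cases hk : k = s
    · simp [sl_some, hk]
    · simp [sl_some, hk]

lemma sl_in (hY : ∀ u ∈ Y, ∀ r : ℤ, u + Pi.single (some s) r ∈ Y) {u : Pt ι} (hu : u ∈ Y) :
    sl {s} u ∈ slY {s} Y := by
  refine ⟨?_, fun k hk => sl_mem hk⟩
  have := hY u hu (-u (some s))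
  rwa [Pi.single_neg, ← sub_eq_add_neg, sub_eq_of_eq_add (sl_add_single u).symm] at this

lemma ev_mem (hY : ∀ u ∈ Y, ∀ r : ℤ, u + Pi.single (some s) r ∈ Y) :
    ∀ f ∈ Su Y, ev s z f ∈ Su (slY {s} Y) := fun _ hf =>
  map_Su _ _ (fun u hu => by
    rw [ev_single]
    exact Submodule.smul_mem _ _ (single_mem_Su (sl_in hY hu) 1)) hf

lemma ev_id {f : Pt ι →₀ ℂ} (hf : f ∈ Su (slY {s} Y)) : ev s z f = f :=
  eq_on_Su (ev s z) LinearMap.id (fun u hu => by
    rw [ev_single, hu.2 s (mem_singleton_self s), zpow_zero, one_smul, sl_of_zero hu.2,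
      LinearMap.id_apply]) hf

lemma ev_sh (hz : z ≠ 0) (f : Pt ι →₀ ℂ) : ev s z (sh s 1 f) = z • ev s z f :=
  LinearMap.congr_fun (op_ext (L := ev s z * sh s 1) (L' := z • ev s z) (fun u => by
    rw [Module.End.mul_apply, sh_single, ev_single, LinearMap.smul_apply, ev_single, sl_add,
      sl_single, add_zero, smul_smul, Pi.add_apply, Pi.single_eq_same, zpow_add_one₀ hz,
      mul_comm])) f

lemma sh_inj {g : Pt ι →₀ ℂ} (h : sh s 1 g = z • g) : g = 0 := by
  by_contra h0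
  obtain ⟨u, h1, h2⟩ := exists_max_image g.support (fun u => u (some s))
    (Finsupp.support_nonempty_iff.2 h0)
  have h3 : g (u + Pi.single (some s) 1) = 0 := by
    by_contra h4
    have := h2 _ (Finsupp.mem_support_iff.2 h4)
    simp only [Pi.add_apply, Pi.single_eq_same] at this
    omega
  have h4 := sh_apply (s := s) 1 g u
  rw [h, Finsupp.smul_apply, h3, smul_zero] at h4
  exact Finsupp.mem_support_iff.1 h1 h4.symm

/-- Division with remainder. -/
lemma div_mem (hY : ∀ u ∈ Y, ∀ r : ℤ, u + Pi.single (some s) r ∈ Y) (hz : z ≠ 0)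
    {f : Pt ι →₀ ℂ} (hf : f ∈ Su Y) : f - ev s z f ∈ (Su Y).map (sh s 1 - z • (1 : Op (Pt ι))) := by
  have step : ∀ u ∈ Y, ∀ r : ℤ, Finsupp.single (u + Pi.single (some s) (r + 1)) 1 -
      z • Finsupp.single (u + Pi.single (some s) r) (1 : ℂ) ∈
        (Su Y).map (sh s 1 - z • (1 : Op (Pt ι))) := fun u hu r =>
    ⟨_, single_mem_Su (hY u hu r) 1, by
      rw [LinearMap.sub_apply, sh_single, add_assoc, ← Pi.single_add]
      rfl⟩
  have key : ∀ u ∈ Y, ∀ r : ℤ, Finsupp.single (u + Pi.single (some s) r) 1 -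
      z ^ r • Finsupp.single u (1 : ℂ) ∈ (Su Y).map (sh s 1 - z • (1 : Op (Pt ι))) := by
    intro u hu r
    induction r using Int.induction_on with
    | zero => simp
    | succ n ih =>
      have := add_mem (step u hu n) (Submodule.smul_mem _ z ih)
      rwa [smul_sub, sub_add_sub_cancel, smul_smul, mul_comm, ← zpow_add_one₀ hz] at this
    | pred n ih =>
      have h1 := step u hu (-(n : ℤ) - 1)
      rw [sub_add_cancel] at h1
      have := Submodule.smul_mem _ z⁻¹ (sub_mem ih h1)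
      rwa [sub_sub_sub_cancel_left, smul_sub, smul_smul, smul_smul, inv_mul_cancel₀ hz, one_smul,
        mul_comm, ← zpow_sub_one₀ hz] at this
  refine map_Su (1 - ev s z) _ (fun u hu => ?_) hf
  have := key _ (sl_in hY hu).1 (u (some s))
  rwa [sl_add_single, ← ev_single] at this

/-- Division of chains. -/
lemma div_ch (hY : ∀ u ∈ Y, ∀ r : ℤ, u + Pi.single (some s) r ∈ Y) (hz : z ≠ 0) {A : Finset ι}
    {k : ℕ} {e : Ch (Pt ι) ι} (h1 : Deg k e) (h2 : In (res A Y) e) (h3 : ap ι (ev s z) e = 0) :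
    ∃ w, Deg k w ∧ In (res A Y) w ∧ e = ap ι (sh s 1) w - z • w := by
  have : ∀ J, ∃ g ∈ Su Y, e J = sh s 1 g - z • g ∧ (e J = 0 → g = 0) := by
    intro J
    obtain ⟨g, h4, h5⟩ := div_mem hY hz (in_res.1 h2 J).1
    rw [← ap_apply, h3, Pi.zero_apply, sub_zero] at h5
    exact ⟨g, h4, h5.symm, fun h6 => sh_inj (sub_eq_zero.1 (h5.trans h6))⟩
  choose w h4 h5 h6 using this
  exact ⟨w, fun J hJ => h6 J (h1 J hJ),
    in_res.2 (fun J => ⟨h4 J, fun hJ => h6 J ((in_res.1 h2 J).2 hJ)⟩), funext h5⟩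

variable {κ : Type} [Fintype κ] [DecidableEq κ] {B : κ → Pt ι} {ρ : ι → κ → ℂ} {T : Finset κ}

lemma sh_FR (r : ℤ) (i : ι) (f : Pt ι →₀ ℂ) :
    sh s r (FR B ρ T i f) = FR B ρ T i (sh s r f) :=
  LinearMap.congr_fun (op_ext (L := sh s r * FR B ρ T i) (L' := FR B ρ T i * sh s r) (fun u => by
    simp only [Module.End.mul_apply, FR_single, sh_single, map_sum, map_smul, add_right_comm])) f

lemma ev_FR (hz : z ≠ 0) (i : ι) (f : Pt ι →₀ ℂ) : ev s z (FR B ρ T i f) =
    FR (slB {s} B) (slR {s} (fun _ => z) B ρ) T i (ev s z f) :=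
  LinearMap.congr_fun (op_ext (L := ev s z * FR B ρ T i)
    (L' := FR (slB {s} B) (slR {s} (fun _ => z) B ρ) T i * ev s z) (fun u => by
    simp only [Module.End.mul_apply, FR_single, ev_single, map_sum, map_smul, smul_sum, smul_smul,
      sl_add, slB, slR, prod_singleton, Pi.add_apply, zpow_add₀ hz]
    exact sum_congr rfl (fun b _ => by rw [mul_left_comm]))) f

end Sh

end SliceAux

open SliceAux

theorem slice (hA : AmiStmt) : SliceStmt := by
  intro ι κ _ _ _ _ B ρ A T Y s Ξ k hΞ hT hY h1 h0 e d i c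
  rw [in_emp] at c
  have hS : Stab (FR B ρ T) (res A Y) := Stab.res A (fun i _ u hu => FR_mem i (hT u hu))
  have hsub : ∀ J, res A (slY {s} Y) J ⊆ res A Y J := fun J u hu => ⟨hu.1, hu.2.1⟩
  -- a chain whose evaluation is a cycle is a boundary up to a multiple of the shift minus `z`
  have red : ∀ (z : ℂ) (n : ℕ), z ≠ 0 → Ex (FR (slB {s} B) (slR {s} (fun _ => z) B ρ) T) n
      (res A (slY {s} Y)) (emp _ _) → ∀ f, Deg n f → In (res A Y) f →
      ap ι (ev s z) (kd (FR B ρ T) f) = 0 → ∃ f1 w, Deg (n + 1) f1 ∧ In (res A Y) f1 ∧ Deg n w ∧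
        In (res A Y) w ∧ f - kd (FR B ρ T) f1 = ap ι (sh s 1) w - z • w := by
    intro z n hz hE f d1 i1 c1
    obtain ⟨f1, d2, i2, c2⟩ := hE _ (deg_ap (ev s z) d1) (in_ap (ev_mem hY) i1)
      (in_emp.2 (by rw [← kd_ap (ev_FR hz), c1]))
    rw [in_emp] at c2
    have e1 : ap ι (ev s z) f1 = f1 := funext (fun J => ev_id (in_res.1 i2 J).1)
    obtain ⟨w, d3, i3, c3⟩ := div_ch hY hz (d1.sub d2.kd) (i1.sub ((i2.mono hsub).kd hS))
      (by rw [map_sub, kd_ap (ev_FR hz), e1, c2])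
    exact ⟨f1, w, d2, i2.mono hsub, d3, i3, c3⟩
  have inj : ∀ (z : ℂ) (f : Ch (Pt ι) ι), ap ι (sh s 1) f - z • f ∈ Bd (FR B ρ T) k (res A Y) →
      f ∈ Bd (FR B ρ T) k (res A Y) := by
    rintro z f ⟨e2, d2, i2, c2⟩
    by_cases hz : z = 0
    · refine ⟨_, deg_ap (sh s (-1)) d2, in_ap (sh_mem hY _) i2, ?_⟩
      rw [← kd_ap (sh_FR (-1)), ← c2, hz, zero_smul, sub_zero]
      exact funext (fun J => (sh_back _).symm)
    · obtain ⟨e3, e4, -, -, d4, i4, c4⟩ := red z (k + 1) hz (h1 z hz) e2 d2 i2 (by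
        rw [← c2]
        funext J
        rw [ap_apply, Pi.sub_apply, map_sub, ap_apply, ev_sh hz, Pi.smul_apply, map_smul, sub_self,
          Pi.zero_apply])
      refine ⟨e4, d4, i4, ?_⟩
      have c5 := congrArg (kd (FR B ρ T)) c4
      rw [kd_sub_kd comm_FR, kd_sub, kd_smul, ← kd_ap (sh_FR 1), ← c2] at c5
      funext J
      refine sub_eq_zero.1 (sh_inj (s := s) (z := z) ?_)
      have c6 := congrFun c5 J
      simp only [Pi.sub_apply, Pi.smul_apply, ap_apply] at c6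
      rw [map_sub, smul_sub]
      exact sub_eq_sub_iff_sub_eq_sub.1 c6
  obtain ⟨p, hp, h2⟩ := hA _ (rank_le ι) (ap ι (sh s 1)) (Bd (FR B ρ T) k (res A Y)) e
    (insert 0 Ξ) (by
      rintro _ ⟨e2, d2, i2, rfl⟩
      exact ⟨_, deg_ap _ d2, in_ap (sh_mem hY _) i2, kd_ap (sh_FR 1) e2⟩) (hΞ.insert 0) (by
      intro z hz
      rw [Set.mem_insert_iff, not_or] at hz
      obtain ⟨f1, w, d2, i2, -, -, c2⟩ := red z k hz.1 (h0 z hz.1 hz.2) e d i (by rw [c, map_zero])
      exact ⟨w, f1, d2, i2, by rw [← c2, sub_sub_cancel]⟩)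
  obtain ⟨e', d', i', c'⟩ := strip _ _ inj e _ p rfl hp h2
  exact ⟨e', d', i', in_emp.2 (sub_eq_zero.2 c')⟩

end Pool.Agent.MP_5d9b3c_ag.H10N
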