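import Pool.Agent.MP_5d9b3c_ag.H48N.Final
import Pool.Agent.MP_5d9b3c_ag.H10N.NSR
import Pool.Agent.MP_5d9b3c_ag.H10N.CMR
import Pool.Agent.MP_5d9b3c_ag.H10N.Ami
import Pool.Agent.MP_5d9b3c_ag.H10N.Slice
import Pool.Agent.MP_5d9b3c_ag.H10N.RedZ
import Pool.Agent.MP_5d9b3c_ag.H10N.CML
import Pool.Agent.MP_5d9b3c_ag.H10N.Shell
import Pool.Agent.MP_5d9b3c_ag.H10N.Proj
import Pool.Agent.MP_5d9b3c_ag.H10N.Coef
import Pool.Agent.MP_5d9b3c_ag.H10N.Fan
import Pool.Agent.MP_5d9b3c_ag.H10N.Tau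
import Pool.Agent.MP_5d9b3c_ag.H10N.Lead
import Pool.Agent.MP_5d9b3c_ag.H10N.Dside
import Pool.Agent.MP_5d9b3c_ag.H10N.Pside

/-!
Assembly.
-/

namespace Pool.Agent.MP_5d9b3c_ag.H10N

open Pool.Agent.MP_5d9b3c_ag.H48N

theorem shell_all2 : ShellStmt2 :=
  shell2 (cml nsr (slice ami) (base (cmr nsr (facet lp) gen) redz)) gen

theorem dside_all2 : DStmt2 :=
  dside2 lp (fan2 lp stab coef) (tau ami) (lead redz (whole shell_all2)) (link2 shell_all2) proj2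

theorem sel_all2 : SelStmt2 := sel2 stab clos lift

theorem grid_all2 : GridStmt2 :=
  grid2 sel_all2 cols (geo gen) (box rat) sumRow (col (uns lift))

theorem glob_all2 : GlobStmt2 := glob2 dside_all2 (cert lp) (free lift (hall lift)) grid_all2

end Pool.Agent.MP_5d9b3c_ag.H10N
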