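import Pool.Agent.MP_5d9b3c_ag.H48N.BasicO

/-!
Nondegenerate polynomials without a condition at infinity: definitions and the statements of the
steps.
-/

namespace Pool.Agent.MP_5d9b3c_ag.H10N

open Finset Pool.Agent.MP_5d9b3c_ag.H22 Pool.Agent.MP_5d9b3c_ag.H48N

section Defs

variable {ι κ : Type} [Fintype ι] [LinearOrder ι] [Fintype κ] [DecidableEq κ]

/-- Nondegeneracy along the faces cut out by nonnegative weights. -/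
def NDQ (a : κ → ι →₀ ℕ) (c : κ → ℂ) : Prop := ∀ w, InG a w → TND a c (Tw a w) (Fw w)

/-- Shift operators with arbitrary coefficients. -/
noncomputable def FR (B : κ → Pt ι) (ρ : ι → κ → ℂ) (T : Finset κ) (i : ι) : Op (Pt ι) :=
  op B 0 (fun _ b => if b ∈ T then ρ i b else 0)

/-- No common zero in the torus. -/
def NDr (B : κ → Pt ι) (ρ : ι → κ → ℂ) (A : Finset ι) (T : Finset κ) : Prop :=
  ∀ x : Option ι → ℂ, (∀ o, x o ≠ 0) → ∃ i ∈ A, ∑ b ∈ T, ρ i b * ∏ o, x o ^ B b o ≠ 0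

/-- Nondegeneracy along all faces. -/
def FaceR (B : κ → Pt ι) (ρ : ι → κ → ℂ) (A : Finset ι) (T : Finset κ) : Prop :=
  ∀ n : Vq ι, (∀ b ∈ T, 0 ≤ n ⬝ᵥ Bq B b) → (T.filter (fun b => n ⬝ᵥ Bq B b = 0)).Nonempty →
    NDr B ρ A (T.filter (fun b => n ⬝ᵥ Bq B b = 0))

/-- The coordinates in `S` are set to zero. -/
def sl (S : Finset ι) (u : Pt ι) : Pt ι :=
  fun o => o.elim (u none) (fun k => if k ∈ S then 0 else u (some k))

/-- The sliced vectors. -/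
def slB (S : Finset ι) (B : κ → Pt ι) : κ → Pt ι := fun b => sl S (B b)

/-- The sliced coefficients. -/
noncomputable def slR (S : Finset ι) (ζ : ι → ℂ) (B : κ → Pt ι) (ρ : ι → κ → ℂ) : ι → κ → ℂ :=
  fun i b => ρ i b * ∏ k ∈ S, ζ k ^ B b (some k)

/-- The sliced set. -/
def slY (S : Finset ι) (Y : Set (Pt ι)) : Set (Pt ι) := {u | u ∈ Y ∧ ∀ k ∈ S, u (some k) = 0}

/-- The logarithmic coefficients. -/
def cB (B : κ → Pt ι) (c : κ → ℂ) : ι → κ → ℂ := fun i b => c b * (B b (some i) : ℂ)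

/-- The vectors in `L` generate the coordinate subspace of `K`. -/
structure Lin0 (B : κ → Pt ι) (K : Finset ι) (L : Finset κ) : Prop where
  supp : ∀ b ∈ L, sl K (B b) = 0
  pos : ∀ k ∈ K, ∃ b ∈ L, B b = Pi.single (some k) 1
  neg : ∀ k ∈ K, ∃ b ∈ L, B b = Pi.single (some k) (-1)

/-- The main parts of all faces are nondegenerate. -/
def FaceM (B : κ → Pt ι) (c : κ → ℂ) (A : Finset ι) (T L : Finset κ) : Prop :=
  ∀ n : Vq ι, (∀ b ∈ T, 0 ≤ n ⬝ᵥ Bq B b) → (T.filter (fun b => n ⬝ᵥ Bq B b = 0) \ L).Nonempty →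
    NDx B c A (T.filter (fun b => n ⬝ᵥ Bq B b = 0) \ L)

/-- The coordinates in `K` of the common zeros lie in `Ξ`. -/
def Crit (B : κ → Pt ι) (c : κ → ℂ) (A K : Finset ι) (T : Finset κ) (Ξ : Set ℂ) : Prop :=
  ∀ x : Option ι → ℂ, (∀ o, x o ≠ 0) →
    (∀ i ∈ A, ∑ b ∈ T, c b * (B b (some i) : ℂ) * ∏ o, x o ^ B b o = 0) → ∀ k ∈ K, x (some k) ∈ Ξ

/-- A degree on the main part. -/
def HasDeg (B : κ → Pt ι) (K : Finset ι) (T : Finset κ) : Prop :=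
  ∃ n : Vq ι, (∀ k ∈ K, n (some k) = 0) ∧ ∀ b ∈ T, n ⬝ᵥ Bq B b = 1

/-- The data of a fan with a lineality space. -/
structure Fan2 (B : κ → Pt ι) (c : κ → ℂ) (K : Finset ι) (L : Finset κ) (v : κ → ℚ) (Ξ : Set ℂ)
    (W : Finset (ι → ℚ)) (wc : (ι → ℚ) → ι → ℚ) : Prop where
  lin : Lin0 B K L
  vL : ∀ b ∈ L, v b = 0
  cnt : Ξ.Countable
  nonneg : ∀ b, ∀ k ∉ K, 0 ≤ B b (some k)
  feas : ∀ ψ ∈ W, Feas (bx B) v ψ
  cover : ∀ p : ι → ℚ, (∀ k ∉ K, 0 ≤ p k) → ∃ ψ ∈ W, Cone (bx B) (Tt (bx B) v ψ) p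
  cfeas : ∀ ψ ∈ W, Feas (bx B) (lev B) (wc ψ)
  csub : ∀ ψ ∈ W, Tt (bx B) v ψ ⊆ Tt (bx B) (lev B) (wc ψ)
  nd : ∀ ψ, Feas (bx B) v ψ → (Tt (bx B) v ψ \ L).Nonempty → NDx B c univ (Tt (bx B) v ψ \ L)
  crit : ∀ ψ, Feas (bx B) v ψ → Crit B c univ K (Tt (bx B) v ψ) Ξ
  deg : ∀ ψ ∈ W, HasDeg B K (Tt (bx B) v ψ \ L)

/-- The point and the vector lie in a common cone of the fan. -/
def Sim2 (B : κ → Pt ι) (v : κ → ℚ) (W : Finset (ι → ℚ)) (p : ι → ℚ) (b : κ) : Prop :=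
  ∃ ψ ∈ W, (∀ ψ' ∈ W, ψ ⬝ᵥ p ≤ ψ' ⬝ᵥ p) ∧ ψ ⬝ᵥ bx B b = v b

open Classical in
/-- The operators of the face ring. -/
noncomputable def Ftr2 (B : κ → Pt ι) (c : κ → ℂ) (v : κ → ℚ) (W : Finset (ι → ℚ)) (q y : Vq ι)
    (i : ι) : Op (Pt ι) :=
  op B 0 (fun u b => if Sim2 B v W (pp q y u) b then c b * (B b (some i) : ℂ) else 0)

/-- The points with nonnegative coordinates outside `K`. -/
def RG (K : Finset ι) (q y : Vq ι) : Set (Pt ι) := {u | ∀ k ∉ K, 0 ≤ pp q y u k}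

/-- A lattice point together with an exponent of the large parameter. -/
def up (σ : ℤ) (u : Pt ι) : Pt (Option ι) := fun o => o.elim σ u

/-- Forgetting the exponent of the large parameter. -/
def dn (U : Pt (Option ι)) : Pt ι := fun o => U (some o)

/-- The twisted operators with a large parameter. -/
noncomputable def DT (B : κ → Pt ι) (c : κ → ℂ) (s : κ → ℕ) (q : Vq ι) (i : ι) :
    Op (Pt (Option ι)) :=
  op (fun b => up (s b) (B b)) (fun U => ((hat q (dn U) (some i) : ℚ) : ℂ))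
    (fun _ b => c b * (B b (some i) : ℂ))

/-- The relation with a large parameter. -/
def TRel (B : κ → Pt ι) (c : κ → ℂ) (s : κ → ℕ) (K : Finset ι) (W : Finset (ι → ℚ))
    (q y : Vq ι) : Prop :=
  ∃ (σ : ℤ) (e : Ch (Pt (Option ι)) ι), Deg 1 e ∧ In (fun _ => {U | dn U ∈ RG K q y}) e ∧
    kd (DT B c s q) e ∅ - Finsupp.single (up σ 0) 1 ∈
      Su {U | (dn U ∈ RG K q y ∧ dn U ∈ Ypos W id q y) ∨ (dn U = 0 ∧ U none < σ)}

/-- The perturbed levels. -/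
def vv (κ : Type) (K : Finset ι) (η : ℚ) : κ ⊕ ι ⊕ K → ℚ :=
  Sum.elim (fun _ => 1) (Sum.elim (fun k => if k ∈ K then 0 else η) (fun _ => 0))

/-- The exponents of the large parameter. -/
def ss (κ : Type) (K : Finset ι) : κ ⊕ ι ⊕ K → ℕ :=
  Sum.elim (fun _ => 0) (Sum.elim (fun k => if k ∈ K then 1 else 2) (fun _ => 1))

/-- The vectors in the lineality space. -/
def LL (κ : Type) [Fintype κ] (K : Finset ι) : Finset (κ ⊕ ι ⊕ K) :=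
  univ.filter (fun b => ss κ K b = 1)

end Defs

section Filt

variable {X ι : Type}

/-- The part of total degree `n`. -/
def La (Y : Finset ι → Set X) (N : X → ℤ) (m n : ℤ) : Finset ι → Set X :=
  fun J => {u | u ∈ Y J ∧ N u + m * #J = n}

/-- The part of total degree below `n`. -/
def Lo (Y : Finset ι → Set X) (N : X → ℤ) (m n : ℤ) : Finset ι → Set X :=
  fun J => {u | u ∈ Y J ∧ N u + m * #J < n}

end Filt

/-! ### The `p`-adic side -/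

/-- The selection exists. -/
def SelStmt2 : Prop :=
  ∀ (ι κ : Type) [Fintype ι] [LinearOrder ι] [Fintype κ] [DecidableEq κ] (a : κ → ι →₀ ℕ)
    (c : κ → ℂ) (l : ℝ), NDQ a c → Blk a c l → ∃ ν ρ V σ, Sel a c l ν ρ V σ

/-- The `p`-adic side. -/
def GridStmt2 : Prop :=
  ∀ (ι κ : Type) [Fintype ι] [LinearOrder ι] [Fintype κ] [DecidableEq κ] (p : ℕ) [Fact p.Prime]
    (a : κ → ι →₀ ℕ) (c : κ → ℤ) (l : ℝ), NDQ a (fun j => (c j : ℂ)) →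
    (∃ M : ℕ, ∀ θ L j, (M : ℤ) < zz a θ L j → EB p a c ∅ (zz a θ L) = 0) →
    Blk a (fun j => (c j : ℂ)) l → Good p l (fun θ => EB p a c univ (zz a θ 0))

/-! ### Commutative algebra -/

/-- The Nullstellensatz, as a contracting homotopy. -/
def NSRStmt : Prop :=
  ∀ (ι κ : Type) [Fintype ι] [LinearOrder ι] [Fintype κ] [DecidableEq κ] (B : κ → Pt ι)
    (ρ : ι → κ → ℂ) (A : Finset ι) (T : Finset κ), FaceR B ρ A T → ∀ v ∈ T,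
    ∃ G : ι → Op (Pt ι), (∀ i ∉ A, G i = 0) ∧ (∀ i k, Commute (G i) (FR B ρ T k)) ∧
      ∑ i, FR B ρ T i * G i = 1 ∧
      ∀ Y : Set (Pt ι), (∀ u ∈ Y, ∀ b ∈ T, u + B b ∈ Y) → (∀ u ∈ Y, u - B v ∈ Y) →
        ∀ i, ∀ e ∈ Su Y, G i e ∈ Su Y

/-- Shifted cones are Cohen-Macaulay. -/
def CMRStmt : Prop :=
  ∀ (ι κ : Type) [Fintype ι] [LinearOrder ι] [Fintype κ] [DecidableEq κ] (B : κ → Pt ι)
    (ρ : ι → κ → ℂ) (A : Finset ι) (T : Finset κ), FaceR B ρ A T → ∀ (q y : Vq ι) (k : ℕ),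
    #A < k + rk (Bq B) T → Ex (FR B ρ T) k (res A (CY B q T y)) (emp _ _)

/-- In countable dimension a vector that is divisible by almost all `S - z` is torsion. -/
def AmiStmt : Prop :=
  ∀ (V : Type) [AddCommGroup V] [Module ℂ V], Module.rank ℂ V ≤ Cardinal.aleph0 →
    ∀ (S : Module.End ℂ V) (N : Submodule ℂ V) (v : V) (Z : Set ℂ), (∀ x ∈ N, S x ∈ N) →
    Z.Countable → (∀ z ∉ Z, ∃ w, v - (S w - z • w) ∈ N) →
    ∃ p : Polynomial ℂ, p ≠ 0 ∧ Polynomial.aeval S p v ∈ N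

/-- From the slices to the total space. -/
def SliceStmt : Prop :=
  ∀ (ι κ : Type) [Fintype ι] [LinearOrder ι] [Fintype κ] [DecidableEq κ] (B : κ → Pt ι)
    (ρ : ι → κ → ℂ) (A : Finset ι) (T : Finset κ) (Y : Set (Pt ι)) (s : ι) (Ξ : Set ℂ) (k : ℕ),
    Ξ.Countable → (∀ u ∈ Y, ∀ b ∈ T, u + B b ∈ Y) →
    (∀ u ∈ Y, ∀ r : ℤ, u + Pi.single (some s) r ∈ Y) →
    (∀ z : ℂ, z ≠ 0 → Ex (FR (slB {s} B) (slR {s} (fun _ => z) B ρ) T) (k + 1)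
      (res A (slY {s} Y)) (emp _ _)) →
    (∀ z : ℂ, z ≠ 0 → z ∉ Ξ → Ex (FR (slB {s} B) (slR {s} (fun _ => z) B ρ) T) k
      (res A (slY {s} Y)) (emp _ _)) →
    Ex (FR B ρ T) k (res A Y) (emp _ _)

/-- From the leading terms to the operators. -/
def RedZStmt : Prop :=
  ∀ (X ι : Type) [Fintype ι] [LinearOrder ι] (D F : ι → Op X) (Y : Finset ι → Set X) (N : X → ℤ)
    (m : ℤ) (k : ℕ), Comm D →
    (∀ J, ∀ i ∉ J, ∀ u ∈ Y (insert i J),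
      F i (Finsupp.single u 1) ∈ Su {v | v ∈ Y J ∧ N v = N u + m} ∧
      D i (Finsupp.single u 1) - F i (Finsupp.single u 1) ∈ Su {v | v ∈ Y J ∧ N v < N u + m}) →
    (((∀ n, Ex F k (La Y N m n) (emp _ _)) ∨ Ex F k Y (emp _ _)) → ∀ n, Ex D k Y (Lo Y N m n)) ∧
    ((∀ n, Ex D 1 Y (Lo Y N m n)) → ∀ u0 ∈ Y ∅, ∀ e, Deg 1 e → In Y e →
      kd D e ∅ - Finsupp.single u0 1 ∈ Su (Lo Y N m (N u0) ∅) →
      ∃ e', Deg 1 e' ∧ In Y e' ∧ kd F e' ∅ = Finsupp.single u0 1)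

/-- The full slices. -/
def BaseStmt : Prop :=
  ∀ (ι κ : Type) [Fintype ι] [LinearOrder ι] [Fintype κ] [DecidableEq κ] (B : κ → Pt ι)
    (c : κ → ℂ) (A K : Finset ι) (T L : Finset κ), Lin0 B K L → L ⊆ T → FaceM B c A T L →
    HasDeg B K (T \ L) → ∀ (q y : Vq ι) (k : ℕ), #A < k + rk (Bq (slB K B)) (T \ L) →
    ∀ ζ : ι → ℂ, (∀ i, ζ i ≠ 0) →
    Ex (FR (slB K B) (slR K ζ B (cB B c)) T) k (res A (slY K (CY B q T y))) (emp _ _)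

/-- Shifted cones with a lineality space are Cohen-Macaulay. -/
def CMLStmt : Prop :=
  ∀ (ι κ : Type) [Fintype ι] [LinearOrder ι] [Fintype κ] [DecidableEq κ] (B : κ → Pt ι)
    (c : κ → ℂ) (A K : Finset ι) (T L : Finset κ) (Ξ : Set ℂ), Lin0 B K L → L ⊆ T →
    Ξ.Countable → FaceM B c A T L →
    (∀ n : Vq ι, (∀ b ∈ T, 0 ≤ n ⬝ᵥ Bq B b) →
      Crit B c A K (T.filter (fun b => n ⬝ᵥ Bq B b = 0)) Ξ) →
    HasDeg B K (T \ L) → ∀ (q y : Vq ι) (k : ℕ), #A < k + rk (Bq (slB K B)) (T \ L) + #K →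
    Ex (FT B c T) k (res A (CY B q T y)) (emp _ _)

/-! ### The face ring -/

/-- The face ring of a coordinate face is Cohen-Macaulay. -/
def ShellStmt2 : Prop :=
  ∀ (ι κ : Type) [Fintype ι] [LinearOrder ι] [Fintype κ] [DecidableEq κ] (B : κ → Pt ι)
    (c : κ → ℂ) (K : Finset ι) (L : Finset κ) (v : κ → ℚ) (Ξ : Set ℂ) (W : Finset (ι → ℚ))
    (wc : (ι → ℚ) → ι → ℚ), Fan2 B c K L v Ξ W wc → ∀ (q y : Vq ι) (A : Finset ι), K ⊆ A →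
    ∀ k : ℕ, 1 ≤ k → Ex (Ftr2 B c v W q y) k (res A (GG K W wc q y))
      (res A {u | u ∈ GG K W wc q y ∧ ∃ i ∉ A, 0 < pp q y u i})

/-- From forms with logarithmic poles to forms without poles. -/
def LinkStmt2 : Prop :=
  ∀ (ι κ : Type) [Fintype ι] [LinearOrder ι] [Fintype κ] [DecidableEq κ] (B : κ → Pt ι)
    (c : κ → ℂ) (K : Finset ι) (L : Finset κ) (v : κ → ℚ) (Ξ : Set ℂ) (W : Finset (ι → ℚ))
    (wc : (ι → ℚ) → ι → ℚ), Fan2 B c K L v Ξ W wc → ∀ (q y : Vq ι) (S : Finset ι), Disjoint S K →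
    Ex (Ftr2 B c v W q y) 1 (fun _ => GG K W wc q y) (NonLog K W wc q y S)

/-- All layers together. -/
def WholeStmt : Prop :=
  ∀ (ι κ : Type) [Fintype ι] [LinearOrder ι] [Fintype κ] [DecidableEq κ] (B : κ → Pt ι)
    (c : κ → ℂ) (K : Finset ι) (L : Finset κ) (v : κ → ℚ) (Ξ : Set ℂ) (W : Finset (ι → ℚ))
    (wc : (ι → ℚ) → ι → ℚ), Fan2 B c K L v Ξ W wc → ∀ q y : Vq ι,
    Ex (Ftr2 B c v W q y) 1 (fun _ => RG K q y) (emp _ _) ∧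
    ∀ u0 ∈ GG K W wc q y, ∀ e, Deg 1 e → In (fun _ => RG K q y) e →
      kd (Ftr2 B c v W q y) e ∅ = Finsupp.single u0 1 →
      ∃ e', Deg 1 e' ∧ In (fun _ => GG K W wc q y) e' ∧
        kd (Ftr2 B c v W q y) e' ∅ = Finsupp.single u0 1

/-- Projection to the closed cone of a face. -/
def ProjStmt2 : Prop :=
  ∀ (ι κ : Type) [Fintype ι] [LinearOrder ι] [Fintype κ] [DecidableEq κ] (B : κ → Pt ι)
    (c : κ → ℂ) (K : Finset ι) (L : Finset κ) (v : κ → ℚ) (Ξ : Set ℂ) (W : Finset (ι → ℚ))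
    (wc : (ι → ℚ) → ι → ℚ), Fan2 B c K L v Ξ W wc →
    ∀ (w : ι → ℚ) (T : Finset κ) (τ : κ → ℚ) (μ : ι → ℚ) (ν : ℚ)
    (S : Finset ι) (q y : Vq ι), Feas (bx B) v w → T = Tt (bx B) v w \ L →
    (∀ b ∈ T, B b none = 1) → (∀ b ∈ T, 0 ≤ τ b) → y = q - ∑ b ∈ T, τ b • Bq B b → Disjoint S K →
    (∀ k, 0 ≤ μ k) → (∀ k ∉ S, μ k = 0) → (∀ k ∈ S, ∑ b ∈ T, τ b * bx B b k = 1) →
    (∀ b ∈ T, μ ⬝ᵥ bx B b ≤ 1) → ν = ∑ b ∈ T, τ b * (1 - μ ⬝ᵥ bx B b) →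
    ∀ e, Deg 1 e → In (NonLog K W wc q y S) e →
    kd (Ftr2 B c v W q y) e ∅ = Finsupp.single 0 1 →
    ∀ x : Option ι → ℂ, (∀ o, x o ≠ 0) →
      (∀ i, ∑ b ∈ L, c b * (B b (some i) : ℂ) * ∏ o, x o ^ B b o = 0) →
      ∃ i, 1 - ν ≤ μ i ∧ ∑ b ∈ T, c b * (B b (some i) : ℂ) * ∏ o, x o ^ B b o ≠ 0

/-! ### The large parameter -/

/-- Relations for all values of the parameter give a relation with a formal parameter. -/
def TauStmt : Prop :=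
  ∀ (ι κ : Type) [Fintype ι] [LinearOrder ι] [Fintype κ] [DecidableEq κ] (B : κ → Pt ι)
    (c : κ → ℂ) (s : κ → ℕ) (K : Finset ι) (W : Finset (ι → ℚ)) (q y : Vq ι),
    (∀ b, ∀ k ∉ K, 0 ≤ B b (some k)) → (∀ ψ ∈ W, Feas (bx B) (lev B) ψ) →
    (∀ k ∉ K, y (some k) ≤ 0) → 0 ∈ RG K q y →
    (∀ z : ℂ, Finsupp.single 0 1 ∈ N0 B (fun b => z ^ s b * c b) q (Ypos W id q y)) →
    TRel B c s K W q y

/-- The leading term of the relation. -/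
def LeadStmt : Prop :=
  ∀ (ι κ : Type) [Fintype ι] [LinearOrder ι] [Fintype κ] [DecidableEq κ] (B : κ → Pt ι)
    (c : κ → ℂ) (s : κ → ℕ) (K : Finset ι) (W0 : Finset (ι → ℚ)) (q y : Vq ι),
    (∀ p : ι → ℚ, (∀ k ∉ K, 0 ≤ p k) →
      ∃ ψ ∈ W0, ∀ w, Feas (bx B) (lev B) w → ψ ⬝ᵥ p ≤ w ⬝ᵥ p) →
    TRel B c s K W0 q y → ∃ η1 : ℚ, 0 < η1 ∧ ∀ η : ℚ, 0 < η → η ≤ η1 →
    ∀ (L : Finset κ) (v : κ → ℚ) (Ξ : Set ℂ) (W : Finset (ι → ℚ)) (wc : (ι → ℚ) → ι → ℚ),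
      Fan2 B c K L v Ξ W wc → (∀ b, lev B b ≤ v b) →
      (∀ b, η * s b + (1 + η) * lev B b - v b = η) → 0 ∈ GG K W wc q y →
      (∃ w, Feas (bx B) v w ∧ hw w ⬝ᵥ (hat q 0 - y) ≤ 0) →
      ∃ e, Deg 1 e ∧ In (fun _ => GG K W wc q y) e ∧
        kd (Ftr2 B c v W q y) e ∅ = Finsupp.single 0 1

/-- Generic coefficients for the twist. -/
def CoefStmt : Prop :=
  ∀ (ι κ : Type) [Fintype ι] [LinearOrder ι] [Fintype κ] [DecidableEq κ] (a : κ → ι →₀ ℕ)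
    (c : κ → ℂ) (K : Finset ι) (ξ : ι → ℂ), ∃ (γ : ι ⊕ K → ℂ) (Ξ : Set ℂ), Ξ.Countable ∧
    (∀ k : K, γ (Sum.inr k) = γ (Sum.inl k.1) * ξ k.1 ^ 2) ∧
    ∀ (T : Finset (κ ⊕ ι ⊕ K)) (x : Option ι → ℂ), (∀ o, x o ≠ 0) →
      (∀ o, ∑ b ∈ T, Sum.elim c γ b * (BB a K b o : ℂ) * ∏ o', x o' ^ BB a K b o' = 0) →
      (∀ k ∉ K, Sum.inr (Sum.inl k) ∈ T →
        ∑ b ∈ T, Sum.elim c γ b * ∏ o', x o' ^ BB a K b o' ≠ 0) ∧
      (LL κ K ⊆ T → ∀ k ∈ K, x (some k) ∈ Ξ)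

/-- The fan exists. -/
def FanStmt2 : Prop :=
  ∀ (ι κ : Type) [Fintype ι] [LinearOrder ι] [Fintype κ] [DecidableEq κ] (a : κ → ι →₀ ℕ)
    (c : κ → ℂ) (K : Finset ι) (ξ : ι → ℂ), NDQ a c →
    ∃ (γ : ι ⊕ K → ℂ) (Ξ : Set ℂ) (η0 : ℚ), 0 < η0 ∧
      (∀ k : K, γ (Sum.inr k) = γ (Sum.inl k.1) * ξ k.1 ^ 2) ∧
      ∀ η : ℚ, 0 < η → η ≤ η0 → (∃ w, Feas (bx (BB a K)) (vv κ K η) w) →
        ∃ (W : Finset (ι → ℚ)) (wc : (ι → ℚ) → ι → ℚ),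
          Fan2 (BB a K) (Sum.elim c γ) K (LL κ K) (vv κ K η) Ξ W wc

/-- If `-l` is not a root, the block of the certificate is valid. -/
def DStmt2 : Prop :=
  ∀ (ι κ : Type) [Fintype ι] [LinearOrder ι] [Fintype κ] [DecidableEq κ] (a : κ → ι →₀ ℕ)
    (c : κ → ℂ) (b : Polynomial ℂ) (l : ℝ), NDQ a c →
    BEq a c ((Polynomial.X + 1) * b) → b.eval (-(l : ℂ)) ≠ 0 → ∀ w, InP a l w →
    ∀ τ μ, Cert a (Tw a w) (Fw w) τ μ → ¬ Solv a c (Tw a w) (LinSet a (Tw a w) τ μ)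

/-- The point counts. -/
def GlobStmt2 : Prop :=
  ∀ (ι κ : Type) [Fintype ι] [LinearOrder ι] [Fintype κ] [DecidableEq κ] (a : κ → ι →₀ ℕ)
    (c : κ → ℤ) (b : Polynomial ℂ) (p : ℕ) (g : MvPolynomial ι ℂ), p.Prime →
    Function.Injective a → (∀ j, c j ≠ 0) → g = ∑ j, MvPolynomial.monomial (a j) (c j : ℂ) →
    (∀ w : ι → ℕ, Nond (fac (fun i => w i) g)) →
    g.totalDegree ≠ 0 → BEq a (fun j => (c j : ℂ)) b → ∀ l : ℝ, b.eval (-(l : ℂ)) ≠ 0 →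
    Good p l (fun m => (Nat.card {x : ι → ZMod (p ^ m) //
      MvPolynomial.aeval x (∑ j, MvPolynomial.monomial (a j) (c j)) = 0} : ℂ) *
        (((p : ℂ) ^ Fintype.card ι)⁻¹) ^ m)

end Pool.Agent.MP_5d9b3c_ag.H10N
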