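import Pool.Agent.MP_5d9b3c_ag.H10N.Basic
import Pool.Agent.MP_5d9b3c_ag.H48N.Layer

/-!
Relations for all values of the parameter give a relation with a formal parameter.
-/

namespace Pool.Agent.MP_5d9b3c_ag.H10N

open Finset Pool.Agent.MP_5d9b3c_ag.H22 Pool.Agent.MP_5d9b3c_ag.H48N

namespace TauAux

open LayerAux (CS)

variable {ι κ : Type} [Fintype ι] [LinearOrder ι] [Fintype κ] {B : κ → Pt ι} {c : κ → ℂ}
  {K : Finset ι} {W : Finset (ι → ℚ)} {q y : Vq ι} {s : κ → ℕ}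

omit [Fintype ι] [LinearOrder ι] [Fintype κ] in
lemma CS_add (h : ∀ b, ∀ k ∉ K, 0 ≤ B b (some k)) {S : Finset ι} (hS : ∀ k ∈ S, k ∉ K) {u : Pt ι}
    (hu : u ∈ CS S q y) (b : κ) : u + B b ∈ CS S q y := fun k hk => by
  rw [pp_add]
  exact add_nonneg (hu k hk) (by unfold bx; exact_mod_cast h b k (hS k hk))

/-- Removing the points with a negative `k`-th coordinate. -/
lemma step (h : ∀ b, ∀ k ∉ K, 0 ≤ B b (some k)) {S : Finset ι} (hS : ∀ k ∈ S, k ∉ K) {k : ι} (hk : k ∉ K)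
    (hy : y (some k) ≤ 0) {P : Set (Pt ι)} (hP : ∀ u ∈ P, ∀ b, u + B b ∈ P) (d : ℕ) :
    Ex (Dx B c q) d (fun _ => CS S q y ∪ P) (fun _ => CS (insert k S) q y ∪ P) := by
  obtain ⟨z0, hz0⟩ : ∃ z0 : ℤ, z0 = ⌈y (some k) - q (some k)⌉ := ⟨_, rfl⟩
  have hz : ∀ u : Pt ι, 0 ≤ pp q y u k ↔ z0 ≤ u (some k) := by
    intro u
    rw [hz0, Int.ceil_le, pp, hat]
    constructor <;> intro h1 <;> linarith
  have hlt : (z0 : ℚ) < y (some k) - q (some k) + 1 := hz0 ▸ Int.ceil_lt_add_one _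
  obtain ⟨C, hC⟩ : ∃ C : ℕ → Set (Pt ι),
      ∀ n u, u ∈ C n ↔ (u ∈ CS S q y ∧ z0 - n ≤ u (some k)) ∨ u ∈ P :=
    ⟨fun n => {u | (u ∈ CS S q y ∧ z0 - n ≤ u (some k)) ∨ u ∈ P}, fun _ _ => Iff.rfl⟩
  have e0 : CS (insert k S) q y ∪ P = C 0 := by
    ext u
    rw [hC, Set.mem_union, Nat.cast_zero, sub_zero, ← hz]
    simp only [CS, Set.mem_ofPred_eq, forall_mem_insert]
    tauto
  have hadd : ∀ n, ∀ u ∈ C n, ∀ b, u + B b ∈ C n := by
    intro n u hu b
    rw [hC] at hu ⊢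
    rcases hu with ⟨h1, h2⟩ | h1
    · refine Or.inl ⟨CS_add h hS h1 b, ?_⟩
      have := h b k hk
      rw [Pi.add_apply]
      linarith
    · exact Or.inr (hP u h1 b)
  rw [e0]
  refine Ex.chain comm_Dx (fun n _ => C n) (fun n => ?_) (fun n _ u hu => ?_)
    (fun n _ u hu => ?_) (fun _ u hu => ?_)
  · refine Ex.of_scalar k (s := (((z0 - n - 1 : ℤ) + q (some k) : ℚ) : ℂ)) ?_
      (fun u hu => Dn_mem (hadd n) (single_mem_Su hu 1)) (fun u hu hu' => ?_)
    · have h1 : ((z0 - n - 1 : ℤ) + q (some k) : ℚ) < 0 := by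
        have : (0 : ℚ) ≤ n := Nat.cast_nonneg n
        push_cast
        linarith
      exact_mod_cast h1.ne
    · rw [hC] at hu hu'
      rw [not_or] at hu'
      obtain ⟨h1, h2⟩ := hu.resolve_right hu'.2
      have h3 : u (some k) = z0 - n - 1 := by
        have : ¬ z0 - n ≤ u (some k) := fun h4 => hu'.1 ⟨h1, h4⟩
        push_cast at h2
        omega
      rw [Dx_single, hat, h3, add_sub_cancel_left]
      refine Submodule.sum_mem _ (fun b _ => ?_)
      by_cases h4 : B b (some k) = 0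
      · rw [h4, Int.cast_zero, mul_zero, zero_smul]
        exact Submodule.zero_mem _
      · refine Submodule.smul_mem _ _ (single_mem_Su ((hC _ _).2 (Or.inl
          ⟨CS_add h hS h1 b, ?_⟩)) 1)
        have := h b k hk
        rw [Pi.add_apply]
        omega
  · rw [hC] at hu ⊢
    refine hu.imp_left (fun h1 => ⟨h1.1, ?_⟩)
    have := h1.2
    push_cast
    omega
  · rw [hC] at hu
    exact hu.imp_left (fun h1 => h1.1)
  · refine ⟨(z0 - u (some k)).toNat, (hC _ _).2 (hu.imp_left (fun h1 => ⟨h1, ?_⟩))⟩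
    omega

/-- Removing all the points with a negative coordinate outside `K`. -/
lemma first (h : ∀ b, ∀ k ∉ K, 0 ≤ B b (some k)) (hy : ∀ k ∉ K, y (some k) ≤ 0) {P : Set (Pt ι)}
    (hP : ∀ u ∈ P, ∀ b, u + B b ∈ P) (d : ℕ) (S : Finset ι) (hS : ∀ k ∈ S, k ∉ K) :
    Ex (Dx B c q) d (fun _ => Set.univ) (fun _ => CS S q y ∪ P) := by
  induction S using Finset.induction_on with
  | empty => exact Ex.of_subset (fun _ _ u _ => Or.inl (fun k hk => absurd hk (notMem_empty k)))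
  | insert k S _ ih =>
    have h1 : ∀ j ∈ S, j ∉ K := fun j hj => hS j (mem_insert_of_mem hj)
    have h2 := hS k (mem_insert_self _ _)
    exact (ih h1).trans comm_Dx (step h h1 h2 (hy k h2) hP d) (fun _ => Set.subset_univ _)
      (fun _ => Set.union_subset_union_left _ (fun u hu j hj => hu j (mem_insert_of_mem hj)))

/-- The relation for a numerical value of the parameter, with chains in the region. -/
lemma numeric (h : ∀ b, ∀ k ∉ K, 0 ≤ B b (some k)) (hW : ∀ ψ ∈ W, Feas (bx B) (lev B) ψ)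
    (hy : ∀ k ∉ K, y (some k) ≤ 0) (h0 : 0 ∈ RG K q y)
    (hN : Finsupp.single 0 1 ∈ N0 B c q (Ypos W id q y)) :
    ∃ g : ι → Pt ι →₀ ℂ, (∀ i, g i ∈ Su (RG K q y)) ∧
      ∑ i, Dx B c q i (g i) - Finsupp.single 0 1 ∈ Su (RG K q y ∩ Ypos W id q y) := by
  obtain ⟨e, d1, h1⟩ := mem_N0.1 hN
  have hP : ∀ u ∈ Ypos W id q y, ∀ b, u + B b ∈ Ypos W id q y :=
    fun u hu b => Ypos_add hW hu b
  have hK : ∀ k ∈ Kᶜ, k ∉ K := fun k hk => mem_compl.1 hk
  have e0 : RG K q y = CS Kᶜ q y := Set.ext fun u => forall_congr' fun k => by rw [mem_compl]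
  rw [e0] at h0 ⊢
  have sC : Stab (Dx B c q) (fun _ => CS Kᶜ q y) := stab_Dx (fun u hu b => CS_add h hK hu b)
  obtain ⟨e1, d2, -, h2⟩ := first h hy hP 1 Kᶜ hK e d1
    (fun _ => mem_Su.2 (fun _ hu => absurd trivial hu)) (d1.kd.in_zero (by
      have := sub_mem (single_mem_Su (Y := CS Kᶜ q y ∪ Ypos W id q y) (Or.inl h0) 1)
        (Su_mono Set.subset_union_right h1)
      rwa [sub_sub_cancel] at this))
  obtain ⟨e2, -, h3, -, h4⟩ := h2.split (Y := fun _ => CS Kᶜ q y)
    (Z := fun _ => Ypos W id q y) (d1.sub d2.kd) (fun _ => subset_rfl)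
  refine ⟨fun i => e2 {i}, fun i => h3 {i}, ?_⟩
  rw [← kd_empty]
  have h6 := h4.kd (D := Dx B c q) (stab_Dx hP) ∅
  rw [kd_sub, kd_sub_kd comm_Dx, Pi.sub_apply] at h6
  have h7 : kd (Dx B c q) e2 ∅ - Finsupp.single 0 1 ∈ Su (Ypos W id q y) := by
    have := neg_mem (add_mem h1 h6)
    rwa [sub_add_sub_cancel, neg_sub] at this
  exact Su_inter (sub_mem (h3.kd sC ∅) (single_mem_Su h0 1)) h7

/-- Multiplication by the parameter. -/
noncomputable def sh (ι : Type) : Op (Pt (Option ι)) := Finsupp.lmapDomain ℂ ℂ (· + up 1 0)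

/-- The inclusion in degree zero. -/
noncomputable def jj (ι : Type) : (Pt ι →₀ ℂ) →ₗ[ℂ] (Pt (Option ι) →₀ ℂ) :=
  Finsupp.lmapDomain ℂ ℂ (up 0)

omit [Fintype ι] [LinearOrder ι] in
lemma sh_single (U : Pt (Option ι)) :
    sh ι (Finsupp.single U 1) = Finsupp.single (U + up 1 0) 1 := Finsupp.mapDomain_single

omit [Fintype ι] [LinearOrder ι] in
lemma jj_single (u : Pt ι) : jj ι (Finsupp.single u 1) = Finsupp.single (up 0 u) 1 :=
  Finsupp.mapDomain_single

omit [Fintype ι] [LinearOrder ι] in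
lemma sh_mem {Y : Set (Pt ι)} {f : Pt (Option ι) →₀ ℂ} (hf : f ∈ Su {U | dn U ∈ Y}) :
    sh ι f ∈ Su {U | dn U ∈ Y} :=
  map_Su _ _ (fun U hU => by
    rw [sh_single]
    refine single_mem_Su ?_ 1
    rwa [Set.mem_ofPred_eq, dn_add, dn_up, add_zero]) hf

omit [Fintype ι] [LinearOrder ι] in
lemma jj_mem {Y : Set (Pt ι)} {f : Pt ι →₀ ℂ} (hf : f ∈ Su Y) : jj ι f ∈ Su {U | dn U ∈ Y} :=
  map_Su _ _ (fun u hu => by
    rw [jj_single]
    exact single_mem_Su (u := up 0 u) (Y := {U | dn U ∈ Y}) hu 1) hf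

omit [Fintype ι] [LinearOrder ι] in
lemma sh_DT (i : ι) (f : Pt (Option ι) →₀ ℂ) :
    sh ι (DT B c s q i f) = DT B c s q i (sh ι f) :=
  LinearMap.congr_fun (op_ext (L := sh ι ∘ₗ DT B c s q i) (L' := DT B c s q i ∘ₗ sh ι) fun U => by
    simp only [LinearMap.comp_apply, sh_single, DT_single, map_add, map_sum, map_smul, dn_add,
      dn_up, add_zero, add_right_comm U]) f

omit [Fintype ι] [LinearOrder ι] in
lemma sh_pow (t : ℕ) (u : Pt ι) :
    (sh ι ^ t) (Finsupp.single (up 0 u) 1) = Finsupp.single (up t u) 1 := by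
  induction t with
  | zero => rfl
  | succ t ih => rw [pow_succ', Module.End.mul_apply, ih, sh_single, up_add, add_zero, Nat.cast_succ]

omit [Fintype ι] [LinearOrder ι] in
lemma range_single (z : ℂ) (t : ℕ) (u : Pt ι) :
    Finsupp.single (up t u) 1 - z ^ t • Finsupp.single (up 0 u) 1 ∈
      LinearMap.range (sh ι - z • 1) := by
  induction t with
  | zero => simp
  | succ t ih =>
    have := add_mem (LinearMap.mem_range_self (sh ι - z • 1) (Finsupp.single (up t u) 1))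
      (Submodule.smul_mem _ z ih)
    rwa [LinearMap.sub_apply, LinearMap.smul_apply, Module.End.one_apply, smul_sub,
      sub_add_sub_cancel, sh_single, up_add, add_zero, smul_smul, ← pow_succ', ← Nat.cast_succ]
      at this

lemma range_DT (z : ℂ) (i : ι) (f : Pt ι →₀ ℂ) :
    DT B c s q i (jj ι f) - jj ι (Dx B (fun b => z ^ s b * c b) q i f) ∈
      LinearMap.range (sh ι - z • 1) :=
  map_Su (Y := Set.univ) (DT B c s q i ∘ₗ jj ι - jj ι ∘ₗ Dx B (fun b => z ^ s b * c b) q i) _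
    (fun u _ => by
      simp only [LinearMap.sub_apply, LinearMap.comp_apply, jj_single, DT_single, Dx_single,
        map_add, map_sum, map_smul, dn_up, up_add, zero_add, add_sub_add_left_eq_sub,
        ← sum_sub_distrib]
      refine Submodule.sum_mem _ fun b _ => ?_
      have := Submodule.smul_mem _ (c b * (B b (some i) : ℂ)) (range_single z (s b) (u + B b))
      rwa [smul_sub, smul_smul, mul_comm _ (z ^ s b), ← mul_assoc] at this)
    (mem_Su.2 fun _ h => absurd trivial h)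

/-- The relations with a formal parameter. -/
noncomputable def NN (D : ι → Op (Pt (Option ι))) (R P : Set (Pt (Option ι))) :
    Submodule ℂ (Pt (Option ι) →₀ ℂ) where
  carrier := {f | ∃ g : ι → Pt (Option ι) →₀ ℂ, (∀ i, g i ∈ Su R) ∧ ∑ i, D i (g i) - f ∈ Su P}
  add_mem' := by
    rintro f f' ⟨g, h1, h2⟩ ⟨g', h3, h4⟩
    refine ⟨g + g', fun i => add_mem (h1 i) (h3 i), ?_⟩
    simpa [sum_add_distrib, add_sub_add_comm] using add_mem h2 h4
  zero_mem' := ⟨0, fun _ => Submodule.zero_mem _, by simp⟩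
  smul_mem' := by
    rintro r f ⟨g, h1, h2⟩
    refine ⟨r • g, fun i => Submodule.smul_mem _ r (h1 i), ?_⟩
    simpa [smul_sub, smul_sum] using Submodule.smul_mem _ r h2

end TauAux

open TauAux in
/-- Relations for all values of the parameter give a relation with a formal parameter. -/
theorem tau (hA : AmiStmt) : TauStmt := by
  intro ι κ _ _ _ _ B c s K W q y h hW hy h0 hN
  obtain ⟨p, hp, g, h1, h2⟩ := hA _ (by
      rw [rank_finsupp_self']
      exact Cardinal.mk_le_aleph0) (sh ι)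
    (NN (DT B c s q) {U | dn U ∈ RG K q y} {U | dn U ∈ RG K q y ∩ Ypos W id q y})
    (Finsupp.single (up 0 0) 1) ∅ (by
      rintro f ⟨g, h1, h2⟩
      refine ⟨fun i => sh ι (g i), fun i => sh_mem (h1 i), ?_⟩
      simpa only [map_sub, map_sum, sh_DT] using sh_mem h2) Set.countable_empty (fun z _ => by
      obtain ⟨g, h1, h2⟩ := numeric h hW hy h0 (hN z)
      obtain ⟨w, hw⟩ := Submodule.sum_mem _ fun i (_ : i ∈ univ) => range_DT (B := B) (c := c)
        (s := s) (q := q) z i (g i)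
      refine ⟨-w, fun i => jj ι (g i), fun i => jj_mem (h1 i), ?_⟩
      have h3 := jj_mem h2
      rw [map_sub, map_sum, jj_single] at h3
      rw [LinearMap.sub_apply, LinearMap.smul_apply, Module.End.one_apply, sum_sub_distrib] at hw
      convert h3 using 1
      rw [map_neg, smul_neg, ← neg_sub', hw]
      abel)
  have hc := Polynomial.leadingCoeff_ne_zero.2 hp
  obtain ⟨e, d1, h3⟩ := exists_deg_one (fun i => p.leadingCoeff⁻¹ • g i)
  refine ⟨p.natDegree, e, d1, fun J => ?_, ?_⟩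
  · by_cases hJ : J.card = 1
    · obtain ⟨i, rfl⟩ := card_eq_one.1 hJ
      rw [h3]
      exact Submodule.smul_mem _ _ (h1 i)
    · rw [d1 J hJ]
      exact Submodule.zero_mem _
  · rw [Polynomial.aeval_eq_sum_range, LinearMap.sum_apply, sum_range_succ] at h2
    simp only [LinearMap.smul_apply, sh_pow, Polynomial.coeff_natDegree] at h2
    have h4 := Submodule.smul_mem _ p.leadingCoeff⁻¹ (add_mem
      (Su_mono (Y' := {U | (dn U ∈ RG K q y ∧ dn U ∈ Ypos W id q y) ∨
        (dn U = 0 ∧ U none < p.natDegree)}) (fun U hU => Or.inl hU) h2)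
      (Submodule.sum_mem _ fun t (ht : t ∈ range p.natDegree) => Submodule.smul_mem _ (p.coeff t)
        (single_mem_Su (u := up t 0) (Or.inr ⟨rfl, by simpa using ht⟩) 1)))
    rw [sub_add_eq_sub_sub, sub_right_comm, sub_add_cancel, smul_sub, smul_smul,
      inv_mul_cancel₀ hc, one_smul, smul_sum] at h4
    simpa only [kd_empty, h3, map_smul] using h4

end Pool.Agent.MP_5d9b3c_ag.H10N
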